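import Mathlib

set_option autoImplicit false
set_option maxHeartbeats 1000000

/-!
# Averages of products of functions of residues modulo distinct primes
-/

namespace Pool.Agent.K7.H64.DS

open Finset

/-- sum over a full block -/
lemma crt_block (T : Finset ℕ) (hT : ∀ p ∈ T, p.Prime) (c : (p : ℕ) → ZMod p → ℝ) (a : ℤ) :
    ∑ j ∈ range (∏ p ∈ T, p), ∏ p ∈ T, c p ((a + (j : ℤ) : ℤ) : ZMod p) =
      ∏ p ∈ T, ∑ r ∈ range p, c p (r : ZMod p) := by
  classical
  set A : T → ℕ := fun i => (i : ℕ) with hA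
  have hAne : ∀ i : T, NeZero (A i) := fun i => ⟨(hT i i.2).ne_zero⟩
  have hcop : Pairwise (Function.onFun Nat.Coprime A) := by
    intro i j hij
    exact (Nat.coprime_primes (hT i i.2) (hT j j.2)).2 (fun h => hij (Subtype.ext h))
  have hP : ∏ i, A i = ∏ p ∈ T, p := by
    rw [← prod_coe_sort T (fun p => p)]
  set P := ∏ i, A i with hPdef
  have hP0 : P ≠ 0 := prod_ne_zero_iff.2 fun i _ => (hAne i).ne
  have : NeZero P := ⟨hP0⟩
  set e := ZMod.prodEquivPi A hcop with he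
  rw [← hP]
  have h1 : ∀ k : ℤ, ∏ p ∈ T, c p ((k : ℤ) : ZMod p) = ∏ i : T, c (A i) (e ((k : ℤ) : ZMod P) i) := by
    intro k
    rw [← prod_coe_sort T (fun p => c p ((k : ℤ) : ZMod p))]
    refine prod_congr rfl fun i _ => ?_
    rw [map_intCast, Pi.intCast_apply]
  have h2 : ∑ j ∈ range P, ∏ p ∈ T, c p ((a + (j : ℤ) : ℤ) : ZMod p) =
      ∑ x : ZMod P, ∏ i : T, c (A i) (e x i) := by
    simp only [h1]
    refine sum_nbij' (fun j => ((a + (j : ℤ) : ℤ) : ZMod P)) (fun x => (x - (a : ZMod P)).val)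
      (fun j _ => mem_univ _) (fun x _ => mem_range.2 (ZMod.val_lt _)) ?_ ?_ (fun j _ => rfl)
    · intro j hj
      rw [mem_range] at hj
      simp only [Int.cast_add, Int.cast_natCast, add_sub_cancel_left]
      exact ZMod.val_cast_of_lt hj
    · intro x _
      simp only [Int.cast_add, Int.cast_natCast, ZMod.natCast_zmod_val]
      ring
  have h4 : ∑ x : ZMod P, ∏ i : T, c (A i) (e x i) =
      ∑ y : (i : T) → ZMod (A i), ∏ i : T, c (A i) (y i) :=
    Equiv.sum_comp e.toEquiv (fun y => ∏ i : T, c (A i) (y i))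
  rw [h2, h4]
  have h3 : ∑ y : (i : T) → ZMod (A i), ∏ i : T, c (A i) (y i) = ∏ i : T, ∑ r : ZMod (A i), c (A i) r := by
    rw [prod_univ_sum, Fintype.piFinset_univ]
  rw [h3, ← prod_coe_sort T (fun p => ∑ r ∈ range p, c p (r : ZMod p))]
  refine prod_congr rfl fun i _ => ?_
  refine sum_nbij' (fun x => x.val) (fun r => (r : ZMod (A i)))
    (fun x _ => mem_range.2 (ZMod.val_lt _)) (fun r _ => mem_univ _) ?_ ?_ ?_
  · intro x _; exact ZMod.natCast_zmod_val x
  · intro r hr; exact ZMod.val_cast_of_lt (mem_range.1 hr)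
  · intro x _; rw [ZMod.natCast_zmod_val]

/-- sum over several blocks -/
lemma crt_avg (T : Finset ℕ) (hT : ∀ p ∈ T, p.Prime) (c : (p : ℕ) → ZMod p → ℝ) (n : ℕ) (a : ℤ) :
    ∑ j ∈ range ((∏ p ∈ T, p) * n), ∏ p ∈ T, c p ((a + (j : ℤ) : ℤ) : ZMod p) =
      n * ∏ p ∈ T, ∑ r ∈ range p, c p (r : ZMod p) := by
  induction n with
  | zero => simp
  | succ n ih =>
    rw [Nat.mul_succ, sum_range_add, ih]
    have h1 : ∑ j ∈ range (∏ p ∈ T, p), ∏ p ∈ T,
        c p ((a + (((∏ p ∈ T, p) * n + j : ℕ) : ℤ) : ℤ) : ZMod p) =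
        ∏ p ∈ T, ∑ r ∈ range p, c p (r : ZMod p) := by
      rw [← crt_block T hT c (a + (((∏ p ∈ T, p) * n : ℕ) : ℤ))]
      refine sum_congr rfl fun j _ => prod_congr rfl fun p _ => ?_
      congr 2
      push_cast; ring
    rw [h1]
    push_cast; ring

end Pool.Agent.K7.H64.DS
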