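import Mathlib
import Pool.Agent.K7.H64.DS.Crt

set_option autoImplicit false
set_option maxHeartbeats 1000000

/-!
# Counting pairs of reduced fractions with a given difference
-/

namespace Pool.Agent.K7.H64.DS

open Finset

/-- reduced residues -/
def red (n : ℕ) : Finset ℕ := (range n).filter (fun a => Nat.Coprime a n)

lemma card_red (n : ℕ) : (red n).card = Nat.totient n := by
  rw [red, Nat.totient_eq_card_coprime]
  congr 1
  ext a
  simp only [mem_filter]
  rw [Nat.coprime_comm]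

/-- pairs of numerators with difference `k / lcm` modulo one -/
def Sol (m n : ℕ) (k : ℤ) : Finset (ℕ × ℕ) :=
  (red m ×ˢ red n).filter (fun ab => ((m * (n / Nat.gcd m n) : ℕ) : ℤ) ∣
    ((ab.1 : ℤ) * (n / Nat.gcd m n : ℕ) - (ab.2 : ℤ) * (m / Nat.gcd m n : ℕ) - k))

lemma sum_le_sub_one (p : ℕ) [NeZero p] (c : ZMod p → ℝ) (hc : ∀ r, c r ≤ 1) (z : ZMod p)
    (hz : c z ≤ 0) : ∑ r ∈ range p, c (r : ZMod p) ≤ p - 1 := by
  have h1 : ∀ r ∈ range p, c (r : ZMod p) ≤ if r = z.val then 0 else 1 := by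
    intro r _
    split_ifs with h
    · rw [h, ZMod.natCast_zmod_val]; exact hz
    · exact hc _
  refine (sum_le_sum h1).trans ?_
  have h2 : ∑ r ∈ range p, (if r = z.val then (0 : ℝ) else 1) =
      ∑ r ∈ range p, ((1 : ℝ) - if r = z.val then 1 else 0) := by
    refine sum_congr rfl fun r _ => ?_
    split_ifs <;> simp
  rw [h2, sum_sub_distrib, sum_ite_eq' (range p) z.val, if_pos (mem_range.2 (ZMod.val_lt z))]
  simp

lemma sum_le_sub_two (p : ℕ) [NeZero p] (c : ZMod p → ℝ) (hc : ∀ r, c r ≤ 1) (z w : ZMod p)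
    (hz : c z ≤ 0) (hw : c w ≤ 0) (hzw : z ≠ w) : ∑ r ∈ range p, c (r : ZMod p) ≤ p - 2 := by
  have hne : z.val ≠ w.val := fun h => hzw (ZMod.val_injective p h)
  have h1 : ∀ r ∈ range p, c (r : ZMod p) ≤
      (1 : ℝ) - (if r = z.val then 1 else 0) - (if r = w.val then 1 else 0) := by
    intro r _
    split_ifs with h h' h'
    · exact absurd (h.symm.trans h') hne
    · rw [h, ZMod.natCast_zmod_val]; linarith
    · rw [h', ZMod.natCast_zmod_val]; linarith
    · linarith [hc (r : ZMod p)]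
  refine (sum_le_sum h1).trans ?_
  rw [sum_sub_distrib, sum_sub_distrib, sum_ite_eq' (range p) z.val,
    if_pos (mem_range.2 (ZMod.val_lt z)), sum_ite_eq' (range p) w.val,
    if_pos (mem_range.2 (ZMod.val_lt w))]
  simp
  linarith

/-- the local density at `p` -/
noncomputable def rho (m1 n1 p : ℕ) (k : ℤ) : ℝ :=
  if (p ∣ m1 ∨ p ∣ n1) ∨ (p : ℤ) ∣ k then 1 - 1 / (p : ℝ) else 1 - 2 / (p : ℝ)

lemma sol_card (m n : ℕ) (hm : 0 < m) (hn : 0 < n) (k : ℤ) :
    ((Sol m n k).card : ℝ) ≤ Nat.gcd m n *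
      ∏ p ∈ (Nat.gcd m n).primeFactors, rho (m / Nat.gcd m n) (n / Nat.gcd m n) p k := by
  classical
  set g := Nat.gcd m n with hg
  have hg0 : 0 < g := Nat.gcd_pos_of_pos_left _ hm
  set m1 := m / g with hm1
  set n1 := n / g with hn1
  have hmg : m = g * m1 := (Nat.mul_div_cancel' (Nat.gcd_dvd_left m n)).symm
  have hng : n = g * n1 := (Nat.mul_div_cancel' (Nat.gcd_dvd_right m n)).symm
  have hcop : Nat.Coprime m1 n1 := Nat.coprime_div_gcd_div_gcd hg0
  have hm10 : 0 < m1 := Nat.pos_of_ne_zero fun h => by rw [h] at hmg; omega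
  have hn10 : 0 < n1 := Nat.pos_of_ne_zero fun h => by rw [h] at hng; omega
  have hcopZ : IsCoprime (m1 : ℤ) (n1 : ℤ) := Nat.isCoprime_iff_coprime.2 hcop
  obtain ⟨u, v, huv⟩ := hcopZ
  -- particular solution
  set a0 : ℤ := k * v with ha0
  set b0 : ℤ := -(k * u) with hb0
  have hab0 : a0 * n1 - b0 * m1 = k := by
    rw [ha0, hb0]; linear_combination k * huv
  -- structure of solutions
  have hstr : ∀ ab ∈ Sol m n k, ∃ α β : ℤ, (ab.1 : ℤ) = a0 + m1 * α ∧ (ab.2 : ℤ) = b0 + n1 * β ∧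
      (g : ℤ) ∣ α - β := by
    intro ab hab
    obtain ⟨c, hc⟩ := (mem_filter.1 hab).2
    rw [← hg, ← hm1, ← hn1] at hc
    have hL : (((m * n1 : ℕ)) : ℤ) = g * m1 * n1 := by rw [hmg]; push_cast; ring
    rw [hL] at hc
    have h1 : (n1 : ℤ) ∣ ((ab.2 : ℤ) - b0) := by
      have h2 : (n1 : ℤ) ∣ ((ab.2 : ℤ) - b0) * m1 := by
        refine ⟨((ab.1 : ℤ) - a0) - g * m1 * c, ?_⟩
        linear_combination (-1 : ℤ) * hc + hab0
      exact (IsCoprime.symm ⟨u, v, huv⟩).dvd_of_dvd_mul_right h2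
    have h3 : (m1 : ℤ) ∣ ((ab.1 : ℤ) - a0) := by
      have h2 : (m1 : ℤ) ∣ ((ab.1 : ℤ) - a0) * n1 := by
        refine ⟨((ab.2 : ℤ) - b0) + g * n1 * c, ?_⟩
        linear_combination (1 : ℤ) * hc - hab0
      exact (show IsCoprime (m1 : ℤ) (n1 : ℤ) from ⟨u, v, huv⟩).dvd_of_dvd_mul_right h2
    obtain ⟨β, hβ⟩ := h1
    obtain ⟨α, hα⟩ := h3
    refine ⟨α, β, by linarith, by linarith, c, ?_⟩
    have h4 : (m1 : ℤ) * n1 * (α - β) = m1 * n1 * (g * c) := by
      linear_combination (-(n1 : ℤ)) * hα + (m1 : ℤ) * hβ + hc - hab0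
    have h5 : (m1 : ℤ) * n1 ≠ 0 := by
      have : 0 < m1 * n1 := Nat.mul_pos hm10 hn10
      exact_mod_cast this.ne'
    exact mul_left_cancel₀ h5 h4
  -- the local conditions
  set c : (p : ℕ) → ZMod p → ℝ := fun p r =>
    if (a0 : ZMod p) + m1 * r = 0 ∨ (b0 : ZMod p) + n1 * r = 0 then 0 else 1 with hc
  have hc0 : ∀ p r, 0 ≤ c p r := by intro p r; simp only [hc]; split_ifs <;> norm_num
  have hc1 : ∀ p r, c p r ≤ 1 := by intro p r; simp only [hc]; split_ifs <;> norm_num
  set T := g.primeFactors with hT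
  have hTp : ∀ p ∈ T, p.Prime := fun p hp => Nat.prime_of_mem_primeFactors hp
  -- card bound
  have hcard : ((Sol m n k).card : ℝ) ≤ ∑ j ∈ range g, ∏ p ∈ T, c p ((0 + (j : ℤ) : ℤ) : ZMod p) := by
    set J := (range g).filter (fun j : ℕ => ∀ p ∈ T, c p ((j : ℤ) : ZMod p) = 1) with hJ
    have h1 : (Sol m n k).card ≤ J.card := by
      choose! A B hA hB hAB using hstr
      refine card_le_card_of_injOn (fun ab => (B ab % (g : ℤ)).toNat) ?_ ?_
      · intro ab hab
        have hab' : ab ∈ Sol m n k := hab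
        have hgz : (0 : ℤ) < g := by exact_mod_cast hg0
        have hnn : 0 ≤ B ab % (g : ℤ) := Int.emod_nonneg _ hgz.ne'
        have hlt : B ab % (g : ℤ) < g := Int.emod_lt_of_pos _ hgz
        have hcast : (((B ab % (g : ℤ)).toNat : ℕ) : ℤ) = B ab % g := Int.toNat_of_nonneg hnn
        have hlt' : (B ab % (g : ℤ)).toNat < g := by omega
        refine mem_coe.2 (mem_filter.2 ⟨mem_range.2 hlt', fun p hp => ?_⟩)
        have hpp := hTp p hp
        have hpg : p ∣ g := Nat.dvd_of_mem_primeFactors hp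
        have hpgz : (p : ℤ) ∣ g := by exact_mod_cast hpg
        rw [hcast]
        have hBmod : ((B ab % (g : ℤ) : ℤ) : ZMod p) = (B ab : ZMod p) := by
          rw [ZMod.intCast_eq_intCast_iff]
          exact (Int.mod_modEq _ _).of_dvd hpgz
        have hAB' : (A ab : ZMod p) = (B ab : ZMod p) := by
          rw [ZMod.intCast_eq_intCast_iff]
          exact ((Int.modEq_iff_dvd).2 (hpgz.trans (by
            have := hAB ab hab'
            rw [← neg_sub, dvd_neg]; exact this)))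
        have hmem := mem_product.1 (mem_filter.1 hab').1
        have ha : ¬ p ∣ ab.1 := by
          intro hd
          have := (mem_filter.1 hmem.1).2
          have h3 : p ∣ Nat.gcd ab.1 m := Nat.dvd_gcd hd (hpg.trans (Nat.gcd_dvd_left m n))
          rw [this] at h3
          exact hpp.one_lt.ne' (Nat.dvd_one.1 h3)
        have hb : ¬ p ∣ ab.2 := by
          intro hd
          have := (mem_filter.1 hmem.2).2
          have h3 : p ∣ Nat.gcd ab.2 n := Nat.dvd_gcd hd (hpg.trans (Nat.gcd_dvd_right m n))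
          rw [this] at h3
          exact hpp.one_lt.ne' (Nat.dvd_one.1 h3)
        simp only [hc]
        rw [if_neg]
        rw [hBmod]
        rintro (h | h)
        · apply ha
          have h4 : ((ab.1 : ℤ) : ZMod p) = 0 := by
            rw [hA ab hab']; push_cast; rw [hAB']; exact h
          rw [Int.cast_natCast] at h4
          exact (ZMod.natCast_eq_zero_iff _ _).1 h4
        · apply hb
          have h4 : ((ab.2 : ℤ) : ZMod p) = 0 := by
            rw [hB ab hab']; push_cast; exact h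
          rw [Int.cast_natCast] at h4
          exact (ZMod.natCast_eq_zero_iff _ _).1 h4
      · intro ab hab cd hcd heq
        have hab' : ab ∈ Sol m n k := hab
        have hcd' : cd ∈ Sol m n k := hcd
        have hgz : (0 : ℤ) < g := by exact_mod_cast hg0
        have h2 : B ab % (g : ℤ) = B cd % (g : ℤ) := by
          have e1 := Int.emod_nonneg (B ab) hgz.ne'
          have e2 := Int.emod_nonneg (B cd) hgz.ne'
          simp only at heq
          omega
        have h3 : (g : ℤ) ∣ B ab - B cd := Int.ModEq.dvd (Int.ModEq.symm h2)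
        have h4 : (g : ℤ) ∣ A ab - A cd := by
          have e1 := hAB ab hab'
          have e2 := hAB cd hcd'
          have : A ab - A cd = (A ab - B ab) - (A cd - B cd) + (B ab - B cd) := by ring
          rw [this]
          exact dvd_add (dvd_sub e1 e2) h3
        have hm1' := mem_product.1 (mem_filter.1 hab').1
        have hm2' := mem_product.1 (mem_filter.1 hcd').1
        have l1 := mem_range.1 (mem_filter.1 hm1'.1).1
        have l2 := mem_range.1 (mem_filter.1 hm2'.1).1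
        have l3 := mem_range.1 (mem_filter.1 hm1'.2).1
        have l4 := mem_range.1 (mem_filter.1 hm2'.2).1
        have h5 : (m : ℤ) ∣ (ab.1 : ℤ) - cd.1 := by
          rw [hA ab hab', hA cd hcd', hmg]
          obtain ⟨w, hw⟩ := h4
          refine ⟨w, ?_⟩
          push_cast
          linear_combination (m1 : ℤ) * hw
        have h6 : (n : ℤ) ∣ (ab.2 : ℤ) - cd.2 := by
          rw [hB ab hab', hB cd hcd', hng]
          obtain ⟨w, hw⟩ := h3
          refine ⟨w, ?_⟩
          push_cast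
          linear_combination (n1 : ℤ) * hw
        have h7 : ab.1 = cd.1 := by
          have : (ab.1 : ℤ) - cd.1 = 0 := by
            apply Int.eq_zero_of_abs_lt_dvd h5
            rw [abs_lt]; constructor <;> omega
          omega
        have h8 : ab.2 = cd.2 := by
          have : (ab.2 : ℤ) - cd.2 = 0 := by
            apply Int.eq_zero_of_abs_lt_dvd h6
            rw [abs_lt]; constructor <;> omega
          omega
        exact Prod.ext h7 h8
    calc ((Sol m n k).card : ℝ) ≤ (J.card : ℝ) := by exact_mod_cast h1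
      _ = ∑ j ∈ J, (1 : ℝ) := by simp
      _ = ∑ j ∈ J, ∏ p ∈ T, c p ((0 + (j : ℤ) : ℤ) : ZMod p) := by
          refine sum_congr rfl fun j hj => ?_
          rw [zero_add]
          exact (prod_eq_one fun p hp => (mem_filter.1 hj).2 p hp).symm
      _ ≤ _ := sum_le_sum_of_subset_of_nonneg (filter_subset _ _) fun j _ _ =>
          prod_nonneg fun p _ => hc0 _ _
  refine hcard.trans ?_
  obtain ⟨q, hq⟩ := Nat.prod_primeFactors_dvd g
  have hsum : ∑ j ∈ range g, ∏ p ∈ T, c p ((0 + (j : ℤ) : ℤ) : ZMod p) =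
      q * ∏ p ∈ T, ∑ r ∈ range p, c p (r : ZMod p) := by
    rw [← crt_avg T hTp c q 0]
    congr 1
    rw [← hq]
  rw [hsum]
  have hgq : (g : ℝ) = (∏ p ∈ T, (p : ℝ)) * q := by
    conv_lhs => rw [hq]
    push_cast; rfl
  rw [hgq, mul_comm (∏ p ∈ T, (p : ℝ)) (q : ℝ), mul_assoc, ← prod_mul_distrib]
  refine mul_le_mul_of_nonneg_left ?_ (Nat.cast_nonneg q)
  refine prod_le_prod (fun p _ => sum_nonneg fun r _ => hc0 _ _) fun p hp => ?_
  have hpp := hTp p hp
  have : NeZero p := ⟨hpp.ne_zero⟩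
  have : Fact p.Prime := ⟨hpp⟩
  have hp0 : (p : ℝ) ≠ 0 := by exact_mod_cast hpp.ne_zero
  have hzero_m : ¬ p ∣ m1 → (a0 : ZMod p) + m1 * (-(a0 : ZMod p) / (m1 : ZMod p)) = 0 := by
    intro h
    have : (m1 : ZMod p) ≠ 0 := fun h' => h ((ZMod.natCast_eq_zero_iff _ _).1 h')
    field_simp; ring
  have hzero_n : ¬ p ∣ n1 → (b0 : ZMod p) + n1 * (-(b0 : ZMod p) / (n1 : ZMod p)) = 0 := by
    intro h
    have : (n1 : ZMod p) ≠ 0 := fun h' => h ((ZMod.natCast_eq_zero_iff _ _).1 h')
    field_simp; ring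
  rw [rho]
  split_ifs with hcase
  · have hle : ∑ r ∈ range p, c p (r : ZMod p) ≤ p - 1 := by
      by_cases hpm : p ∣ m1
      · have hpn : ¬ p ∣ n1 := fun h => by
          have := Nat.dvd_gcd hpm h
          rw [hcop] at this
          exact hpp.one_lt.ne' (Nat.dvd_one.1 this)
        refine sum_le_sub_one p (c p) (hc1 p) (-(b0 : ZMod p) / (n1 : ZMod p)) ?_
        simp only [hc]
        rw [if_pos (Or.inr (hzero_n hpn))]
      · refine sum_le_sub_one p (c p) (hc1 p) (-(a0 : ZMod p) / (m1 : ZMod p)) ?_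
        simp only [hc]
        rw [if_pos (Or.inl (hzero_m hpm))]
    calc _ ≤ (p : ℝ) - 1 := hle
      _ = p * (1 - 1 / (p : ℝ)) := by field_simp
  · push Not at hcase
    obtain ⟨⟨hpm, hpn⟩, hpk⟩ := hcase
    have hle : ∑ r ∈ range p, c p (r : ZMod p) ≤ p - 2 := by
      refine sum_le_sub_two p (c p) (hc1 p) (-(a0 : ZMod p) / (m1 : ZMod p))
        (-(b0 : ZMod p) / (n1 : ZMod p)) ?_ ?_ ?_
      · simp only [hc]
        rw [if_pos (Or.inl (hzero_m hpm))]
      · simp only [hc]
        rw [if_pos (Or.inr (hzero_n hpn))]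
      · intro heq
        apply hpk
        have e1 : (m1 : ZMod p) ≠ 0 := fun h' => hpm ((ZMod.natCast_eq_zero_iff _ _).1 h')
        have e2 : (n1 : ZMod p) ≠ 0 := fun h' => hpn ((ZMod.natCast_eq_zero_iff _ _).1 h')
        rw [div_eq_div_iff e1 e2] at heq
        have h4 : ((k : ℤ) : ZMod p) = 0 := by
          rw [← hab0]; push_cast; linear_combination (-1 : ZMod p) * heq
        exact (ZMod.intCast_zmod_eq_zero_iff_dvd _ _).1 h4
    calc _ ≤ (p : ℝ) - 2 := hle
      _ = p * (1 - 2 / (p : ℝ)) := by field_simp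

lemma sol_empty (m n : ℕ) (k : ℤ) (p : ℕ) (hp : p.Prime) (hpk : (p : ℤ) ∣ k)
    (hcase : p ∣ m / Nat.gcd m n ∨ p ∣ n / Nat.gcd m n) (hm : 0 < m) :
    Sol m n k = ∅ := by
  set g := Nat.gcd m n with hg
  have hg0 : 0 < g := Nat.gcd_pos_of_pos_left _ hm
  set m1 := m / g with hm1
  set n1 := n / g with hn1
  have hmg : m = g * m1 := (Nat.mul_div_cancel' (Nat.gcd_dvd_left m n)).symm
  have hng : n = g * n1 := (Nat.mul_div_cancel' (Nat.gcd_dvd_right m n)).symm
  have hcop : Nat.Coprime m1 n1 := Nat.coprime_div_gcd_div_gcd hg0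
  have hpz : Prime (p : ℤ) := Nat.prime_iff_prime_int.1 hp
  rw [eq_empty_iff_forall_notMem]
  intro ab hab
  obtain ⟨c, hc⟩ := (mem_filter.1 hab).2
  rw [← hg, ← hm1, ← hn1] at hc
  have hL : (((m * n1 : ℕ)) : ℤ) = g * m1 * n1 := by rw [hmg]; push_cast; ring
  rw [hL] at hc
  have hmem := mem_product.1 (mem_filter.1 hab).1
  have hnot : ∀ x, p ∣ m1 → ¬ (p ∣ x ∧ Nat.Coprime x m) := by
    rintro x h ⟨h1, h2⟩
    have h3 : p ∣ Nat.gcd x m := Nat.dvd_gcd h1 (h.trans ⟨g, by rw [hmg]; ring⟩)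
    rw [h2] at h3
    exact hp.one_lt.ne' (Nat.dvd_one.1 h3)
  have hnot' : ∀ x, p ∣ n1 → ¬ (p ∣ x ∧ Nat.Coprime x n) := by
    rintro x h ⟨h1, h2⟩
    have h3 : p ∣ Nat.gcd x n := Nat.dvd_gcd h1 (h.trans ⟨g, by conv_lhs => rw [hng]
                                                                ring⟩)
    rw [h2] at h3
    exact hp.one_lt.ne' (Nat.dvd_one.1 h3)
  rcases hcase with h | h
  · have hpn : ¬ p ∣ n1 := fun h' => by
      have := Nat.dvd_gcd h h'
      rw [hcop] at this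
      exact hp.one_lt.ne' (Nat.dvd_one.1 this)
    have hz : (p : ℤ) ∣ m1 := by exact_mod_cast h
    have h2 : (p : ℤ) ∣ (ab.1 : ℤ) * n1 := by
      have : (ab.1 : ℤ) * n1 = (ab.2 : ℤ) * m1 + k + g * m1 * n1 * c := by linear_combination hc
      rw [this]
      exact dvd_add (dvd_add (hz.mul_left _) hpk) (((hz.mul_left _).mul_right _).mul_right _)
    rcases hpz.dvd_or_dvd h2 with h3 | h3
    · exact hnot ab.1 h ⟨by exact_mod_cast h3, (mem_filter.1 hmem.1).2⟩
    · exact hpn (by exact_mod_cast h3)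
  · have hpm : ¬ p ∣ m1 := fun h' => by
      have := Nat.dvd_gcd h' h
      rw [hcop] at this
      exact hp.one_lt.ne' (Nat.dvd_one.1 this)
    have hz : (p : ℤ) ∣ n1 := by exact_mod_cast h
    have h2 : (p : ℤ) ∣ (ab.2 : ℤ) * m1 := by
      have : (ab.2 : ℤ) * m1 = (ab.1 : ℤ) * n1 - k - g * m1 * n1 * c := by linear_combination -hc
      rw [this]
      exact dvd_sub (dvd_sub (hz.mul_left _) hpk) ((hz.mul_left _).mul_right _)
    rcases hpz.dvd_or_dvd h2 with h3 | h3
    · exact hnot' ab.2 h ⟨by exact_mod_cast h3, (mem_filter.1 hmem.2).2⟩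
    · exact hpm (by exact_mod_cast h3)

end Pool.Agent.K7.H64.DS
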