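import Mathlib

set_option autoImplicit false

/-!
# A one-prime inequality, pure real-variable part
-/

namespace Pool.Agent.K7.H64.DS

/-- the upper side -/
lemma pure_up (F θ f w am ap bm bp Ep skk Up : ℝ)
    (hF : 1 ≤ F) (hθ : 0 < θ) (hθ0 : θ * (10 ^ 5 * F ^ 3) ≤ 1) (hf1 : 1 ≤ f) (hfF : f ≤ F)
    (hw0 : 0 ≤ w) (hw : w ≤ θ ^ 4 / 2)
    (ham0 : 0 ≤ am) (hap0 : 0 ≤ ap) (hbm0 : 0 ≤ bm) (hbp0 : 0 ≤ bp) (hEp0 : 0 ≤ Ep)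
    (hUp0 : 0 ≤ Up)
    (hEp : Ep ^ 4 ≤ ap + bp)
    (ha : am + ap ≤ 16 * F * θ) (hb : bm + bp ≤ 16 * F * θ)
    (hU : Up ≤ 4 * θ * Ep ^ 3)
    (hK1 : skk ≤ (1 - w) * ((1 - 3 / 4 * (am + ap)) * (1 - 3 / 4 * (bm + bp))))
    (hK2 : skk + Up ≤ (1 - w) * ((1 - 3 / 4 * am) * (1 - 3 / 4 * bm))) :
    skk + f * Up + 3 * F * Ep ^ 6 ≤ (1 - w) * ((1 - 3 / 4 * am) * (1 - 3 / 4 * bm)) +
      ((f - 1) * (4 * (64 * F) ^ 3 * θ ^ 4) + 3 * F * (64 * F) ^ 6 * θ ^ 6) := by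
  have hF3 : 1 ≤ F ^ 3 := one_le_pow₀ hF
  have hF0 : 0 < F := by linarith
  have hθ1 : θ ≤ 1 / 10 ^ 5 := by nlinarith
  have hη1 : 16 * F * θ ≤ 1 / 1000 := by
    have : F ≤ F ^ 3 := by nlinarith [sq_nonneg (F - 1)]
    nlinarith
  have hw1 : w ≤ 1 / 16 := by
    have : θ ^ 4 ≤ 1 := pow_le_one₀ hθ.le (by linarith)
    have h2 : θ ^ 4 ≤ θ := by
      calc θ ^ 4 = θ * θ ^ 3 := by ring
        _ ≤ θ * 1 := by gcongr; exact pow_le_one₀ hθ.le (by linarith)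
        _ = θ := by ring
    linarith
  rcases le_or_gt (64 * F * θ) Ep with hP | hM
  · -- case P
    have h1 : f * Up ≤ 1 / 16 * Ep ^ 4 := by
      calc f * Up ≤ F * (4 * θ * Ep ^ 3) := by gcongr
        _ = 1 / 16 * ((64 * F * θ) * Ep ^ 3) := by ring
        _ ≤ 1 / 16 * (Ep * Ep ^ 3) := by gcongr
        _ = 1 / 16 * Ep ^ 4 := by ring
    have h2 : 3 * F * Ep ^ 6 ≤ 1 / 16 * Ep ^ 4 := by
      have h3 : Ep ^ 2 ≤ 1 / (48 * F) := by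
        have h4 : (Ep ^ 2) ^ 2 ≤ (1 / (48 * F)) ^ 2 := by
          rw [div_pow, le_div_iff₀ (by positivity)]
          have h5 : Ep ^ 4 ≤ 32 * F * θ := by linarith
          calc (Ep ^ 2) ^ 2 * (48 * F) ^ 2 = Ep ^ 4 * (2304 * F ^ 2) := by ring
            _ ≤ (32 * F * θ) * (2304 * F ^ 2) := by gcongr
            _ = θ * (73728 * F ^ 3) := by ring
            _ ≤ θ * (10 ^ 5 * F ^ 3) := by gcongr; norm_num
            _ ≤ 1 ^ 2 := by linarith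
        exact (pow_le_pow_iff_left₀ (by positivity) (by positivity) (by norm_num)).1 h4
      calc 3 * F * Ep ^ 6 = 3 * F * Ep ^ 2 * Ep ^ 4 := by ring
        _ ≤ 3 * F * (1 / (48 * F)) * Ep ^ 4 := by gcongr
        _ = 1 / 16 * Ep ^ 4 := by field_simp; ring
    have h3 : (1 - w) * ((1 - 3 / 4 * (am + ap)) * (1 - 3 / 4 * (bm + bp))) ≤
        (1 - w) * ((1 - 3 / 4 * am) * (1 - 3 / 4 * bm)) - 1 / 2 * (ap + bp) := by
      have e : (1 - w) * ((1 - 3 / 4 * (am + ap)) * (1 - 3 / 4 * (bm + bp))) =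
        (1 - w) * ((1 - 3 / 4 * am) * (1 - 3 / 4 * bm)) -
        (1 - w) * (3 / 4 * ap * (1 - 3 / 4 * (bm + bp)) + 3 / 4 * bp * (1 - 3 / 4 * am)) := by ring
      rw [e]
      have h4 : 7 / 10 * ap ≤ 3 / 4 * ap * (1 - 3 / 4 * (bm + bp)) := by
        have : 3 / 4 * (bm + bp) ≤ 1 / 1000 := by linarith
        nlinarith
      have h5 : 7 / 10 * bp ≤ 3 / 4 * bp * (1 - 3 / 4 * am) := by
        have : 3 / 4 * am ≤ 1 / 1000 := by linarith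
        nlinarith
      have h6 : (15 / 16) * (7 / 10 * ap + 7 / 10 * bp) ≤
        (1 - w) * (3 / 4 * ap * (1 - 3 / 4 * (bm + bp)) + 3 / 4 * bp * (1 - 3 / 4 * am)) := by
        apply mul_le_mul
        · linarith
        · linarith
        · positivity
        · linarith
      linarith
    have h7 : 0 ≤ (f - 1) * (4 * (64 * F) ^ 3 * θ ^ 4) + 3 * F * (64 * F) ^ 6 * θ ^ 6 := by
      have : 0 ≤ f - 1 := by linarith
      positivity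
    generalize (f - 1) * (4 * (64 * F) ^ 3 * θ ^ 4) + 3 * F * (64 * F) ^ 6 * θ ^ 6 = E1 at h7 ⊢
    have h8 := hK1.trans h3
    generalize (1 - w) * ((1 - 3 / 4 * am) * (1 - 3 / 4 * bm)) = E2 at h8 ⊢
    linarith
  · -- case M
    have h1 : f * Up ≤ Up + (f - 1) * (4 * (64 * F) ^ 3 * θ ^ 4) := by
      have h2 : Up ≤ 4 * (64 * F) ^ 3 * θ ^ 4 := by
        calc Up ≤ 4 * θ * Ep ^ 3 := hU
          _ ≤ 4 * θ * (64 * F * θ) ^ 3 := by gcongr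
          _ = 4 * (64 * F) ^ 3 * θ ^ 4 := by ring
      have h9 := mul_le_mul_of_nonneg_left h2 (show (0:ℝ) ≤ f - 1 by linarith)
      linarith
    have h3 : 3 * F * Ep ^ 6 ≤ 3 * F * (64 * F) ^ 6 * θ ^ 6 := by
      calc 3 * F * Ep ^ 6 ≤ 3 * F * (64 * F * θ) ^ 6 := by gcongr
        _ = 3 * F * (64 * F) ^ 6 * θ ^ 6 := by ring
    linarith

/-- the lower side -/
lemma pure_dn (F θ f w am bm Em Dn : ℝ)
    (hF : 1 ≤ F) (hθ : 0 < θ) (hθ0 : θ * (10 ^ 5 * F ^ 3) ≤ 1) (hf1 : 1 ≤ f) (hfF : f ≤ F)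
    (hw0 : 0 ≤ w) (hw : w ≤ θ ^ 4 / 2)
    (ham0 : 0 ≤ am) (hbm0 : 0 ≤ bm) (hEm0 : 0 ≤ Em)
    (hDn0 : 0 ≤ Dn)
    (ham : am ≤ Em ^ 4) (hEm : Em ^ 4 ≤ am + bm)
    (ha : am ≤ 16 * F * θ) (hb : bm ≤ 16 * F * θ)
    (hD : Dn ≤ 4 * θ * Em ^ 3)
    (hD' : Dn ≤ w + 3 / 4 * (am + bm) + 4 * θ ^ 2 * Em ^ 3) :
    (1 - w) * ((1 - 3 / 4 * am) * (1 - 3 / 4 * bm)) + f * Dn + 3 * F * Em ^ 6 ≤ 1 +
      ((f - 1) * (4 * (64 * F) ^ 3 * θ ^ 4) + 3 * F * (64 * F) ^ 6 * θ ^ 6 +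
        (12 * F + 9 * F * (64 * F) ^ 4 + 4 * (64 * F) ^ 3) * θ ^ 5) := by
  have hF3 : 1 ≤ F ^ 3 := one_le_pow₀ hF
  have hF0 : 0 < F := by linarith
  have hθ1 : θ ≤ 1 / 10 ^ 5 := by nlinarith
  have hη1 : 16 * F * θ ≤ 1 / 1000 := by
    have : F ≤ F ^ 3 := by nlinarith [sq_nonneg (F - 1)]
    nlinarith
  have hw1 : w ≤ 1 / 16 := by
    have : θ ^ 4 ≤ 1 := pow_le_one₀ hθ.le (by linarith)
    have h2 : θ ^ 4 ≤ θ := by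
      calc θ ^ 4 = θ * θ ^ 3 := by ring
        _ ≤ θ * 1 := by gcongr; exact pow_le_one₀ hθ.le (by linarith)
        _ = θ := by ring
    linarith
  have hpos : 0 ≤ (f - 1) * (4 * (64 * F) ^ 3 * θ ^ 4) + 3 * F * (64 * F) ^ 6 * θ ^ 6 +
        (12 * F + 9 * F * (64 * F) ^ 4 + 4 * (64 * F) ^ 3) * θ ^ 5 := by
    have : 0 ≤ f - 1 := by linarith
    positivity
  rcases le_or_gt (64 * F * θ) Em with hP | hM
  · have h1 : f * Dn ≤ 1 / 16 * Em ^ 4 := by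
      calc f * Dn ≤ F * (4 * θ * Em ^ 3) := by gcongr
        _ = 1 / 16 * ((64 * F * θ) * Em ^ 3) := by ring
        _ ≤ 1 / 16 * (Em * Em ^ 3) := by gcongr
        _ = 1 / 16 * Em ^ 4 := by ring
    have h2 : 3 * F * Em ^ 6 ≤ 1 / 16 * Em ^ 4 := by
      have h3 : Em ^ 2 ≤ 1 / (48 * F) := by
        have h4 : (Em ^ 2) ^ 2 ≤ (1 / (48 * F)) ^ 2 := by
          rw [div_pow, le_div_iff₀ (by positivity)]
          have h5 : Em ^ 4 ≤ 32 * F * θ := by linarith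
          calc (Em ^ 2) ^ 2 * (48 * F) ^ 2 = Em ^ 4 * (2304 * F ^ 2) := by ring
            _ ≤ (32 * F * θ) * (2304 * F ^ 2) := by gcongr
            _ = θ * (73728 * F ^ 3) := by ring
            _ ≤ θ * (10 ^ 5 * F ^ 3) := by gcongr; norm_num
            _ ≤ 1 ^ 2 := by linarith
        exact (pow_le_pow_iff_left₀ (by positivity) (by positivity) (by norm_num)).1 h4
      calc 3 * F * Em ^ 6 = 3 * F * Em ^ 2 * Em ^ 4 := by ring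
        _ ≤ 3 * F * (1 / (48 * F)) * Em ^ 4 := by gcongr
        _ = 1 / 16 * Em ^ 4 := by field_simp; ring
    have h3 : (1 - w) * ((1 - 3 / 4 * am) * (1 - 3 / 4 * bm)) ≤
        1 - 1 / 2 * (am + bm) := by
      have h5 : (1 - 3 / 4 * am) * (1 - 3 / 4 * bm) ≤ 1 - 1 / 2 * (am + bm) := by nlinarith
      have h6 : 0 ≤ (1 - 3 / 4 * am) * (1 - 3 / 4 * bm) := by
        apply mul_nonneg <;> linarith
      have h7 := mul_nonneg hw0 h6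
      linarith
    generalize (f - 1) * (4 * (64 * F) ^ 3 * θ ^ 4) + 3 * F * (64 * F) ^ 6 * θ ^ 6 +
        (12 * F + 9 * F * (64 * F) ^ 4 + 4 * (64 * F) ^ 3) * θ ^ 5 = E1 at hpos ⊢
    linarith
  · have h1 : f * Dn ≤ Dn + (f - 1) * (4 * (64 * F) ^ 3 * θ ^ 4) := by
      have h2 : Dn ≤ 4 * (64 * F) ^ 3 * θ ^ 4 := by
        calc Dn ≤ 4 * θ * Em ^ 3 := hD
          _ ≤ 4 * θ * (64 * F * θ) ^ 3 := by gcongr
          _ = 4 * (64 * F) ^ 3 * θ ^ 4 := by ring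
      have h9 := mul_le_mul_of_nonneg_left h2 (show (0:ℝ) ≤ f - 1 by linarith)
      linarith
    have h3 : 3 * F * Em ^ 6 ≤ 3 * F * (64 * F) ^ 6 * θ ^ 6 := by
      calc 3 * F * Em ^ 6 ≤ 3 * F * (64 * F * θ) ^ 6 := by gcongr
        _ = 3 * F * (64 * F) ^ 6 * θ ^ 6 := by ring
    have h4 : 4 * θ ^ 2 * Em ^ 3 ≤ 4 * (64 * F) ^ 3 * θ ^ 5 := by
      calc 4 * θ ^ 2 * Em ^ 3 ≤ 4 * θ ^ 2 * (64 * F * θ) ^ 3 := by gcongr
        _ = 4 * (64 * F) ^ 3 * θ ^ 5 := by ring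
    have h5 : am * bm ≤ 16 * F * (64 * F) ^ 4 * θ ^ 5 := by
      calc am * bm ≤ Em ^ 4 * (16 * F * θ) := by gcongr
        _ ≤ (64 * F * θ) ^ 4 * (16 * F * θ) := by gcongr
        _ = 16 * F * (64 * F) ^ 4 * θ ^ 5 := by ring
    have h6 : w * (3 / 4 * (am + bm) - 9 / 16 * (am * bm)) ≤ 12 * F * θ ^ 5 := by
      calc w * (3 / 4 * (am + bm) - 9 / 16 * (am * bm)) ≤ w * (3 / 4 * (am + bm)) := by
            gcongr; nlinarith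
        _ ≤ (θ ^ 4 / 2) * (3 / 4 * (16 * F * θ + 16 * F * θ)) := by gcongr
        _ = 12 * F * θ ^ 5 := by ring
    have e : (1 - w) * ((1 - 3 / 4 * am) * (1 - 3 / 4 * bm)) =
      1 - w - 3 / 4 * (am + bm) + 9 / 16 * (am * bm) +
        w * (3 / 4 * (am + bm) - 9 / 16 * (am * bm)) := by ring
    rw [e]
    linarith

/-- the final bookkeeping inequality of the one-prime lemma -/
lemma pure_ineq (F θ f w am ap bm bp Em Ep skk Up Dn R : ℝ)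
    (hF : 1 ≤ F) (hθ : 0 < θ) (hθ0 : θ * (10 ^ 5 * F ^ 3) ≤ 1) (hf1 : 1 ≤ f) (hfF : f ≤ F)
    (hw0 : 0 ≤ w) (hw : w ≤ θ ^ 4 / 2)
    (ham0 : 0 ≤ am) (hap0 : 0 ≤ ap) (hbm0 : 0 ≤ bm) (hbp0 : 0 ≤ bp) (hEm0 : 0 ≤ Em) (hEp0 : 0 ≤ Ep)
    (hUp0 : 0 ≤ Up) (hDn0 : 0 ≤ Dn) (hR0 : 0 ≤ R)
    (ham : am ≤ Em ^ 4) (hEm : Em ^ 4 ≤ am + bm)
    (hEp : Ep ^ 4 ≤ ap + bp)
    (ha : am + ap ≤ 16 * F * θ) (hb : bm + bp ≤ 16 * F * θ)
    (hU : Up ≤ 4 * θ * Ep ^ 3) (hD : Dn ≤ 4 * θ * Em ^ 3)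
    (hD' : Dn ≤ w + 3 / 4 * (am + bm) + 4 * θ ^ 2 * Em ^ 3)
    (hR : R ≤ 3 * (Em ^ 6 + Ep ^ 6))
    (hK1 : skk ≤ (1 - w) * ((1 - 3 / 4 * (am + ap)) * (1 - 3 / 4 * (bm + bp))))
    (hK2 : skk + Up ≤ (1 - w) * ((1 - 3 / 4 * am) * (1 - 3 / 4 * bm))) :
    skk + f * (Up + Dn + R) ≤ 1 + 10 ^ 12 * F ^ 7 * (θ ^ 5 + (f - 1) * θ ^ 4) := by
  have h1 := pure_up F θ f w am ap bm bp Ep skk Up hF hθ hθ0 hf1 hfF hw0 hw ham0 hap0 hbm0 hbp0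
    hEp0 hUp0 hEp ha hb hU hK1 hK2
  have h2 := pure_dn F θ f w am bm Em Dn hF hθ hθ0 hf1 hfF hw0 hw ham0 hbm0
    hEm0 hDn0 ham hEm (by linarith) (by linarith) hD hD'
  have h3 : f * R ≤ 3 * F * Em ^ 6 + 3 * F * Ep ^ 6 := by
    calc f * R ≤ F * (3 * (Em ^ 6 + Ep ^ 6)) := by gcongr
      _ = _ := by ring
  have hF3 : 1 ≤ F ^ 3 := one_le_pow₀ hF
  have hF0 : 0 < F := by linarith
  have hθ1 : θ ≤ 1 := by nlinarith
  have h4 : θ ^ 6 ≤ θ ^ 5 := pow_le_pow_of_le_one hθ.le hθ1 (by norm_num)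
  have hf0 : 0 ≤ f - 1 := by linarith
  have e1 : (64 * F) ^ 3 = 262144 * F ^ 3 := by ring
  have e2 : (64 * F) ^ 4 = 16777216 * F ^ 4 := by ring
  have e3 : (64 * F) ^ 6 = 68719476736 * F ^ 6 := by ring
  have p1 : F ≤ F ^ 7 := by
    calc F = F ^ 1 := by ring
      _ ≤ F ^ 7 := pow_le_pow_right₀ hF (by norm_num)
  have p3 : F ^ 3 ≤ F ^ 7 := pow_le_pow_right₀ hF (by norm_num)
  have p5 : F ^ 5 ≤ F ^ 7 := pow_le_pow_right₀ hF (by norm_num)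
  have g1 : (f - 1) * (4 * (64 * F) ^ 3 * θ ^ 4) ≤ (f - 1) * (4 * (262144 * F ^ 7) * θ ^ 4) := by
    rw [e1]; gcongr
  have g2 : 3 * F * (64 * F) ^ 6 * θ ^ 6 ≤ 3 * (68719476736 * F ^ 7) * θ ^ 5 := by
    rw [e3]
    calc 3 * F * (68719476736 * F ^ 6) * θ ^ 6 = 3 * (68719476736 * F ^ 7) * θ ^ 6 := by ring
      _ ≤ _ := by gcongr
  have g3 : (12 * F + 9 * F * (64 * F) ^ 4 + 4 * (64 * F) ^ 3) * θ ^ 5 ≤
      ((12 + 9 * 16777216 + 4 * 262144) * F ^ 7) * θ ^ 5 := by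
    rw [e1, e2]
    gcongr
    nlinarith
  have g4 : 0 ≤ F ^ 7 * θ ^ 5 := by positivity
  have g5 : 0 ≤ F ^ 7 * ((f - 1) * θ ^ 4) := by positivity
  have g6 : (f - 1) * (4 * (262144 * F ^ 7) * θ ^ 4) = 1048576 * (F ^ 7 * ((f - 1) * θ ^ 4)) := by
    ring
  have g7 : 3 * (68719476736 * F ^ 7) * θ ^ 5 = 206158430208 * (F ^ 7 * θ ^ 5) := by ring
  have g8 : ((12 + 9 * 16777216 + 4 * 262144) * F ^ 7) * θ ^ 5 = 152043532 * (F ^ 7 * θ ^ 5) := by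
    ring
  have g9 : 10 ^ 12 * F ^ 7 * (θ ^ 5 + (f - 1) * θ ^ 4) =
    10 ^ 12 * (F ^ 7 * θ ^ 5) + 10 ^ 12 * (F ^ 7 * ((f - 1) * θ ^ 4)) := by ring
  rw [g6] at g1
  rw [g7] at g2
  rw [g8] at g3
  rw [g9]
  have g10 : f * (Up + Dn + R) = f * Up + f * Dn + f * R := by ring
  rw [g10]
  generalize F ^ 7 * θ ^ 5 = M1 at *
  generalize F ^ 7 * ((f - 1) * θ ^ 4) = M2 at *
  generalize (f - 1) * (4 * (64 * F) ^ 3 * θ ^ 4) = M3 at *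
  generalize 3 * F * (64 * F) ^ 6 * θ ^ 6 = M4 at *
  generalize (12 * F + 9 * F * (64 * F) ^ 4 + 4 * (64 * F) ^ 3) * θ ^ 5 = M5 at *
  generalize (1 - w) * ((1 - 3 / 4 * am) * (1 - 3 / 4 * bm)) = M6 at *
  linarith

end Pool.Agent.K7.H64.DS
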