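import Mathlib
import Pool.Agent.K7.H64.DS.Pure

set_option autoImplicit false
set_option maxHeartbeats 1000000

/-!
# The one-prime lemma
-/

namespace Pool.Agent.K7.H64.DS

open Finset

lemma geom_le_two (θ : ℝ) (h0 : 0 ≤ θ) (h1 : θ ≤ 1 / 2) (n : ℕ) :
    ∑ i ∈ range n, θ ^ i ≤ 2 := by
  have h := geom_sum_mul_neg θ n
  have h2 : 0 ≤ θ ^ n := pow_nonneg h0 n
  have h3 : 0 ≤ ∑ i ∈ range n, θ ^ i := sum_nonneg fun i _ => pow_nonneg h0 i
  nlinarith

lemma geo_up (θ : ℝ) (h0 : 0 ≤ θ) (h1 : θ ≤ 1 / 2) (k N : ℕ) :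
    ∑ j ∈ Ico (k + 1) N, θ ^ (j - k) ≤ 2 * θ := by
  rw [sum_Ico_eq_sum_range]
  have h : ∀ i ∈ range (N - (k + 1)), θ ^ (k + 1 + i - k) = θ * θ ^ i := by
    intro i _
    rw [show k + 1 + i - k = i + 1 by omega]; ring
  rw [sum_congr rfl h, ← mul_sum]
  have := geom_le_two θ h0 h1 (N - (k + 1))
  nlinarith

lemma geo_down (θ : ℝ) (h0 : 0 ≤ θ) (h1 : θ ≤ 1 / 2) (k : ℕ) :
    ∑ j ∈ range k, θ ^ (k - j) ≤ 2 * θ := by
  have h : ∑ j ∈ range k, θ ^ (k - j) = ∑ j ∈ range k, θ * θ ^ j := by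
    rw [← sum_range_reflect]
    refine sum_congr rfl fun j hj => ?_
    rw [mem_range] at hj
    rw [show k - (k - 1 - j) = j + 1 by omega]; ring
  rw [h, ← mul_sum]
  have := geom_le_two θ h0 h1 k
  nlinarith

/-- off-diagonal row sums -/
lemma row_off (θ : ℝ) (h0 : 0 ≤ θ) (h1 : θ ≤ 1 / 2) (N i : ℕ) (hi : i < N) :
    ∑ j ∈ (range N).erase i, θ ^ ((i - j) + (j - i)) ≤ 4 * θ := by
  have hsplit : (range N).erase i = range i ∪ Ico (i + 1) N := by
    ext j; simp only [mem_erase, mem_range, mem_union, mem_Ico]; omega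
  have hdis : Disjoint (range i) (Ico (i + 1) N) := by
    rw [disjoint_left]; intro j; simp only [mem_range, mem_Ico]; omega
  rw [hsplit, sum_union hdis]
  have e1 : ∑ j ∈ range i, θ ^ ((i - j) + (j - i)) = ∑ j ∈ range i, θ ^ (i - j) := by
    refine sum_congr rfl fun j hj => ?_
    rw [mem_range] at hj
    rw [show (i - j) + (j - i) = i - j by omega]
  have e2 : ∑ j ∈ Ico (i + 1) N, θ ^ ((i - j) + (j - i)) = ∑ j ∈ Ico (i + 1) N, θ ^ (j - i) := by
    refine sum_congr rfl fun j hj => ?_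
    rw [mem_Ico] at hj
    rw [show (i - j) + (j - i) = j - i by omega]
  rw [e1, e2]
  have := geo_up θ h0 h1 i N
  have := geo_down θ h0 h1 i
  linarith

lemma row_all (θ : ℝ) (h0 : 0 ≤ θ) (h1 : θ ≤ 1 / 2) (N i : ℕ) (hi : i < N) :
    ∑ j ∈ range N, θ ^ ((i - j) + (j - i)) ≤ 3 := by
  rw [← add_sum_erase _ _ (mem_range.2 hi)]
  have := row_off θ h0 h1 N i hi
  simp only [Nat.sub_self, add_zero, pow_zero]
  linarith

lemma amgm33 (a b : ℝ) : a ^ 3 * b ^ 3 ≤ (a ^ 6 + b ^ 6) / 2 := by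
  nlinarith [sq_nonneg (a ^ 3 - b ^ 3)]

lemma young34 (θ a : ℝ) (hθ : 0 ≤ θ) (ha : 0 ≤ a) : θ * a ^ 3 ≤ (θ ^ 4 + 3 * a ^ 4) / 4 := by
  have key : 0 ≤ (θ - a) ^ 2 * (θ ^ 2 + 2 * θ * a + 3 * a ^ 2) := by positivity
  nlinarith [key]

lemma cube_le (x a : ℝ) (hx : 0 ≤ x) (h : x ^ 4 = 1 - a) : x ^ 3 ≤ 1 - 3 / 4 * a := by
  have := young34 1 x (by norm_num) hx
  nlinarith

/-- sum of sixth powers -/
lemma six_le (S : Finset ℕ) (x : ℕ → ℝ) (hx : ∀ i, 0 ≤ x i) (E a : ℝ) (hE : 0 ≤ E)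
    (h : ∑ i ∈ S, x i ^ 4 = a) (ha : a ≤ E ^ 4) : ∑ i ∈ S, x i ^ 6 ≤ E ^ 6 := by
  have hxi : ∀ i ∈ S, x i ≤ E := by
    intro i hi
    have h1 : x i ^ 4 ≤ E ^ 4 := by
      refine le_trans ?_ (h ▸ ha)
      exact single_le_sum (f := fun i => x i ^ 4) (fun j _ => pow_nonneg (hx j) 4) hi
    exact (pow_le_pow_iff_left₀ (hx i) hE (by norm_num)).1 h1
  calc ∑ i ∈ S, x i ^ 6 ≤ ∑ i ∈ S, E ^ 2 * x i ^ 4 := by
        refine sum_le_sum fun i hi => ?_
        calc x i ^ 6 = x i ^ 2 * x i ^ 4 := by ring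
          _ ≤ E ^ 2 * x i ^ 4 := by
            have := hxi i hi; have := hx i
            gcongr
    _ = E ^ 2 * a := by rw [← mul_sum, h]
    _ ≤ E ^ 2 * E ^ 4 := by gcongr
    _ = E ^ 6 := by ring

lemma le_root (S : Finset ℕ) (x : ℕ → ℝ) (hx : ∀ i, 0 ≤ x i) (E a : ℝ) (hE : 0 ≤ E)
    (h : ∑ i ∈ S, x i ^ 4 = a) (ha : a ≤ E ^ 4) : ∀ i ∈ S, x i ≤ E := by
  intro i hi
  have h1 : x i ^ 4 ≤ E ^ 4 := by
    refine le_trans ?_ (h ▸ ha)
    exact single_le_sum (f := fun i => x i ^ 4) (fun j _ => pow_nonneg (hx j) 4) hi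
  exact (pow_le_pow_iff_left₀ (hx i) hE (by norm_num)).1 h1

lemma exists_root (a : ℝ) (ha : 0 ≤ a) : ∃ E : ℝ, 0 ≤ E ∧ E ^ 4 = a := by
  refine ⟨Real.sqrt (Real.sqrt a), Real.sqrt_nonneg _, ?_⟩
  calc Real.sqrt (Real.sqrt a) ^ 4 = (Real.sqrt (Real.sqrt a) ^ 2) ^ 2 := by ring
    _ = a := by rw [Real.sq_sqrt (Real.sqrt_nonneg _), Real.sq_sqrt ha]

/-- the spread-out case -/
lemma local_spread (F : ℝ) (hF : 1 ≤ F) (θ f : ℝ) (hθ : 0 < θ) (hθ0 : θ * (10 ^ 5 * F ^ 3) ≤ 1)
    (hf1 : 1 ≤ f) (hfF : f ≤ F) (N : ℕ) (x y : ℕ → ℝ) (hx : ∀ i, 0 ≤ x i) (hy : ∀ i, 0 ≤ y i)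
    (hxs : ∑ i ∈ range N, x i ^ 4 = 1) (hys : ∑ i ∈ range N, y i ^ 4 = 1)
    (s : ℕ → ℕ → ℝ) (hs : ∀ i j, 0 ≤ s i j)
    (h1 : ∀ i < N, ∀ j < N, s i j ≤ θ ^ ((i - j) + (j - i)) * (x i ^ 3 * y j ^ 3))
    (hsp : ∀ k < N, x k ^ 4 * y k ^ 4 ≤ 1 - 16 * F * θ) :
    ∑ i ∈ range N, ∑ j ∈ range N, (if i = j then s i j else f * s i j) ≤ 1 := by
  have hF3 : 1 ≤ F ^ 3 := one_le_pow₀ hF
  have hF0 : 0 < F := by linarith
  have hθ1 : θ ≤ 1 / 10 ^ 5 := by nlinarith
  have hη1 : 16 * F * θ ≤ 1 / 1000 := by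
    have : F ≤ F ^ 3 := by nlinarith [sq_nonneg (F - 1)]
    nlinarith
  have hθ2 : θ ≤ 1 / 2 := by linarith
  have hx1 : ∀ i ∈ range N, x i ≤ 1 :=
    le_root (range N) x hx 1 1 (by norm_num) hxs (by norm_num)
  have hy1 : ∀ i ∈ range N, y i ≤ 1 :=
    le_root (range N) y hy 1 1 (by norm_num) hys (by norm_num)
  -- split into the diagonal and the rest
  have hsplit : ∀ i ∈ range N, ∑ j ∈ range N, (if i = j then s i j else f * s i j) =
      s i i + ∑ j ∈ (range N).erase i, f * s i j := by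
    intro i hi
    rw [← add_sum_erase _ _ hi]
    congr 1
    · simp
    · refine sum_congr rfl fun j hj => ?_
      rw [if_neg (ne_of_mem_erase hj).symm]
  rw [sum_congr rfl hsplit, sum_add_distrib]
  -- diagonal
  have hdiag : ∑ i ∈ range N, s i i ≤ 1 - 4 * F * θ := by
    have hxy : ∀ i ∈ range N, x i * y i ≤ 1 - 4 * F * θ := by
      intro i hi
      have h2 : (x i * y i) ^ 4 ≤ (1 - 4 * F * θ) ^ 4 := by
        rw [mul_pow]
        refine (hsp i (mem_range.1 hi)).trans ?_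
        have := one_add_mul_le_pow (a := -(4 * F * θ)) (by nlinarith) 4
        have e : 1 + ((4 : ℕ) : ℝ) * -(4 * F * θ) = 1 - 16 * F * θ := by push_cast; ring
        rw [e] at this
        rw [show 1 + -(4 * F * θ) = 1 - 4 * F * θ by ring] at this
        exact this
      exact (pow_le_pow_iff_left₀ (mul_nonneg (hx i) (hy i)) (by linarith) (by norm_num)).1 h2
    calc ∑ i ∈ range N, s i i ≤ ∑ i ∈ range N, (1 - 4 * F * θ) * ((x i ^ 4 + y i ^ 4) / 2) := by
          refine sum_le_sum fun i hi => ?_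
          have h3 := h1 i (mem_range.1 hi) i (mem_range.1 hi)
          simp only [Nat.sub_self, add_zero, pow_zero, one_mul] at h3
          refine h3.trans ?_
          have h4 := hxy i hi
          have h5 : 0 ≤ x i * y i := mul_nonneg (hx i) (hy i)
          calc x i ^ 3 * y i ^ 3 = (x i * y i) * (x i ^ 2 * y i ^ 2) := by ring
            _ ≤ (1 - 4 * F * θ) * (x i ^ 2 * y i ^ 2) := by gcongr
            _ ≤ (1 - 4 * F * θ) * ((x i ^ 4 + y i ^ 4) / 2) := by
              have : 0 ≤ 1 - 4 * F * θ := by linarith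
              have h6 : x i ^ 2 * y i ^ 2 ≤ (x i ^ 4 + y i ^ 4) / 2 := by
                nlinarith [sq_nonneg (x i ^ 2 - y i ^ 2)]
              gcongr
      _ = 1 - 4 * F * θ := by
          rw [← mul_sum, ← sum_div, sum_add_distrib, hxs, hys]; ring
  -- off-diagonal
  have hoff : ∑ i ∈ range N, ∑ j ∈ (range N).erase i, f * s i j ≤ 4 * F * θ := by
    have hxs6 : ∑ i ∈ range N, x i ^ 6 ≤ 1 := by
      have := six_le (range N) x hx 1 1 (by norm_num) hxs (by norm_num)
      simpa using this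
    have hys6 : ∑ i ∈ range N, y i ^ 6 ≤ 1 := by
      have := six_le (range N) y hy 1 1 (by norm_num) hys (by norm_num)
      simpa using this
    have hb : ∀ i ∈ range N, ∀ j ∈ (range N).erase i, f * s i j ≤
        F / 2 * (θ ^ ((i - j) + (j - i)) * x i ^ 6) + F / 2 * (θ ^ ((i - j) + (j - i)) * y j ^ 6) := by
      intro i hi j hj
      have h3 := h1 i (mem_range.1 hi) j (mem_range.1 (mem_of_mem_erase hj))
      have h4 := amgm33 (x i) (y j)
      have h5 : 0 ≤ θ ^ ((i - j) + (j - i)) := pow_nonneg hθ.le _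
      calc f * s i j ≤ F * (θ ^ ((i - j) + (j - i)) * (x i ^ 3 * y j ^ 3)) := by
            have := hs i j
            gcongr
        _ ≤ F * (θ ^ ((i - j) + (j - i)) * ((x i ^ 6 + y j ^ 6) / 2)) := by gcongr
        _ = _ := by ring
    calc ∑ i ∈ range N, ∑ j ∈ (range N).erase i, f * s i j
        ≤ ∑ i ∈ range N, ∑ j ∈ (range N).erase i,
          (F / 2 * (θ ^ ((i - j) + (j - i)) * x i ^ 6) +
            F / 2 * (θ ^ ((i - j) + (j - i)) * y j ^ 6)) :=
          sum_le_sum fun i hi => sum_le_sum fun j hj => hb i hi j hj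
      _ = ∑ i ∈ range N, ∑ j ∈ (range N).erase i, F / 2 * (θ ^ ((i - j) + (j - i)) * x i ^ 6) +
          ∑ j ∈ range N, ∑ i ∈ (range N).erase j, F / 2 * (θ ^ ((i - j) + (j - i)) * y j ^ 6) := by
          simp only [sum_add_distrib]
          congr 1
          refine sum_comm' ?_
          intro i j
          simp only [mem_range, mem_erase]
          constructor
          · rintro ⟨h, h', h''⟩; exact ⟨⟨fun e => h' e.symm, h⟩, h''⟩
          · rintro ⟨⟨h, h'⟩, h''⟩; exact ⟨h', fun e => h e.symm, h''⟩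
      _ ≤ ∑ i ∈ range N, F / 2 * (4 * θ * x i ^ 6) + ∑ j ∈ range N, F / 2 * (4 * θ * y j ^ 6) := by
          gcongr with i hi j hj
          · rw [← mul_sum, ← sum_mul]
            have := row_off θ hθ.le hθ2 N i (mem_range.1 hi)
            have := hx i
            gcongr
          · rw [← mul_sum, ← sum_mul]
            have := row_off θ hθ.le hθ2 N j (mem_range.1 hj)
            have h6 : ∑ i ∈ (range N).erase j, θ ^ ((i - j) + (j - i)) ≤ 4 * θ := by
              refine le_trans (le_of_eq ?_) this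
              refine sum_congr rfl fun i _ => ?_
              rw [add_comm]
            have := hy j
            gcongr
      _ = F / 2 * (4 * θ * ∑ i ∈ range N, x i ^ 6) + F / 2 * (4 * θ * ∑ i ∈ range N, y i ^ 6) := by
          simp only [mul_sum]
      _ ≤ F / 2 * (4 * θ * 1) + F / 2 * (4 * θ * 1) := by gcongr
      _ = 4 * F * θ := by ring
  linarith

/-- **The one-prime lemma.** -/
theorem local_lemma (F : ℝ) (hF : 1 ≤ F) (θ f : ℝ) (hθ : 0 < θ) (hθ0 : θ * (10 ^ 5 * F ^ 3) ≤ 1)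
    (hf1 : 1 ≤ f) (hfF : f ≤ F) (N : ℕ) (x y : ℕ → ℝ) (hx : ∀ i, 0 ≤ x i) (hy : ∀ i, 0 ≤ y i)
    (hxs : ∑ i ∈ range N, x i ^ 4 = 1) (hys : ∑ i ∈ range N, y i ^ 4 = 1)
    (s : ℕ → ℕ → ℝ) (hs : ∀ i j, 0 ≤ s i j)
    (h1 : ∀ i < N, ∀ j < N, s i j ≤ θ ^ ((i - j) + (j - i)) * (x i ^ 3 * y j ^ 3))
    (h1' : ∀ i < N, 1 ≤ i → s i i ≤ (1 - θ ^ 4 / 2) * (x i ^ 3 * y i ^ 3))
    (h2 : ∀ k < N, ∀ A B : ℝ, 0 ≤ A → 0 ≤ B → A ^ 4 = ∑ i ∈ Ico k N, x i ^ 4 →
      B ^ 4 = ∑ i ∈ Ico k N, y i ^ 4 →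
      s k k + ∑ j ∈ Ico (k + 1) N, (s k j + s j k) ≤
        (if k = 0 then 1 else 1 - θ ^ 4 / 2) * (A ^ 3 * B ^ 3)) :
    ∑ i ∈ range N, ∑ j ∈ range N, (if i = j then s i j else f * s i j) ≤
      1 + 10 ^ 12 * F ^ 7 * (θ ^ 5 + (f - 1) * θ ^ 4) := by
  have hF3 : 1 ≤ F ^ 3 := one_le_pow₀ hF
  have hF0 : 0 < F := by linarith
  have hθ1 : θ ≤ 1 / 10 ^ 5 := by nlinarith
  have hη1 : 16 * F * θ ≤ 1 / 1000 := by
    have : F ≤ F ^ 3 := by nlinarith [sq_nonneg (F - 1)]
    nlinarith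
  have hθ2 : θ ≤ 1 / 2 := by linarith
  have hf0 : 0 ≤ f - 1 := by linarith
  have hrhs : 0 ≤ 10 ^ 12 * F ^ 7 * (θ ^ 5 + (f - 1) * θ ^ 4) := by positivity
  by_cases hsp : ∀ k < N, x k ^ 4 * y k ^ 4 ≤ 1 - 16 * F * θ
  · have := local_spread F hF θ f hθ hθ0 hf1 hfF N x y hx hy hxs hys s hs h1 hsp
    linarith
  push Not at hsp
  obtain ⟨k, hkN, hk⟩ := hsp
  have hkR : k ∈ range N := mem_range.2 hkN
  -- splitting a sum over range N
  have split : ∀ g : ℕ → ℝ, ∑ i ∈ range N, g i = ∑ i ∈ range k, g i + g k +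
      ∑ i ∈ Ico (k + 1) N, g i := by
    intro g
    rw [← sum_range_succ, ← sum_range_add_sum_Ico g (show k + 1 ≤ N by omega)]
  have splitE : ∀ g : ℕ → ℝ, ∑ i ∈ (range N).erase k, g i = ∑ i ∈ range k, g i +
      ∑ i ∈ Ico (k + 1) N, g i := by
    intro g
    have h3 := add_sum_erase (range N) g hkR
    have h4 := split g
    linarith
  set am := ∑ i ∈ range k, x i ^ 4 with ham
  set ap := ∑ i ∈ Ico (k + 1) N, x i ^ 4 with hap
  set bm := ∑ i ∈ range k, y i ^ 4 with hbm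
  set bp := ∑ i ∈ Ico (k + 1) N, y i ^ 4 with hbp
  have ham0 : 0 ≤ am := sum_nonneg fun i _ => pow_nonneg (hx i) 4
  have hap0 : 0 ≤ ap := sum_nonneg fun i _ => pow_nonneg (hx i) 4
  have hbm0 : 0 ≤ bm := sum_nonneg fun i _ => pow_nonneg (hy i) 4
  have hbp0 : 0 ≤ bp := sum_nonneg fun i _ => pow_nonneg (hy i) 4
  have hxk : x k ^ 4 = 1 - (am + ap) := by
    have := split (fun i => x i ^ 4)
    rw [hxs] at this
    rw [← ham, ← hap] at this
    linarith
  have hyk : y k ^ 4 = 1 - (bm + bp) := by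
    have := split (fun i => y i ^ 4)
    rw [hys] at this
    rw [← hbm, ← hbp] at this
    linarith
  have hxk0 : 0 ≤ x k ^ 4 := pow_nonneg (hx k) 4
  have hyk0 : 0 ≤ y k ^ 4 := pow_nonneg (hy k) 4
  have ha : am + ap ≤ 16 * F * θ := by nlinarith
  have hb : bm + bp ≤ 16 * F * θ := by nlinarith
  obtain ⟨Em, hEm0, hEm⟩ := exists_root (max am bm) (le_max_of_le_left ham0)
  obtain ⟨Ep, hEp0, hEp⟩ := exists_root (max ap bp) (le_max_of_le_left hap0)
  have hamE : am ≤ Em ^ 4 := hEm ▸ le_max_left _ _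
  have hbmE : bm ≤ Em ^ 4 := hEm ▸ le_max_right _ _
  have hapE : ap ≤ Ep ^ 4 := hEp ▸ le_max_left _ _
  have hbpE : bp ≤ Ep ^ 4 := hEp ▸ le_max_right _ _
  have hEmle : Em ^ 4 ≤ am + bm := by
    rw [hEm]; exact max_le (by linarith) (by linarith)
  have hEple : Ep ^ 4 ≤ ap + bp := by
    rw [hEp]; exact max_le (by linarith) (by linarith)
  have xm := le_root (range k) x hx Em am hEm0 rfl hamE
  have ym := le_root (range k) y hy Em bm hEm0 rfl hbmE
  have xp := le_root (Ico (k + 1) N) x hx Ep ap hEp0 rfl hapE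
  have yp := le_root (Ico (k + 1) N) y hy Ep bp hEp0 rfl hbpE
  have hx1 : x k ≤ 1 := le_root (range N) x hx 1 1 (by norm_num) hxs (by norm_num) k hkR
  have hy1 : y k ≤ 1 := le_root (range N) y hy 1 1 (by norm_num) hys (by norm_num) k hkR
  have hx13 : x k ^ 3 ≤ 1 := pow_le_one₀ (hx k) hx1
  have hy13 : y k ^ 3 ≤ 1 := pow_le_one₀ (hy k) hy1
  have hxk3 : 0 ≤ x k ^ 3 := pow_nonneg (hx k) 3
  have hyk3 : 0 ≤ y k ^ 3 := pow_nonneg (hy k) 3
  set Up := ∑ j ∈ Ico (k + 1) N, (s k j + s j k) with hUp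
  set Dn := ∑ j ∈ range k, (s k j + s j k) with hDn
  set R := ∑ i ∈ (range N).erase k, ∑ j ∈ (range N).erase k, s i j with hR
  have hUp0 : 0 ≤ Up := sum_nonneg fun j _ => add_nonneg (hs _ _) (hs _ _)
  have hDn0 : 0 ≤ Dn := sum_nonneg fun j _ => add_nonneg (hs _ _) (hs _ _)
  have hR0 : 0 ≤ R := sum_nonneg fun i _ => sum_nonneg fun j _ => hs _ _
  -- the total
  have htot : ∑ i ∈ range N, ∑ j ∈ range N, (if i = j then s i j else f * s i j) ≤
      s k k + f * (Up + Dn + R) := by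
    have hrow : ∀ i ∈ (range N).erase k, ∑ j ∈ range N, (if i = j then s i j else f * s i j) ≤
        f * s i k + ∑ j ∈ (range N).erase k, f * s i j := by
      intro i hi
      rw [← add_sum_erase (range N) _ hkR]
      have hik : i ≠ k := ne_of_mem_erase hi
      rw [if_neg hik]
      gcongr with j hj
      split_ifs
      · have := hs i j; nlinarith
      · exact le_rfl
    have hk0 : ∑ j ∈ range N, (if k = j then s k j else f * s k j) =
        s k k + ∑ j ∈ (range N).erase k, f * s k j := by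
      rw [← add_sum_erase (range N) _ hkR, if_pos rfl]
      congr 1
      refine sum_congr rfl fun j hj => ?_
      rw [if_neg (ne_of_mem_erase hj).symm]
    rw [← add_sum_erase (range N) _ hkR, hk0]
    have h3 := sum_le_sum hrow
    rw [sum_add_distrib] at h3
    have h4 : Up + Dn = ∑ j ∈ (range N).erase k, s k j + ∑ j ∈ (range N).erase k, s j k := by
      rw [splitE, splitE, hUp, hDn, sum_add_distrib, sum_add_distrib]; ring
    have h5 : ∑ i ∈ (range N).erase k, ∑ j ∈ (range N).erase k, f * s i j = f * R := by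
      rw [hR, mul_sum]; simp only [mul_sum]
    have h6 : ∑ j ∈ (range N).erase k, f * s k j = f * ∑ j ∈ (range N).erase k, s k j := by
      rw [mul_sum]
    have h7 : ∑ j ∈ (range N).erase k, f * s j k = f * ∑ j ∈ (range N).erase k, s j k := by
      rw [mul_sum]
    rw [h5, h7] at h3
    rw [h6, h4]
    nlinarith [h3]
  refine htot.trans ?_
  -- Up
  have hU : Up ≤ 4 * θ * Ep ^ 3 := by
    calc Up ≤ ∑ j ∈ Ico (k + 1) N, θ ^ (j - k) * (2 * Ep ^ 3) := by
          refine sum_le_sum fun j hj => ?_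
          have hj' := mem_Ico.1 hj
          have e1 := h1 k hkN j hj'.2
          have e2 := h1 j hj'.2 k hkN
          rw [show (k - j) + (j - k) = j - k by omega] at e1
          rw [show (j - k) + (k - j) = j - k by omega] at e2
          have q1 : x k ^ 3 * y j ^ 3 ≤ Ep ^ 3 := by
            calc x k ^ 3 * y j ^ 3 ≤ 1 * Ep ^ 3 := by
                  have := yp j hj; have := hy j; gcongr
              _ = Ep ^ 3 := one_mul _
          have q2 : x j ^ 3 * y k ^ 3 ≤ Ep ^ 3 := by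
            calc x j ^ 3 * y k ^ 3 ≤ Ep ^ 3 * 1 := by
                  have := xp j hj; have := hx j; gcongr
              _ = Ep ^ 3 := mul_one _
          have q0 : 0 ≤ θ ^ (j - k) := pow_nonneg hθ.le _
          nlinarith [mul_le_mul_of_nonneg_left q1 q0, mul_le_mul_of_nonneg_left q2 q0]
      _ = (∑ j ∈ Ico (k + 1) N, θ ^ (j - k)) * (2 * Ep ^ 3) := by rw [sum_mul]
      _ ≤ (2 * θ) * (2 * Ep ^ 3) := by
          have := geo_up θ hθ.le hθ2 k N
          gcongr
      _ = _ := by ring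
  have hD : Dn ≤ 4 * θ * Em ^ 3 := by
    calc Dn ≤ ∑ j ∈ range k, θ ^ (k - j) * (2 * Em ^ 3) := by
          refine sum_le_sum fun j hj => ?_
          have hj' := mem_range.1 hj
          have e1 := h1 k hkN j (by omega)
          have e2 := h1 j (by omega) k hkN
          rw [show (k - j) + (j - k) = k - j by omega] at e1
          rw [show (j - k) + (k - j) = k - j by omega] at e2
          have q1 : x k ^ 3 * y j ^ 3 ≤ Em ^ 3 := by
            calc x k ^ 3 * y j ^ 3 ≤ 1 * Em ^ 3 := by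
                  have := ym j hj; have := hy j; gcongr
              _ = Em ^ 3 := one_mul _
          have q2 : x j ^ 3 * y k ^ 3 ≤ Em ^ 3 := by
            calc x j ^ 3 * y k ^ 3 ≤ Em ^ 3 * 1 := by
                  have := xm j hj; have := hx j; gcongr
              _ = Em ^ 3 := mul_one _
          have q0 : 0 ≤ θ ^ (k - j) := pow_nonneg hθ.le _
          nlinarith [mul_le_mul_of_nonneg_left q1 q0, mul_le_mul_of_nonneg_left q2 q0]
      _ = (∑ j ∈ range k, θ ^ (k - j)) * (2 * Em ^ 3) := by rw [sum_mul]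
      _ ≤ (2 * θ) * (2 * Em ^ 3) := by
          have := geo_down θ hθ.le hθ2 k
          gcongr
      _ = _ := by ring
  have hRle : R ≤ 3 * (Em ^ 6 + Ep ^ 6) := by
    have hx6 : ∑ i ∈ (range N).erase k, x i ^ 6 ≤ Em ^ 6 + Ep ^ 6 := by
      rw [splitE (fun i => x i ^ 6)]
      exact add_le_add (six_le _ x hx Em am hEm0 rfl hamE) (six_le _ x hx Ep ap hEp0 rfl hapE)
    have hy6 : ∑ i ∈ (range N).erase k, y i ^ 6 ≤ Em ^ 6 + Ep ^ 6 := by
      rw [splitE (fun i => y i ^ 6)]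
      exact add_le_add (six_le _ y hy Em bm hEm0 rfl hbmE) (six_le _ y hy Ep bp hEp0 rfl hbpE)
    have hrow' : ∀ i ∈ (range N).erase k, ∑ j ∈ (range N).erase k, θ ^ ((i - j) + (j - i)) ≤ 3 := by
      intro i hi
      refine le_trans (sum_le_sum_of_subset_of_nonneg (erase_subset _ _)
        fun _ _ _ => pow_nonneg hθ.le _) (row_all θ hθ.le hθ2 N i (mem_range.1 (mem_of_mem_erase hi)))
    calc R ≤ ∑ i ∈ (range N).erase k, ∑ j ∈ (range N).erase k,
          (1 / 2 * (θ ^ ((i - j) + (j - i)) * x i ^ 6) +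
            1 / 2 * (θ ^ ((i - j) + (j - i)) * y j ^ 6)) := by
          refine sum_le_sum fun i hi => sum_le_sum fun j hj => ?_
          have h3 := h1 i (mem_range.1 (mem_of_mem_erase hi)) j (mem_range.1 (mem_of_mem_erase hj))
          have h4 := amgm33 (x i) (y j)
          have h5 : 0 ≤ θ ^ ((i - j) + (j - i)) := pow_nonneg hθ.le _
          nlinarith [mul_le_mul_of_nonneg_left h4 h5]
      _ = ∑ i ∈ (range N).erase k, ∑ j ∈ (range N).erase k,
            1 / 2 * (θ ^ ((i - j) + (j - i)) * x i ^ 6) +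
          ∑ j ∈ (range N).erase k, ∑ i ∈ (range N).erase k,
            1 / 2 * (θ ^ ((i - j) + (j - i)) * y j ^ 6) := by
          simp only [sum_add_distrib]
          congr 1
          exact sum_comm
      _ ≤ ∑ i ∈ (range N).erase k, 1 / 2 * (3 * x i ^ 6) +
          ∑ j ∈ (range N).erase k, 1 / 2 * (3 * y j ^ 6) := by
          gcongr with i hi j hj
          · rw [← mul_sum, ← sum_mul]
            have := hrow' i hi
            have := hx i
            gcongr
          · rw [← mul_sum, ← sum_mul]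
            have := hrow' j hj
            have h6 : ∑ i ∈ (range N).erase k, θ ^ ((i - j) + (j - i)) ≤ 3 := by
              refine le_trans (le_of_eq ?_) this
              refine sum_congr rfl fun i _ => ?_
              rw [add_comm]
            have := hy j
            gcongr
      _ = 3 / 2 * ∑ i ∈ (range N).erase k, x i ^ 6 + 3 / 2 * ∑ j ∈ (range N).erase k, y j ^ 6 := by
          rw [mul_sum, mul_sum]
          congr 1 <;> refine sum_congr rfl fun i _ => by ring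
      _ ≤ _ := by linarith
  -- w
  set w : ℝ := if k = 0 then 0 else θ ^ 4 / 2 with hw
  have hθ4 : 0 ≤ θ ^ 4 := pow_nonneg hθ.le 4
  have hw0 : 0 ≤ w := by rw [hw]; split_ifs <;> linarith
  have hwle : w ≤ θ ^ 4 / 2 := by rw [hw]; split_ifs <;> linarith
  have hw1 : (if k = 0 then (1 : ℝ) else 1 - θ ^ 4 / 2) = 1 - w := by
    rw [hw]; split_ifs <;> ring
  have hθ4' : θ ^ 4 ≤ 1 := pow_le_one₀ hθ.le (by linarith)
  have h1w : 0 ≤ 1 - w := by linarith
  have hD' : Dn ≤ w + 3 / 4 * (am + bm) + 4 * θ ^ 2 * Em ^ 3 := by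
    rcases Nat.eq_zero_or_pos k with hk0 | hkpos
    · have : Dn = 0 := by rw [hDn, hk0]; simp
      rw [this]
      positivity
    · obtain ⟨l, rfl⟩ : ∃ l, k = l + 1 := ⟨k - 1, by omega⟩
      have hwl : w = θ ^ 4 / 2 := by rw [hw, if_neg (by omega)]
      rw [hwl, hDn, sum_range_succ]
      have hl : l ∈ range (l + 1) := mem_range.2 (by omega)
      -- last term
      have t1 := h1 (l + 1) hkN l (by omega)
      have t2 := h1 l (by omega) (l + 1) hkN
      rw [show (l + 1 - l) + (l - (l + 1)) = 1 by omega, pow_one] at t1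
      rw [show (l - (l + 1)) + (l + 1 - l) = 1 by omega, pow_one] at t2
      have t3 : x (l + 1) ^ 3 * y l ^ 3 ≤ y l ^ 3 :=
        mul_le_of_le_one_left (pow_nonneg (hy l) 3) hx13
      have t4 : x l ^ 3 * y (l + 1) ^ 3 ≤ x l ^ 3 :=
        mul_le_of_le_one_right (pow_nonneg (hx l) 3) hy13
      have t5 := young34 θ (x l) hθ.le (hx l)
      have t6 := young34 θ (y l) hθ.le (hy l)
      have t7 : x l ^ 4 ≤ am :=
        single_le_sum (f := fun i => x i ^ 4) (fun j _ => pow_nonneg (hx j) 4) hl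
      have t8 : y l ^ 4 ≤ bm :=
        single_le_sum (f := fun i => y i ^ 4) (fun j _ => pow_nonneg (hy j) 4) hl
      -- the rest
      have hrest : ∑ j ∈ range l, (s (l + 1) j + s j (l + 1)) ≤ 4 * θ ^ 2 * Em ^ 3 := by
        calc ∑ j ∈ range l, (s (l + 1) j + s j (l + 1))
            ≤ ∑ j ∈ range l, θ ^ (l - j) * (2 * θ * Em ^ 3) := by
              refine sum_le_sum fun j hj => ?_
              have hj' := mem_range.1 hj
              have hj2 : j ∈ range (l + 1) := mem_range.2 (by omega)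
              have e1 := h1 (l + 1) hkN j (by omega)
              have e2 := h1 j (by omega) (l + 1) hkN
              rw [show (l + 1 - j) + (j - (l + 1)) = (l - j) + 1 by omega, pow_succ] at e1
              rw [show (j - (l + 1)) + (l + 1 - j) = (l - j) + 1 by omega, pow_succ] at e2
              have q1 : x (l + 1) ^ 3 * y j ^ 3 ≤ Em ^ 3 := by
                calc x (l + 1) ^ 3 * y j ^ 3 ≤ 1 * Em ^ 3 := by
                      have := ym j hj2; have := hy j; gcongr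
                  _ = Em ^ 3 := one_mul _
              have q2 : x j ^ 3 * y (l + 1) ^ 3 ≤ Em ^ 3 := by
                calc x j ^ 3 * y (l + 1) ^ 3 ≤ Em ^ 3 * 1 := by
                      have := xm j hj2; have := hx j; gcongr
                  _ = Em ^ 3 := mul_one _
              have q0 : 0 ≤ θ ^ (l - j) * θ := by positivity
              have q3 := mul_le_mul_of_nonneg_left q1 q0
              have q4 := mul_le_mul_of_nonneg_left q2 q0
              have q5 : θ ^ (l - j) * (2 * θ * Em ^ 3) =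
                θ ^ (l - j) * θ * Em ^ 3 + θ ^ (l - j) * θ * Em ^ 3 := by ring
              rw [q5]
              linarith
          _ = (∑ j ∈ range l, θ ^ (l - j)) * (2 * θ * Em ^ 3) := by rw [sum_mul]
          _ ≤ (2 * θ) * (2 * θ * Em ^ 3) := by
              have := geo_down θ hθ.le hθ2 l
              gcongr
          _ = _ := by ring
      have t9 := mul_le_mul_of_nonneg_left t3 hθ.le
      have t10 := mul_le_mul_of_nonneg_left t4 hθ.le
      clear_value am bm ap bp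
      clear hD hRle hU htot split splitE xm ym xp yp
      linarith
  have hskk : s k k ≤ (1 - w) * (x k ^ 3 * y k ^ 3) := by
    rcases Nat.eq_zero_or_pos k with hk0 | hkpos
    · have := h1 k hkN k hkN
      simp only [Nat.sub_self, add_zero, pow_zero, one_mul] at this
      rw [hw, if_pos hk0]; simpa using this
    · rw [hw, if_neg (by omega)]
      exact h1' k hkN hkpos
  have hK1 : s k k ≤ (1 - w) * ((1 - 3 / 4 * (am + ap)) * (1 - 3 / 4 * (bm + bp))) := by
    refine hskk.trans ?_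
    have c1 := cube_le (x k) (am + ap) (hx k) hxk
    have c2 := cube_le (y k) (bm + bp) (hy k) hyk
    have c3 : x k ^ 3 * y k ^ 3 ≤ (1 - 3 / 4 * (am + ap)) * (1 - 3 / 4 * (bm + bp)) :=
      mul_le_mul c1 c2 hyk3 (by linarith)
    exact mul_le_mul_of_nonneg_left c3 h1w
  have hK2 : s k k + Up ≤ (1 - w) * ((1 - 3 / 4 * am) * (1 - 3 / 4 * bm)) := by
    have hA : ∑ i ∈ Ico k N, x i ^ 4 = 1 - am := by
      have h3 := sum_range_add_sum_Ico (fun i => x i ^ 4) hkN.le
      rw [hxs] at h3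
      linarith
    have hB : ∑ i ∈ Ico k N, y i ^ 4 = 1 - bm := by
      have h3 := sum_range_add_sum_Ico (fun i => y i ^ 4) hkN.le
      rw [hys] at h3
      linarith
    obtain ⟨A, hA0, hA4⟩ := exists_root (1 - am) (by linarith)
    obtain ⟨B, hB0, hB4⟩ := exists_root (1 - bm) (by linarith)
    have h3 := h2 k hkN A B hA0 hB0 (by rw [hA4, hA]) (by rw [hB4, hB])
    rw [hw1] at h3
    refine h3.trans ?_
    have c1 := cube_le A am hA0 hA4
    have c2 := cube_le B bm hB0 hB4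
    have c3 : A ^ 3 * B ^ 3 ≤ (1 - 3 / 4 * am) * (1 - 3 / 4 * bm) :=
      mul_le_mul c1 c2 (pow_nonneg hB0 3) (by linarith)
    exact mul_le_mul_of_nonneg_left c3 h1w
  exact pure_ineq F θ f w am ap bm bp Em Ep (s k k) Up Dn R hF hθ hθ0 hf1 hfF hw0 hwle ham0 hap0 hbm0
    hbp0 hEm0 hEp0 hUp0 hDn0 hR0 hamE hEmle hEple ha hb hU hD hD' hRle hK1 hK2

/-- the crude bound -/
theorem local_crude (F : ℝ) (hF : 1 ≤ F) (θ f : ℝ) (hθ : 0 < θ) (hθ1 : θ < 1)
    (hf1 : 1 ≤ f) (hfF : f ≤ F) (N : ℕ) (x y : ℕ → ℝ) (hx : ∀ i, 0 ≤ x i) (hy : ∀ i, 0 ≤ y i)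
    (hxs : ∑ i ∈ range N, x i ^ 4 = 1) (hys : ∑ i ∈ range N, y i ^ 4 = 1)
    (s : ℕ → ℕ → ℝ) (hs : ∀ i j, 0 ≤ s i j)
    (h1 : ∀ i < N, ∀ j < N, s i j ≤ θ ^ ((i - j) + (j - i)) * (x i ^ 3 * y j ^ 3)) :
    ∑ i ∈ range N, ∑ j ∈ range N, (if i = j then s i j else f * s i j) ≤ 2 * F / (1 - θ) := by
  have h1θ : 0 < 1 - θ := by linarith
  have geo : ∀ n : ℕ, ∑ i ∈ range n, θ ^ i ≤ 1 / (1 - θ) := by
    intro n
    rw [le_div_iff₀ h1θ, geom_sum_mul_neg]
    have := pow_nonneg hθ.le n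
    linarith
  have hrow : ∀ i < N, ∑ j ∈ range N, θ ^ ((i - j) + (j - i)) ≤ 2 / (1 - θ) := by
    intro i hi
    have h3 : ∑ j ∈ range N, θ ^ ((i - j) + (j - i)) =
        ∑ j ∈ range (i + 1), θ ^ ((i - j) + (j - i)) +
        ∑ j ∈ Ico (i + 1) N, θ ^ ((i - j) + (j - i)) :=
      (sum_range_add_sum_Ico _ (show i + 1 ≤ N by omega)).symm
    have e1 : ∑ j ∈ range (i + 1), θ ^ ((i - j) + (j - i)) = ∑ j ∈ range (i + 1), θ ^ j := by
      rw [← sum_range_reflect]
      refine sum_congr rfl fun j hj => ?_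
      rw [mem_range] at hj
      congr 1; omega
    have e2 : ∑ j ∈ Ico (i + 1) N, θ ^ ((i - j) + (j - i)) ≤ 1 / (1 - θ) := by
      rw [sum_Ico_eq_sum_range]
      refine le_trans (sum_le_sum fun j _ => ?_) (geo (N - (i + 1)))
      apply pow_le_pow_of_le_one hθ.le hθ1.le
      omega
    rw [h3, e1]
    have := geo (i + 1)
    have e3 : 2 / (1 - θ) = 1 / (1 - θ) + 1 / (1 - θ) := by ring
    linarith
  have hxs6 : ∑ i ∈ range N, x i ^ 6 ≤ 1 := by
    have := six_le (range N) x hx 1 1 (by norm_num) hxs (by norm_num)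
    simpa using this
  have hys6 : ∑ i ∈ range N, y i ^ 6 ≤ 1 := by
    have := six_le (range N) y hy 1 1 (by norm_num) hys (by norm_num)
    simpa using this
  have hF0 : 0 < F := by linarith
  calc ∑ i ∈ range N, ∑ j ∈ range N, (if i = j then s i j else f * s i j)
      ≤ ∑ i ∈ range N, ∑ j ∈ range N, (F / 2 * (θ ^ ((i - j) + (j - i)) * x i ^ 6) +
          F / 2 * (θ ^ ((i - j) + (j - i)) * y j ^ 6)) := by
        refine sum_le_sum fun i hi => sum_le_sum fun j hj => ?_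
        have h3 := h1 i (mem_range.1 hi) j (mem_range.1 hj)
        have h4 := amgm33 (x i) (y j)
        have h5 : 0 ≤ θ ^ ((i - j) + (j - i)) := pow_nonneg hθ.le _
        have h6 : (if i = j then s i j else f * s i j) ≤ F * s i j := by
          have := hs i j
          split_ifs <;> nlinarith
        refine h6.trans ?_
        calc F * s i j ≤ F * (θ ^ ((i - j) + (j - i)) * ((x i ^ 6 + y j ^ 6) / 2)) := by
              gcongr
              exact h3.trans (by gcongr)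
          _ = _ := by ring
    _ = ∑ i ∈ range N, ∑ j ∈ range N, F / 2 * (θ ^ ((i - j) + (j - i)) * x i ^ 6) +
        ∑ j ∈ range N, ∑ i ∈ range N, F / 2 * (θ ^ ((i - j) + (j - i)) * y j ^ 6) := by
        simp only [sum_add_distrib]
        congr 1
        exact sum_comm
    _ ≤ ∑ i ∈ range N, F / 2 * (2 / (1 - θ) * x i ^ 6) +
        ∑ j ∈ range N, F / 2 * (2 / (1 - θ) * y j ^ 6) := by
        gcongr with i hi j hj
        · rw [← mul_sum, ← sum_mul]
          have := hrow i (mem_range.1 hi)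
          have := hx i
          gcongr
        · rw [← mul_sum, ← sum_mul]
          have := hrow j (mem_range.1 hj)
          have h6 : ∑ i ∈ range N, θ ^ ((i - j) + (j - i)) ≤ 2 / (1 - θ) := by
            refine le_trans (le_of_eq ?_) this
            refine sum_congr rfl fun i _ => ?_
            rw [add_comm]
          have := hy j
          gcongr
    _ = F / 2 * (2 / (1 - θ)) * ∑ i ∈ range N, x i ^ 6 +
        F / 2 * (2 / (1 - θ)) * ∑ i ∈ range N, y i ^ 6 := by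
        rw [mul_sum, mul_sum]
        congr 1 <;> refine sum_congr rfl fun i _ => by ring
    _ ≤ F / 2 * (2 / (1 - θ)) * 1 + F / 2 * (2 / (1 - θ)) * 1 := by gcongr
    _ = 2 * F / (1 - θ) := by ring

end Pool.Agent.K7.H64.DS
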