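import Mathlib
import Pool.Agent.K7.H64.DS.Local

set_option autoImplicit false
set_option maxHeartbeats 1000000

/-!
# Induction over the primes
-/

namespace Pool.Agent.K7.H64.DS

open Finset

/-- fourth root -/
noncomputable def rt (t : ℝ) : ℝ := Real.sqrt (Real.sqrt t)

lemma rt_nonneg (t : ℝ) : 0 ≤ rt t := Real.sqrt_nonneg _

lemma rt_pow (t : ℝ) (ht : 0 ≤ t) : rt t ^ 4 = t := by
  calc rt t ^ 4 = (Real.sqrt (Real.sqrt t) ^ 2) ^ 2 := by rw [rt]; ring
    _ = t := by rw [Real.sq_sqrt (Real.sqrt_nonneg _), Real.sq_sqrt ht]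

lemma rt_of_pow (u : ℝ) (hu : 0 ≤ u) : rt (u ^ 4) = u := by
  rw [rt, show u ^ 4 = (u ^ 2) ^ 2 by ring, Real.sqrt_sq (by positivity), Real.sqrt_sq hu]

lemma rt_mul (a b : ℝ) (ha : 0 ≤ a) : rt (a * b) = rt a * rt b := by
  rw [rt, rt, rt, Real.sqrt_mul ha, Real.sqrt_mul (Real.sqrt_nonneg _)]

lemma rt_mono {a b : ℝ} (h : a ≤ b) : rt a ≤ rt b :=
  Real.sqrt_le_sqrt (Real.sqrt_le_sqrt h)

lemma rt_pos {t : ℝ} (h : 0 < t) : 0 < rt t := Real.sqrt_pos.2 (Real.sqrt_pos.2 h)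

/-- the local density -/
noncomputable def kap (Q : Finset ℕ) (v : ℕ) : ℝ :=
  ∏ p ∈ Q, if p ∣ v then 1 - 1 / (p : ℝ) else 1

/-- the `Q`-part of the gcd -/
def gQ (Q : Finset ℕ) (v w : ℕ) : ℕ :=
  ∏ p ∈ Q, p ^ (min (v.factorization p) (w.factorization p))

/-- the weight -/
noncomputable def FQ (f : ℕ → ℝ) (Q : Finset ℕ) (v w : ℕ) : ℝ :=
  ∏ p ∈ Q, if v.factorization p = w.factorization p then 1 else f p

lemma kap_pos (Q : Finset ℕ) (hQ : ∀ p ∈ Q, p.Prime) (v : ℕ) : 0 < kap Q v := by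
  refine prod_pos fun p hp => ?_
  have := (hQ p hp).one_lt
  split_ifs
  · have h1 : (1 : ℝ) < p := by exact_mod_cast this
    have : 1 / (p : ℝ) < 1 := by rw [div_lt_one (by linarith)]; exact h1
    linarith
  · norm_num

lemma FQ_nonneg (f : ℕ → ℝ) (Q : Finset ℕ) (hf : ∀ p ∈ Q, 0 ≤ f p) (v w : ℕ) : 0 ≤ FQ f Q v w := by
  refine prod_nonneg fun p hp => ?_
  split_ifs
  · norm_num
  · exact hf p hp

/-- the inductive claim -/
def Claim (f : ℕ → ℝ) (Q : Finset ℕ) (C : ℝ) : Prop :=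
  ∀ (a b : ℕ) (g : ℝ), 0 < a → 0 < b → 0 < g → (∀ p ∈ Q, ¬ p ∣ a) → (∀ p ∈ Q, ¬ p ∣ b) →
    ∀ (V W : Finset ℕ) (E : Finset (ℕ × ℕ)), E ⊆ V ×ˢ W → (∀ v ∈ V, 0 < v ∧ a ∣ v) →
      (∀ w ∈ W, 0 < w ∧ b ∣ w) → ∀ x y : ℕ → ℝ, (∀ v, 0 ≤ x v) → (∀ w, 0 ≤ y w) →
      (∀ e ∈ E, (e.2 : ℝ) * x e.1 ≤ g * gQ Q e.1 e.2 ∧ (e.1 : ℝ) * y e.2 ≤ g * gQ Q e.1 e.2) →
      ∑ e ∈ E, kap Q e.1 * kap Q e.2 * x e.1 * y e.2 * FQ f Q e.1 e.2 ≤
        C * rt (g ^ 2 / (a * b)) * (rt (∑ v ∈ V, kap Q v * x v) * rt (∑ w ∈ W, kap Q w * y w)) ^ 3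

/-- counting multiples -/
lemma card_mult_le (V : Finset ℕ) (a : ℕ) (ha : 0 < a) (T : ℝ) (hT : 0 ≤ T)
    (hV : ∀ v ∈ V, 0 < v ∧ a ∣ v ∧ (v : ℝ) ≤ T) : (V.card : ℝ) ≤ T / a := by
  have ha' : (0 : ℝ) < a := by exact_mod_cast ha
  have hsub : V ⊆ (Icc 1 ⌊T / a⌋₊).image (fun k => a * k) := by
    intro v hv
    obtain ⟨h1, ⟨k, rfl⟩, h3⟩ := hV v hv
    refine mem_image.2 ⟨k, mem_Icc.2 ⟨Nat.pos_of_ne_zero ?_, ?_⟩, rfl⟩
    · rintro rfl; simp at h1
    · apply Nat.le_floor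
      rw [le_div_iff₀ ha']
      push_cast at h3
      linarith
  calc (V.card : ℝ) ≤ (((Icc 1 ⌊T / a⌋₊).image (fun k => a * k)).card : ℝ) := by
        exact_mod_cast card_le_card hsub
    _ ≤ ((Icc 1 ⌊T / a⌋₊).card : ℝ) := by exact_mod_cast card_image_le
    _ = (⌊T / a⌋₊ : ℝ) := by rw [Nat.card_Icc]; simp
    _ ≤ T / a := Nat.floor_le (by positivity)

/-- min(P, 2√(GP)) in fourth-root form -/
lemma base_real (S γ π : ℝ) (hγ : 0 ≤ γ) (hπ : 0 ≤ π) (h1 : S ≤ π ^ 4)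
    (h2 : S ≤ 2 * γ ^ 2 * π ^ 2) : S ≤ 2 * γ * π ^ 3 := by
  rcases le_total π γ with h | h
  · calc S ≤ π ^ 4 := h1
      _ = π * π ^ 3 := by ring
      _ ≤ γ * π ^ 3 := by gcongr
      _ ≤ 2 * γ * π ^ 3 := by nlinarith [mul_nonneg hγ (pow_nonneg hπ 3)]
  · calc S ≤ 2 * γ ^ 2 * π ^ 2 := h2
      _ = 2 * γ * γ * π ^ 2 := by ring
      _ ≤ 2 * γ * π * π ^ 2 := by gcongr
      _ = 2 * γ * π ^ 3 := by ring

/-- the base case -/
lemma claim_base (f : ℕ → ℝ) : Claim f ∅ 2 := by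
  intro a b g ha hb hg _ _ V W E hE hV hW x y hx hy hcond
  have ha' : (0 : ℝ) < a := by exact_mod_cast ha
  have hb' : (0 : ℝ) < b := by exact_mod_cast hb
  simp only [kap, FQ, gQ, prod_empty, one_mul, mul_one, Nat.cast_one] at hcond ⊢
  set X := ∑ v ∈ V, x v with hX
  set Y := ∑ w ∈ W, y w with hY
  have hX0 : 0 ≤ X := sum_nonneg fun v _ => hx v
  have hY0 : 0 ≤ Y := sum_nonneg fun v _ => hy v
  have hG0 : 0 ≤ g ^ 2 / (a * b) := by positivity
  -- trivial bound
  have htriv : ∑ e ∈ E, x e.1 * y e.2 ≤ X * Y := by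
    calc ∑ e ∈ E, x e.1 * y e.2 ≤ ∑ e ∈ V ×ˢ W, x e.1 * y e.2 :=
          sum_le_sum_of_subset_of_nonneg hE fun e _ _ => mul_nonneg (hx _) (hy _)
      _ = X * Y := by rw [hX, hY, sum_mul_sum, sum_product]
  rcases hX0.eq_or_lt with hX00 | hXpos
  · refine htriv.trans ?_
    rw [← hX00, zero_mul]
    have := rt_nonneg (g ^ 2 / (a * b)); have := rt_nonneg 0; have := rt_nonneg Y
    positivity
  rcases hY0.eq_or_lt with hY00 | hYpos
  · refine htriv.trans ?_
    rw [← hY00, mul_zero]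
    have := rt_nonneg (g ^ 2 / (a * b)); have := rt_nonneg 0; have := rt_nonneg X
    positivity
  -- the main bound
  have hmain : ∀ l : ℝ, 0 < l → ∑ e ∈ E, x e.1 * y e.2 ≤ g / (l * a) * Y + g * l / b * X := by
    intro l hl
    rw [← sum_filter_add_sum_filter_not E (fun e => l * (e.1 : ℝ) ≤ (e.2 : ℝ))]
    have hE1 : ∑ e ∈ E.filter (fun e => l * (e.1 : ℝ) ≤ (e.2 : ℝ)), x e.1 * y e.2 ≤
        g / (l * a) * Y := by
      calc ∑ e ∈ E.filter (fun e => l * (e.1 : ℝ) ≤ (e.2 : ℝ)), x e.1 * y e.2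
          ≤ ∑ e ∈ (V ×ˢ W).filter (fun e => l * (e.1 : ℝ) ≤ (e.2 : ℝ)), g / e.2 * y e.2 := by
            refine (sum_le_sum (g := fun e : ℕ × ℕ => g / e.2 * y e.2) fun e he => ?_).trans
              (sum_le_sum_of_subset_of_nonneg (filter_subset_filter _ hE) fun e _ _ => ?_)
            · have he' := (mem_filter.1 he).1
              have h2 := (hcond e he').1
              have h3 := mem_product.1 (hE he')
              have h4 : (0 : ℝ) < (e.2 : ℝ) := by exact_mod_cast (hW e.2 h3.2).1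
              have h5 : x e.1 ≤ g / e.2 := by
                rw [le_div_iff₀ h4]; linarith
              exact mul_le_mul_of_nonneg_right h5 (hy _)
            · exact mul_nonneg (div_nonneg hg.le (Nat.cast_nonneg _)) (hy _)
        _ = ∑ w ∈ W, ((V.filter (fun v : ℕ => l * (v : ℝ) ≤ (w : ℝ))).card : ℝ) * (g / w * y w) := by
            rw [sum_filter, sum_product_right]
            refine sum_congr rfl fun w _ => ?_
            rw [← sum_filter]
            simp only [sum_const, nsmul_eq_mul]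
        _ ≤ ∑ w ∈ W, g / (l * a) * y w := by
            refine sum_le_sum fun w hw => ?_
            have hw0 : (0 : ℝ) < (w : ℝ) := by exact_mod_cast (hW w hw).1
            have h3 := card_mult_le (V.filter (fun v : ℕ => l * (v : ℝ) ≤ (w : ℝ))) a ha (w / l)
              (by positivity) (fun v hv => by
                rw [mem_filter] at hv
                refine ⟨(hV v hv.1).1, (hV v hv.1).2, ?_⟩
                rw [le_div_iff₀ hl]; linarith [hv.2])
            have hyw := hy w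
            calc ((V.filter (fun v : ℕ => l * (v : ℝ) ≤ (w : ℝ))).card : ℝ) * (g / w * y w)
                ≤ (w / l / a) * (g / w * y w) := by gcongr
              _ = g / (l * a) * y w := by field_simp
        _ = g / (l * a) * Y := by rw [hY, mul_sum]
    have hE2 : ∑ e ∈ E.filter (fun e => ¬ l * (e.1 : ℝ) ≤ (e.2 : ℝ)), x e.1 * y e.2 ≤
        g * l / b * X := by
      calc ∑ e ∈ E.filter (fun e => ¬ l * (e.1 : ℝ) ≤ (e.2 : ℝ)), x e.1 * y e.2
          ≤ ∑ e ∈ (V ×ˢ W).filter (fun e => ¬ l * (e.1 : ℝ) ≤ (e.2 : ℝ)), g / e.1 * x e.1 := by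
            refine (sum_le_sum (g := fun e : ℕ × ℕ => g / e.1 * x e.1) fun e he => ?_).trans
              (sum_le_sum_of_subset_of_nonneg (filter_subset_filter _ hE) fun e _ _ => ?_)
            · have he' := (mem_filter.1 he).1
              have h2 := (hcond e he').2
              have h3 := mem_product.1 (hE he')
              have h4 : (0 : ℝ) < (e.1 : ℝ) := by exact_mod_cast (hV e.1 h3.1).1
              have h5 : y e.2 ≤ g / e.1 := by
                rw [le_div_iff₀ h4]; linarith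
              rw [mul_comm]
              exact mul_le_mul_of_nonneg_right h5 (hx _)
            · exact mul_nonneg (div_nonneg hg.le (Nat.cast_nonneg _)) (hx _)
        _ = ∑ v ∈ V, ((W.filter (fun w : ℕ => ¬ l * (v : ℝ) ≤ (w : ℝ))).card : ℝ) *
              (g / v * x v) := by
            rw [sum_filter, sum_product]
            refine sum_congr rfl fun w _ => ?_
            rw [← sum_filter]
            simp only [sum_const, nsmul_eq_mul]
        _ ≤ ∑ v ∈ V, g * l / b * x v := by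
            refine sum_le_sum fun v hv => ?_
            have hv0 : (0 : ℝ) < (v : ℝ) := by exact_mod_cast (hV v hv).1
            have h3 := card_mult_le (W.filter (fun w : ℕ => ¬ l * (v : ℝ) ≤ (w : ℝ))) b hb (l * v)
              (by positivity) (fun w hw => by
                rw [mem_filter] at hw
                refine ⟨(hW w hw.1).1, (hW w hw.1).2, ?_⟩
                linarith [not_le.1 hw.2])
            have hxv := hx v
            calc ((W.filter (fun w : ℕ => ¬ l * (v : ℝ) ≤ (w : ℝ))).card : ℝ) * (g / v * x v)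
                ≤ (l * v / b) * (g / v * x v) := by gcongr
              _ = g * l / b * x v := by field_simp
        _ = g * l / b * X := by rw [hX, mul_sum]
    linarith
  -- optimise
  set γ := rt (g ^ 2 / (a * b)) with hγ
  set π := rt X * rt Y with hπ
  have hγ0 : 0 ≤ γ := rt_nonneg _
  have hπ0 : 0 ≤ π := mul_nonneg (rt_nonneg _) (rt_nonneg _)
  have hγ4 : γ ^ 4 = g ^ 2 / (a * b) := rt_pow _ hG0
  have hπ4 : π ^ 4 = X * Y := by rw [hπ, mul_pow, rt_pow X hX0, rt_pow Y hY0]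
  refine base_real _ γ π hγ0 hπ0 (by rw [hπ4]; exact htriv) ?_
  -- choose l = √(bY/(aX))
  set l := Real.sqrt (b * Y / (a * X)) with hl
  have hlpos : 0 < l := Real.sqrt_pos.2 (by positivity)
  have hl2 : l ^ 2 = b * Y / (a * X) := Real.sq_sqrt (by positivity)
  refine (hmain l hlpos).trans (le_of_eq ?_)
  have e1 : g / (l * a) * Y = g * l / b * X := by
    rw [div_mul_eq_mul_div, div_mul_eq_mul_div, div_eq_div_iff (by positivity) (by positivity)]
    have : l ^ 2 * (a * X) = b * Y := by rw [hl2]; field_simp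
    calc g * Y * b = g * (b * Y) := by ring
      _ = g * (l ^ 2 * (a * X)) := by rw [this]
      _ = g * l * X * (l * a) := by ring
  have e2 : γ ^ 2 * π ^ 2 = g * l / b * X := by
    have h3 : 0 ≤ γ ^ 2 * π ^ 2 := by positivity
    have h4 : 0 ≤ g * l / b * X := by positivity
    have h5 : (γ ^ 2 * π ^ 2) ^ 2 = (g * l / b * X) ^ 2 := by
      calc (γ ^ 2 * π ^ 2) ^ 2 = γ ^ 4 * π ^ 4 := by ring
        _ = g ^ 2 / (a * b) * (X * Y) := by rw [hγ4, hπ4]
        _ = g ^ 2 * l ^ 2 / b ^ 2 * X ^ 2 := by rw [hl2]; field_simp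
        _ = _ := by ring
    exact (pow_left_inj₀ h3 h4 (by norm_num)).1 h5
  rw [e1, show 2 * γ ^ 2 * π ^ 2 = 2 * (γ ^ 2 * π ^ 2) by ring, e2]
  ring

end Pool.Agent.K7.H64.DS
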