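import Mathlib
import Pool.Agent.K7.H64.DS.Induct

set_option autoImplicit false
set_option maxHeartbeats 1000000

/-!
# The inductive step over the primes
-/

namespace Pool.Agent.K7.H64.DS

open Finset

lemma gQ_insert (Q : Finset ℕ) (p : ℕ) (hp : p ∉ Q) (v w : ℕ) :
    gQ (insert p Q) v w = p ^ (min (v.factorization p) (w.factorization p)) * gQ Q v w :=
  prod_insert hp

lemma kap_insert (Q : Finset ℕ) (p : ℕ) (hp : p ∉ Q) (v : ℕ) :
    kap (insert p Q) v = (if p ∣ v then 1 - 1 / (p : ℝ) else 1) * kap Q v :=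
  prod_insert hp

lemma FQ_insert (f : ℕ → ℝ) (Q : Finset ℕ) (p : ℕ) (hp : p ∉ Q) (v w : ℕ) :
    FQ f (insert p Q) v w =
      (if v.factorization p = w.factorization p then 1 else f p) * FQ f Q v w :=
  prod_insert hp

/-- the conclusion of the one-prime lemma -/
def LB (θ f B : ℝ) : Prop :=
  ∀ (N : ℕ) (x y : ℕ → ℝ), (∀ i, 0 ≤ x i) → (∀ i, 0 ≤ y i) →
    ∑ i ∈ range N, x i ^ 4 = 1 → ∑ i ∈ range N, y i ^ 4 = 1 →
    ∀ s : ℕ → ℕ → ℝ, (∀ i j, 0 ≤ s i j) →
    (∀ i < N, ∀ j < N, s i j ≤ θ ^ ((i - j) + (j - i)) * (x i ^ 3 * y j ^ 3)) →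
    (∀ i < N, 1 ≤ i → s i i ≤ (1 - θ ^ 4 / 2) * (x i ^ 3 * y i ^ 3)) →
    (∀ k < N, ∀ A B : ℝ, 0 ≤ A → 0 ≤ B → A ^ 4 = ∑ i ∈ Ico k N, x i ^ 4 →
      B ^ 4 = ∑ i ∈ Ico k N, y i ^ 4 →
      s k k + ∑ j ∈ Ico (k + 1) N, (s k j + s j k) ≤
        (if k = 0 then 1 else 1 - θ ^ 4 / 2) * (A ^ 3 * B ^ 3)) →
    ∑ i ∈ range N, ∑ j ∈ range N, (if i = j then s i j else f * s i j) ≤ B

theorem claim_step (f : ℕ → ℝ) (Q : Finset ℕ) (hQ : ∀ q ∈ Q, q.Prime) (p : ℕ) (hp : p.Prime)
    (hpQ : p ∉ Q) (C : ℝ) (hC : 0 < C) (hfQ : ∀ q ∈ Q, 0 ≤ f q) (B : ℝ) (hB0 : 0 ≤ B)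
    (hB : LB (rt (1 / p)) (f p) B) (hcl : Claim f Q C) : Claim f (insert p Q) (C * B) := by
  intro a b g ha hb hg hpa hpb V W E hE hV hW x y hx hy hcond
  have hp1 : (1 : ℝ) < p := by exact_mod_cast hp.one_lt
  have hp0 : (0 : ℝ) < p := by linarith
  have ha' : (0 : ℝ) < a := by exact_mod_cast ha
  have hb' : (0 : ℝ) < b := by exact_mod_cast hb
  have hpa' : ¬ p ∣ a := hpa p (mem_insert_self _ _)
  have hpb' : ¬ p ∣ b := hpb p (mem_insert_self _ _)
  have hQa : ∀ q ∈ Q, ¬ q ∣ a := fun q hq => hpa q (mem_insert_of_mem hq)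
  have hQb : ∀ q ∈ Q, ¬ q ∣ b := fun q hq => hpb q (mem_insert_of_mem hq)
  set c : ℝ := 1 - 1 / (p : ℝ) with hc
  have hc0 : 0 < c := by
    have : 1 / (p : ℝ) < 1 := by rw [div_lt_one hp0]; exact hp1
    linarith
  have hc1 : c ≤ 1 := by
    have : 0 < 1 / (p : ℝ) := by positivity
    linarith
  set u : ℕ → ℝ := fun v => if p ∣ v then c else 1 with hu
  have hu0 : ∀ v, 0 ≤ u v := by intro v; simp only [hu]; split_ifs <;> linarith
  have hu1 : ∀ v, u v ≤ 1 := by intro v; simp only [hu]; split_ifs <;> linarith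
  set κ : ℕ → ℝ := kap (insert p Q) with hκ
  have hκu : ∀ v, κ v = u v * kap Q v := fun v => kap_insert Q p hpQ v
  have hκ0 : ∀ v, 0 < κ v := by
    refine kap_pos _ ?_
    intro q hq
    rcases mem_insert.1 hq with rfl | h
    · exact hp
    · exact hQ q h
  have hκQ0 : ∀ v, 0 < kap Q v := kap_pos Q hQ
  set h : ℕ × ℕ → ℝ := fun e => κ e.1 * κ e.2 * x e.1 * y e.2 * FQ f Q e.1 e.2 with hh
  have hh0 : ∀ e, 0 ≤ h e := by
    intro e
    have h1 := (hκ0 e.1).le
    have h2 := (hκ0 e.2).le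
    have h3 := hx e.1
    have h4 := hy e.2
    have h5 := FQ_nonneg f Q hfQ e.1 e.2
    simp only [hh]
    positivity
  set muV : Finset ℕ → ℝ := fun S => ∑ v ∈ S, κ v * x v with hmuV
  set muW : Finset ℕ → ℝ := fun S => ∑ w ∈ S, κ w * y w with hmuW
  have hmuV0 : ∀ S, 0 ≤ muV S := fun S => sum_nonneg fun v _ => mul_nonneg (hκ0 v).le (hx v)
  have hmuW0 : ∀ S, 0 ≤ muW S := fun S => sum_nonneg fun v _ => mul_nonneg (hκ0 v).le (hy v)
  -- Lemma A
  have lemA : ∀ (V' W' : Finset ℕ) (E' : Finset (ℕ × ℕ)) (a' b' : ℕ) (g' : ℝ), 0 < a' → 0 < b' →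
      0 < g' → (∀ q ∈ Q, ¬ q ∣ a') → (∀ q ∈ Q, ¬ q ∣ b') → E' ⊆ E → E' ⊆ V' ×ˢ W' →
      (∀ v ∈ V', 0 < v ∧ a' ∣ v) → (∀ w ∈ W', 0 < w ∧ b' ∣ w) →
      (∀ e ∈ E', g * gQ (insert p Q) e.1 e.2 = g' * gQ Q e.1 e.2) →
      ∑ e ∈ E', h e ≤ C * rt (g' ^ 2 / (a' * b')) * (rt (muV V') * rt (muW W')) ^ 3 := by
    intro V' W' E' a' b' g' h1 h2 h3 h4 h5 h6 h7 h8 h9 h10
    have := hcl a' b' g' h1 h2 h3 h4 h5 V' W' E' h7 h8 h9 (fun v => u v * x v) (fun w => u w * y w)
      (fun v => mul_nonneg (hu0 v) (hx v)) (fun v => mul_nonneg (hu0 v) (hy v)) ?_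
    · have e1 : ∑ e ∈ E', h e = ∑ e ∈ E', kap Q e.1 * kap Q e.2 * (u e.1 * x e.1) *
          (u e.2 * y e.2) * FQ f Q e.1 e.2 := by
        refine sum_congr rfl fun e _ => ?_
        simp only [hh, hκu]; ring
      have e2 : muV V' = ∑ v ∈ V', kap Q v * (u v * x v) := by
        refine sum_congr rfl fun v _ => ?_
        rw [hκu]; ring
      have e3 : muW W' = ∑ v ∈ W', kap Q v * (u v * y v) := by
        refine sum_congr rfl fun v _ => ?_
        rw [hκu]; ring
      rw [e1, e2, e3]; exact this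
    · intro e he
      obtain ⟨c1, c2⟩ := hcond e (h6 he)
      have hc3 := h10 e he
      rw [hc3] at c1 c2
      constructor
      · calc (e.2 : ℝ) * (u e.1 * x e.1) = u e.1 * ((e.2 : ℝ) * x e.1) := by ring
          _ ≤ 1 * ((e.2 : ℝ) * x e.1) := by
            have := hu1 e.1; have := hx e.1; gcongr
          _ ≤ _ := by rw [one_mul]; exact c1
      · calc (e.1 : ℝ) * (u e.2 * y e.2) = u e.2 * ((e.1 : ℝ) * y e.2) := by ring
          _ ≤ 1 * ((e.1 : ℝ) * y e.2) := by
            have := hu1 e.2; have := hy e.2; gcongr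
          _ ≤ _ := by rw [one_mul]; exact c2
  -- Lemma B
  have lemB : ∀ (V' W' : Finset ℕ) (E' : Finset (ℕ × ℕ)) (a' b' : ℕ) (g' : ℝ), 0 < a' → 0 < b' →
      0 < g' → (∀ q ∈ Q, ¬ q ∣ a') → (∀ q ∈ Q, ¬ q ∣ b') → E' ⊆ E → E' ⊆ V' ×ˢ W' →
      (∀ v ∈ V', 0 < v ∧ a' ∣ v) → (∀ w ∈ W', 0 < w ∧ b' ∣ w) →
      (∀ v ∈ V', p ∣ v) → (∀ w ∈ W', p ∣ w) →
      (∀ e ∈ E', g * gQ (insert p Q) e.1 e.2 = g' * gQ Q e.1 e.2) →
      ∑ e ∈ E', h e ≤ rt c ^ 2 * (C * rt (g' ^ 2 / (a' * b')) *
        (rt (muV V') * rt (muW W')) ^ 3) := by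
    intro V' W' E' a' b' g' h1 h2 h3 h4 h5 h6 h7 h8 h9 hpV hpW h10
    have := hcl a' b' g' h1 h2 h3 h4 h5 V' W' E' h7 h8 h9 x y hx hy ?_
    · have e1 : ∑ e ∈ E', h e = c ^ 2 * ∑ e ∈ E', kap Q e.1 * kap Q e.2 * x e.1 *
          y e.2 * FQ f Q e.1 e.2 := by
        rw [mul_sum]
        refine sum_congr rfl fun e he => ?_
        have h11 := mem_product.1 (h7 he)
        have u1 : u e.1 = c := if_pos (hpV _ h11.1)
        have u2 : u e.2 = c := if_pos (hpW _ h11.2)
        simp only [hh, hκu, u1, u2]; ring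
      have e2 : muV V' = c * ∑ v ∈ V', kap Q v * x v := by
        rw [mul_sum]
        refine sum_congr rfl fun v hv => ?_
        have u1 : u v = c := if_pos (hpV _ hv)
        rw [hκu, u1]; ring
      have e3 : muW W' = c * ∑ v ∈ W', kap Q v * y v := by
        rw [mul_sum]
        refine sum_congr rfl fun v hv => ?_
        have u1 : u v = c := if_pos (hpW _ hv)
        rw [hκu, u1]; ring
      rw [e1, e2, e3, rt_mul _ _ hc0.le, rt_mul _ _ hc0.le]
      have hrc := rt_pow c hc0.le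
      have hrc0 := rt_nonneg c
      generalize rt (∑ v ∈ V', kap Q v * x v) = X1 at this ⊢
      generalize rt (∑ v ∈ W', kap Q v * y v) = Y1 at this ⊢
      generalize ∑ e ∈ E', kap Q e.1 * kap Q e.2 * x e.1 * y e.2 * FQ f Q e.1 e.2 = S1 at this ⊢
      calc c ^ 2 * S1 ≤ c ^ 2 * (C * rt (g' ^ 2 / (a' * b')) * (X1 * Y1) ^ 3) := by gcongr
        _ = (rt c ^ 4) ^ 2 * (C * rt (g' ^ 2 / (a' * b')) * (X1 * Y1) ^ 3) := by rw [hrc]
        _ = _ := by ring
    · intro e he
      obtain ⟨c1, c2⟩ := hcond e (h6 he)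
      have hc3 := h10 e he
      rw [hc3] at c1 c2
      exact ⟨c1, c2⟩
  -- trivial cases
  have hsum0 : ∑ e ∈ E, kap (insert p Q) e.1 * kap (insert p Q) e.2 * x e.1 * y e.2 *
      FQ f (insert p Q) e.1 e.2 = ∑ e ∈ E, (if e.1.factorization p = e.2.factorization p then 1
        else f p) * h e := by
    refine sum_congr rfl fun e _ => ?_
    rw [FQ_insert f Q p hpQ]; simp only [hh, hκ]; ring
  rw [hsum0]
  change _ ≤ C * B * rt (g ^ 2 / (a * b)) * (rt (muV V) * rt (muW W)) ^ 3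
  set G := g ^ 2 / ((a : ℝ) * b) with hG
  have hG0 : 0 < G := by positivity
  have hrhs0 : 0 ≤ C * B * rt G * (rt (muV V) * rt (muW W)) ^ 3 := by
    have := rt_nonneg G; have := rt_nonneg (muV V); have := rt_nonneg (muW W)
    positivity
  rcases (hmuV0 V).eq_or_lt with hV0 | hVpos
  · have hz : ∀ e ∈ E, (if e.1.factorization p = e.2.factorization p then 1 else f p) * h e = 0 := by
      intro e he
      have h1 := (sum_eq_zero_iff_of_nonneg (fun v _ => mul_nonneg (hκ0 v).le (hx v))).1 hV0.symm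
        e.1 (mem_product.1 (hE he)).1
      have h2 : x e.1 = 0 := by
        rcases mul_eq_zero.1 h1 with h | h
        · exact absurd h (hκ0 _).ne'
        · exact h
      simp only [hh, h2]; ring
    rw [sum_eq_zero hz]; exact hrhs0
  rcases (hmuW0 W).eq_or_lt with hW0 | hWpos
  · have hz : ∀ e ∈ E, (if e.1.factorization p = e.2.factorization p then 1 else f p) * h e = 0 := by
      intro e he
      have h1 := (sum_eq_zero_iff_of_nonneg (fun v _ => mul_nonneg (hκ0 v).le (hy v))).1 hW0.symm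
        e.2 (mem_product.1 (hE he)).2
      have h2 : y e.2 = 0 := by
        rcases mul_eq_zero.1 h1 with h | h
        · exact absurd h (hκ0 _).ne'
        · exact h
      simp only [hh, h2]; ring
    rw [sum_eq_zero hz]; exact hrhs0
  -- the general case
  set vp : ℕ → ℕ := fun v => v.factorization p with hvp
  set N := max (V.sup vp) (W.sup vp) + 1 with hN
  have hVN : ∀ v ∈ V, vp v < N := fun v hv =>
    Nat.lt_succ_of_le (le_max_of_le_left (le_sup (f := vp) hv))
  have hWN : ∀ v ∈ W, vp v < N := fun v hv =>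
    Nat.lt_succ_of_le (le_max_of_le_right (le_sup (f := vp) hv))
  have hpdvd : ∀ v i : ℕ, 0 < v → i ≤ vp v → p ^ i ∣ v := by
    intro v i hv hi
    exact (hp.pow_dvd_iff_le_factorization hv.ne').2 hi
  set T : Finset (ℕ × ℕ) → ℝ := fun S => ∑ e ∈ S, h e with hT
  have hT0 : ∀ S, 0 ≤ T S := fun S => sum_nonneg fun e _ => hh0 e
  set Eij : ℕ → ℕ → Finset (ℕ × ℕ) := fun i j => E.filter (fun e => vp e.1 = i ∧ vp e.2 = j)
    with hEij
  set Vi : ℕ → Finset ℕ := fun i => V.filter (fun v => vp v = i) with hVi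
  set Wj : ℕ → Finset ℕ := fun i => W.filter (fun v => vp v = i) with hWj
  set D := C * rt G * (rt (muV V) * rt (muW W)) ^ 3 with hD
  have hrV := rt_pos hVpos
  have hrW := rt_pos hWpos
  have hrG := rt_pos hG0
  have hDpos : 0 < D := by positivity
  set X : ℕ → ℝ := fun i => rt (muV (Vi i)) / rt (muV V) with hX
  set Y : ℕ → ℝ := fun i => rt (muW (Wj i)) / rt (muW W) with hY
  have hX0 : ∀ i, 0 ≤ X i := fun i => div_nonneg (rt_nonneg _) (rt_nonneg _)
  have hY0 : ∀ i, 0 ≤ Y i := fun i => div_nonneg (rt_nonneg _) (rt_nonneg _)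
  have hX4 : ∀ i, X i ^ 4 = muV (Vi i) / muV V := by
    intro i; simp only [hX]; rw [div_pow, rt_pow _ (hmuV0 _), rt_pow _ (hmuV0 _)]
  have hY4 : ∀ i, Y i ^ 4 = muW (Wj i) / muW W := by
    intro i; simp only [hY]; rw [div_pow, rt_pow _ (hmuW0 _), rt_pow _ (hmuW0 _)]
  -- sums over valuations
  have sumV : ∀ k, ∑ i ∈ Ico k N, muV (Vi i) = muV (V.filter (fun v => k ≤ vp v)) := by
    intro k
    simp only [hmuV]
    rw [← sum_fiberwise_of_maps_to (s := V.filter (fun v => k ≤ vp v)) (t := Ico k N) (g := vp)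
      (fun v hv => by
        rw [mem_filter] at hv
        exact mem_Ico.2 ⟨hv.2, hVN v hv.1⟩)]
    refine sum_congr rfl fun i hi => ?_
    rw [filter_filter]
    refine sum_congr ?_ fun _ _ => rfl
    ext v
    simp only [hVi, mem_filter]
    have := (mem_Ico.1 hi).1
    constructor
    · rintro ⟨h1, h2⟩; exact ⟨h1, by omega, h2⟩
    · rintro ⟨h1, _, h2⟩; exact ⟨h1, h2⟩
  have sumW : ∀ k, ∑ i ∈ Ico k N, muW (Wj i) = muW (W.filter (fun v => k ≤ vp v)) := by
    intro k
    simp only [hmuW]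
    rw [← sum_fiberwise_of_maps_to (s := W.filter (fun v => k ≤ vp v)) (t := Ico k N) (g := vp)
      (fun v hv => by
        rw [mem_filter] at hv
        exact mem_Ico.2 ⟨hv.2, hWN v hv.1⟩)]
    refine sum_congr rfl fun i hi => ?_
    rw [filter_filter]
    refine sum_congr ?_ fun _ _ => rfl
    ext v
    simp only [hWj, mem_filter]
    have := (mem_Ico.1 hi).1
    constructor
    · rintro ⟨h1, h2⟩; exact ⟨h1, by omega, h2⟩
    · rintro ⟨h1, _, h2⟩; exact ⟨h1, h2⟩
  have hVall : V.filter (fun v => 0 ≤ vp v) = V := filter_true_of_mem fun _ _ => Nat.zero_le _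
  have hWall : W.filter (fun v => 0 ≤ vp v) = W := filter_true_of_mem fun _ _ => Nat.zero_le _
  have hXs : ∑ i ∈ range N, X i ^ 4 = 1 := by
    simp only [hX4]
    rw [← sum_div, range_eq_Ico, sumV 0, hVall, div_self hVpos.ne']
  have hYs : ∑ i ∈ range N, Y i ^ 4 = 1 := by
    simp only [hY4]
    rw [← sum_div, range_eq_Ico, sumW 0, hWall, div_self hWpos.ne']
  -- θ
  set θ := rt (1 / (p : ℝ)) with hθ
  have hθ4 : θ ^ 4 = 1 / p := rt_pow _ (by positivity)
  have hθ0 : 0 ≤ θ := rt_nonneg _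
  have hrc : rt c ^ 2 ≤ 1 - θ ^ 4 / 2 := by
    have h1 : (rt c ^ 2) ^ 2 ≤ (1 - θ ^ 4 / 2) ^ 2 := by
      have h2 : (rt c ^ 2) ^ 2 = c := by rw [← pow_mul]; exact rt_pow c hc0.le
      rw [h2, hθ4, hc]
      nlinarith [sq_nonneg (1 / (p : ℝ))]
    have h3 : 0 ≤ 1 - θ ^ 4 / 2 := by
      rw [hθ4]
      have : 1 / (p : ℝ) < 1 := by rw [div_lt_one hp0]; exact hp1
      linarith
    exact (pow_le_pow_iff_left₀ (by positivity) h3 (by norm_num)).1 h1
  -- individual bounds
  have hind : ∀ i < N, ∀ j < N, T (Eij i j) ≤ θ ^ ((i - j) + (j - i)) * (X i ^ 3 * Y j ^ 3) * D := by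
    intro i _ j _
    have h1 := lemA (Vi i) (Wj j) (Eij i j) (a * p ^ i) (b * p ^ j) (g * p ^ (min i j))
      (by have := hp.pos; positivity) (by have := hp.pos; positivity) (by positivity)
      (fun q hq hd => by
        have hqp := hQ q hq
        rcases (hqp.dvd_mul).1 hd with h1 | h1
        · exact hQa q hq h1
        · have := (Nat.prime_dvd_prime_iff_eq hqp hp).1 (hqp.dvd_of_dvd_pow h1)
          exact hpQ (this ▸ hq))
      (fun q hq hd => by
        have hqp := hQ q hq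
        rcases (hqp.dvd_mul).1 hd with h1 | h1
        · exact hQb q hq h1
        · have := (Nat.prime_dvd_prime_iff_eq hqp hp).1 (hqp.dvd_of_dvd_pow h1)
          exact hpQ (this ▸ hq))
      (filter_subset _ _)
      (fun e he => by
        simp only [hEij, mem_filter] at he
        have h2 := mem_product.1 (hE he.1)
        exact mem_product.2 ⟨mem_filter.2 ⟨h2.1, he.2.1⟩, mem_filter.2 ⟨h2.2, he.2.2⟩⟩)
      (fun v hv => by
        have hv' := mem_filter.1 hv
        have h2 := hV v hv'.1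
        refine ⟨h2.1, ?_⟩
        exact Nat.Coprime.mul_dvd_of_dvd_of_dvd
          (Nat.Coprime.pow_right _ ((Nat.Prime.coprime_iff_not_dvd hp).2 hpa').symm) h2.2
          (hpdvd v i h2.1 hv'.2.ge))
      (fun v hv => by
        have hv' := mem_filter.1 hv
        have h2 := hW v hv'.1
        refine ⟨h2.1, ?_⟩
        exact Nat.Coprime.mul_dvd_of_dvd_of_dvd
          (Nat.Coprime.pow_right _ ((Nat.Prime.coprime_iff_not_dvd hp).2 hpb').symm) h2.2
          (hpdvd v j h2.1 hv'.2.ge))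
      (fun e he => by
        simp only [hEij, mem_filter] at he
        rw [gQ_insert Q p hpQ, show e.1.factorization p = i from he.2.1,
          show e.2.factorization p = j from he.2.2]
        push_cast; ring)
    have hGG : rt ((g * (p : ℝ) ^ (min i j)) ^ 2 / (((a * p ^ i : ℕ) : ℝ) * ((b * p ^ j : ℕ) : ℝ))) =
        rt G * θ ^ ((i - j) + (j - i)) := by
      have e1 : (g * (p : ℝ) ^ (min i j)) ^ 2 / (((a * p ^ i : ℕ) : ℝ) * ((b * p ^ j : ℕ) : ℝ)) =
          G * (θ ^ ((i - j) + (j - i))) ^ 4 := by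
        rw [← pow_mul, mul_comm ((i - j) + (j - i)) 4, pow_mul, hθ4, hG]
        push_cast
        rw [div_pow, one_pow]
        rw [div_mul_div_comm, div_eq_div_iff (by positivity) (by positivity)]
        have e2 : (p : ℝ) ^ i * (p : ℝ) ^ j =
            ((p : ℝ) ^ (min i j)) ^ 2 * (p : ℝ) ^ ((i - j) + (j - i)) := by
          rw [← pow_mul, ← pow_add, ← pow_add]
          congr 1
          omega
        calc (g * (p : ℝ) ^ min i j) ^ 2 * ((a : ℝ) * b * (p : ℝ) ^ (i - j + (j - i)))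
            = g ^ 2 * (a * b) * (((p : ℝ) ^ (min i j)) ^ 2 * (p : ℝ) ^ ((i - j) + (j - i))) := by
              ring
          _ = g ^ 2 * 1 * (a * (p : ℝ) ^ i * (b * (p : ℝ) ^ j)) := by rw [← e2]; ring
      rw [e1, rt_mul _ _ hG0.le, rt_of_pow _ (by positivity)]
    rw [hGG] at h1
    refine h1.trans (le_of_eq ?_)
    simp only [hX, hY, hD]
    field_simp
  have hindB : ∀ i < N, 1 ≤ i → T (Eij i i) ≤ (1 - θ ^ 4 / 2) * (X i ^ 3 * Y i ^ 3) * D := by
    intro i _ hi1
    have h1 := lemB (Vi i) (Wj i) (Eij i i) (a * p ^ i) (b * p ^ i) (g * p ^ i)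
      (by have := hp.pos; positivity) (by have := hp.pos; positivity) (by positivity)
      (fun q hq hd => by
        have hqp := hQ q hq
        rcases (hqp.dvd_mul).1 hd with h1 | h1
        · exact hQa q hq h1
        · have := (Nat.prime_dvd_prime_iff_eq hqp hp).1 (hqp.dvd_of_dvd_pow h1)
          exact hpQ (this ▸ hq))
      (fun q hq hd => by
        have hqp := hQ q hq
        rcases (hqp.dvd_mul).1 hd with h1 | h1
        · exact hQb q hq h1
        · have := (Nat.prime_dvd_prime_iff_eq hqp hp).1 (hqp.dvd_of_dvd_pow h1)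
          exact hpQ (this ▸ hq))
      (filter_subset _ _)
      (fun e he => by
        simp only [hEij, mem_filter] at he
        have h2 := mem_product.1 (hE he.1)
        exact mem_product.2 ⟨mem_filter.2 ⟨h2.1, he.2.1⟩, mem_filter.2 ⟨h2.2, he.2.2⟩⟩)
      (fun v hv => by
        have hv' := mem_filter.1 hv
        have h2 := hV v hv'.1
        refine ⟨h2.1, ?_⟩
        exact Nat.Coprime.mul_dvd_of_dvd_of_dvd
          (Nat.Coprime.pow_right _ ((Nat.Prime.coprime_iff_not_dvd hp).2 hpa').symm) h2.2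
          (hpdvd v i h2.1 hv'.2.ge))
      (fun v hv => by
        have hv' := mem_filter.1 hv
        have h2 := hW v hv'.1
        refine ⟨h2.1, ?_⟩
        exact Nat.Coprime.mul_dvd_of_dvd_of_dvd
          (Nat.Coprime.pow_right _ ((Nat.Prime.coprime_iff_not_dvd hp).2 hpb').symm) h2.2
          (hpdvd v i h2.1 hv'.2.ge))
      (fun v hv => by
        have hv' := mem_filter.1 hv
        have h2 := hV v hv'.1
        have h3 := hpdvd v 1 h2.1 (by have := hv'.2; omega)
        simpa using h3)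
      (fun v hv => by
        have hv' := mem_filter.1 hv
        have h2 := hW v hv'.1
        have h3 := hpdvd v 1 h2.1 (by have := hv'.2; omega)
        simpa using h3)
      (fun e he => by
        simp only [hEij, mem_filter] at he
        rw [gQ_insert Q p hpQ, show e.1.factorization p = i from he.2.1,
          show e.2.factorization p = i from he.2.2, min_self]
        push_cast; ring)
    have hGG : (g * (p : ℝ) ^ i) ^ 2 / (((a * p ^ i : ℕ) : ℝ) * ((b * p ^ i : ℕ) : ℝ)) = G := by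
      rw [hG]; push_cast; field_simp
    rw [hGG] at h1
    refine h1.trans ?_
    have e1 : C * rt G * (rt (muV (Vi i)) * rt (muW (Wj i))) ^ 3 = (X i ^ 3 * Y i ^ 3) * D := by
      simp only [hX, hY, hD]
      field_simp
    rw [e1, mul_assoc (1 - θ ^ 4 / 2)]
    have : 0 ≤ X i ^ 3 * Y i ^ 3 * D := by
      have := hX0 i; have := hY0 i; positivity
    exact mul_le_mul_of_nonneg_right hrc this
  -- merged bounds
  have hmer : ∀ k < N, ∀ A B : ℝ, 0 ≤ A → 0 ≤ B → A ^ 4 = ∑ i ∈ Ico k N, X i ^ 4 →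
      B ^ 4 = ∑ i ∈ Ico k N, Y i ^ 4 →
      T (Eij k k) + ∑ j ∈ Ico (k + 1) N, (T (Eij k j) + T (Eij j k)) ≤
        (if k = 0 then 1 else 1 - θ ^ 4 / 2) * (A ^ 3 * B ^ 3) * D := by
    intro k hk A B hA0 hB0 hA hB
    set E1 := E.filter (fun e => vp e.1 = k ∧ k ≤ vp e.2) with hE1
    set E2 := E.filter (fun e => k + 1 ≤ vp e.1 ∧ vp e.2 = k) with hE2
    have hdis : Disjoint E1 E2 := by
      rw [disjoint_left]; intro e h1 h2
      rw [hE1, mem_filter] at h1
      rw [hE2, mem_filter] at h2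
      omega
    have s1 : ∑ j ∈ Ico k N, T (Eij k j) = T E1 := by
      simp only [hT]
      rw [← sum_fiberwise_of_maps_to (s := E1) (t := Ico k N) (g := fun e => vp e.2)
        (fun e he => by
          rw [hE1, mem_filter] at he
          exact mem_Ico.2 ⟨he.2.2, hWN _ (mem_product.1 (hE he.1)).2⟩)]
      refine sum_congr rfl fun j hj => ?_
      rw [hE1, filter_filter]
      refine sum_congr ?_ fun _ _ => rfl
      ext e
      simp only [hEij, mem_filter]
      have := (mem_Ico.1 hj).1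
      constructor
      · rintro ⟨h1, h2, h3⟩; exact ⟨h1, ⟨h2, by omega⟩, h3⟩
      · rintro ⟨h1, ⟨h2, _⟩, h3⟩; exact ⟨h1, h2, h3⟩
    have s2 : ∑ j ∈ Ico (k + 1) N, T (Eij j k) = T E2 := by
      simp only [hT]
      rw [← sum_fiberwise_of_maps_to (s := E2) (t := Ico (k + 1) N) (g := fun e => vp e.1)
        (fun e he => by
          rw [hE2, mem_filter] at he
          exact mem_Ico.2 ⟨he.2.1, hVN _ (mem_product.1 (hE he.1)).1⟩)]
      refine sum_congr rfl fun j hj => ?_
      rw [hE2, filter_filter]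
      refine sum_congr ?_ fun _ _ => rfl
      ext e
      simp only [hEij, mem_filter]
      have := (mem_Ico.1 hj).1
      constructor
      · rintro ⟨h1, h2, h3⟩; exact ⟨h1, ⟨by omega, h3⟩, h2⟩
      · rintro ⟨h1, ⟨_, h3⟩, h2⟩; exact ⟨h1, h2, h3⟩
    have s3 : T (Eij k k) + ∑ j ∈ Ico (k + 1) N, (T (Eij k j) + T (Eij j k)) = T (E1 ∪ E2) := by
      simp only [hT]
      rw [sum_union hdis]
      simp only [hT] at s1 s2
      rw [← s1, ← s2, sum_add_distrib, sum_eq_sum_Ico_succ_bot hk]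
      ring
    rw [s3]
    set V' := V.filter (fun v => k ≤ vp v) with hV'
    set W' := W.filter (fun v => k ≤ vp v) with hW'
    have hmV : rt (muV V') = A * rt (muV V) := by
      have h1 : (A * rt (muV V)) ^ 4 = muV V' := by
        rw [mul_pow, hA, rt_pow _ (hmuV0 V)]
        simp only [hX4]
        rw [← sum_div, sumV k]
        field_simp
        rfl
      rw [← h1, rt_of_pow _ (by positivity)]
    have hmW : rt (muW W') = B * rt (muW W) := by
      have h1 : (B * rt (muW W)) ^ 4 = muW W' := by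
        rw [mul_pow, hB, rt_pow _ (hmuW0 W)]
        simp only [hY4]
        rw [← sum_div, sumW k]
        field_simp
        rfl
      rw [← h1, rt_of_pow _ (by positivity)]
    have hmin : ∀ e ∈ E1 ∪ E2, min (vp e.1) (vp e.2) = k := by
      intro e he
      rcases mem_union.1 he with h1 | h1
      · rw [hE1, mem_filter] at h1; omega
      · rw [hE2, mem_filter] at h1; omega
    have c1 : 0 < a * p ^ k := by have := hp.pos; positivity
    have c2 : 0 < b * p ^ k := by have := hp.pos; positivity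
    have c3 : 0 < g * (p : ℝ) ^ k := by positivity
    have c4 : ∀ q ∈ Q, ¬ q ∣ a * p ^ k := fun q hq hd => by
        have hqp := hQ q hq
        rcases (hqp.dvd_mul).1 hd with h1 | h1
        · exact hQa q hq h1
        · have := (Nat.prime_dvd_prime_iff_eq hqp hp).1 (hqp.dvd_of_dvd_pow h1)
          exact hpQ (this ▸ hq)
    have c5 : ∀ q ∈ Q, ¬ q ∣ b * p ^ k := fun q hq hd => by
        have hqp := hQ q hq
        rcases (hqp.dvd_mul).1 hd with h1 | h1
        · exact hQb q hq h1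
        · have := (Nat.prime_dvd_prime_iff_eq hqp hp).1 (hqp.dvd_of_dvd_pow h1)
          exact hpQ (this ▸ hq)
    have c6 : E1 ∪ E2 ⊆ E := union_subset (filter_subset _ _) (filter_subset _ _)
    have c7 : E1 ∪ E2 ⊆ V' ×ˢ W' := by
      intro e he
      have h2 := mem_product.1 (hE (c6 he))
      have h3 := hmin e he
      exact mem_product.2 ⟨mem_filter.2 ⟨h2.1, by omega⟩, mem_filter.2 ⟨h2.2, by omega⟩⟩
    have c8 : ∀ v ∈ V', 0 < v ∧ a * p ^ k ∣ v := fun v hv => by
        have hv' := mem_filter.1 hv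
        have h2 := hV v hv'.1
        refine ⟨h2.1, ?_⟩
        exact Nat.Coprime.mul_dvd_of_dvd_of_dvd
          (Nat.Coprime.pow_right _ ((Nat.Prime.coprime_iff_not_dvd hp).2 hpa').symm) h2.2
          (hpdvd v k h2.1 hv'.2)
    have c9 : ∀ v ∈ W', 0 < v ∧ b * p ^ k ∣ v := fun v hv => by
        have hv' := mem_filter.1 hv
        have h2 := hW v hv'.1
        refine ⟨h2.1, ?_⟩
        exact Nat.Coprime.mul_dvd_of_dvd_of_dvd
          (Nat.Coprime.pow_right _ ((Nat.Prime.coprime_iff_not_dvd hp).2 hpb').symm) h2.2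
          (hpdvd v k h2.1 hv'.2)
    have c10 : ∀ e ∈ E1 ∪ E2, g * gQ (insert p Q) e.1 e.2 = g * (p : ℝ) ^ k * gQ Q e.1 e.2 := by
      intro e he
      rw [gQ_insert Q p hpQ, show min (e.1.factorization p) (e.2.factorization p) = k from hmin e he]
      push_cast; ring
    have hGG : (g * (p : ℝ) ^ k) ^ 2 / (((a * p ^ k : ℕ) : ℝ) * ((b * p ^ k : ℕ) : ℝ)) = G := by
      rw [hG]; push_cast; field_simp
    have e1 : C * rt G * (rt (muV V') * rt (muW W')) ^ 3 = (A ^ 3 * B ^ 3) * D := by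
      rw [hmV, hmW, hD]; ring
    rcases Nat.eq_zero_or_pos k with hk0 | hkpos
    · have h1 := lemA V' W' (E1 ∪ E2) (a * p ^ k) (b * p ^ k) (g * (p : ℝ) ^ k) c1 c2 c3 c4 c5 c6 c7
        c8 c9 c10
      rw [hGG, e1] at h1
      rw [if_pos hk0, one_mul]
      exact h1
    · have h1 := lemB V' W' (E1 ∪ E2) (a * p ^ k) (b * p ^ k) (g * (p : ℝ) ^ k) c1 c2 c3 c4 c5 c6 c7
        c8 c9
        (fun v hv => by
          have hv' := mem_filter.1 hv
          have h2 := hV v hv'.1
          have h3 := hpdvd v 1 h2.1 (by have := hv'.2; omega)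
          simpa using h3)
        (fun v hv => by
          have hv' := mem_filter.1 hv
          have h2 := hW v hv'.1
          have h3 := hpdvd v 1 h2.1 (by have := hv'.2; omega)
          simpa using h3) c10
      rw [hGG, e1] at h1
      rw [if_neg (by omega), mul_assoc (1 - θ ^ 4 / 2)]
      refine h1.trans ?_
      have : 0 ≤ A ^ 3 * B ^ 3 * D := by positivity
      exact mul_le_mul_of_nonneg_right hrc this
  -- apply the one-prime lemma
  have key := hB N X Y hX0 hY0 hXs hYs (fun i j => T (Eij i j) / D)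
    (fun i j => div_nonneg (hT0 _) hDpos.le)
    (fun i hi j hj => by
      rw [div_le_iff₀ hDpos]; exact hind i hi j hj)
    (fun i hi h1 => by
      rw [div_le_iff₀ hDpos]; exact hindB i hi h1)
    (fun k hk A B hA0 hB0 hA hB => by
      have h1 := hmer k hk A B hA0 hB0 hA hB
      have e1 : T (Eij k k) / D + ∑ j ∈ Ico (k + 1) N, (T (Eij k j) / D + T (Eij j k) / D) =
          (T (Eij k k) + ∑ j ∈ Ico (k + 1) N, (T (Eij k j) + T (Eij j k))) / D := by
        rw [add_div]
        congr 1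
        rw [sum_div]
        refine sum_congr rfl fun j _ => ?_
        rw [add_div]
      rw [e1, div_le_iff₀ hDpos]
      exact h1)
  -- total
  have htot : ∑ e ∈ E, (if e.1.factorization p = e.2.factorization p then 1 else f p) * h e =
      ∑ i ∈ range N, ∑ j ∈ range N, (if i = j then T (Eij i j) else f p * T (Eij i j)) := by
    rw [← sum_fiberwise_of_maps_to (s := E) (t := range N) (g := fun e => vp e.1)
      (fun e he => mem_range.2 (hVN _ (mem_product.1 (hE he)).1))]
    refine sum_congr rfl fun i _ => ?_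
    rw [← sum_fiberwise_of_maps_to (s := E.filter (fun e => vp e.1 = i)) (t := range N)
      (g := fun e => vp e.2)
      (fun e he => mem_range.2 (hWN _ (mem_product.1 (hE (mem_filter.1 he).1)).2))]
    refine sum_congr rfl fun j _ => ?_
    rw [filter_filter]
    have e1 : ∀ e ∈ E.filter (fun e => vp e.1 = i ∧ vp e.2 = j),
        (if e.1.factorization p = e.2.factorization p then 1 else f p) * h e =
        (if i = j then 1 else f p) * h e := by
      intro e he
      rw [mem_filter] at he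
      rw [show e.1.factorization p = i from he.2.1, show e.2.factorization p = j from he.2.2]
    rw [sum_congr rfl e1, ← mul_sum]
    simp only [hT, hEij]
    split_ifs
    · rw [one_mul]
    · rfl
  rw [htot]
  have e2 : ∑ i ∈ range N, ∑ j ∈ range N, (if i = j then T (Eij i j) else f p * T (Eij i j)) =
      (∑ i ∈ range N, ∑ j ∈ range N, (if i = j then T (Eij i j) / D else
        f p * (T (Eij i j) / D))) * D := by
    rw [sum_mul]
    refine sum_congr rfl fun i _ => ?_
    rw [sum_mul]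
    refine sum_congr rfl fun j _ => ?_
    split_ifs
    · field_simp
    · field_simp
  rw [e2]
  calc _ ≤ B * D := mul_le_mul_of_nonneg_right key hDpos.le
    _ = C * B * rt G * (rt (muV V) * rt (muW W)) ^ 3 := by rw [hD]; ring

end Pool.Agent.K7.H64.DS
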