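import Mathlib
import Pool.Agent.K7.H64.DS.Step

set_option autoImplicit false
set_option maxHeartbeats 1000000

/-!
# The bilinear bound of Koukoulopoulos-Maynard type, with weights
-/

namespace Pool.Agent.K7.H64.DS

open Finset

/-- the constant for the prime `p` -/
noncomputable def Bp (F : ℝ) (f : ℕ → ℝ) (p : ℕ) : ℝ :=
  if rt (1 / (p : ℝ)) * (10 ^ 5 * F ^ 3) ≤ 1 then
    1 + 10 ^ 12 * F ^ 7 * (rt (1 / (p : ℝ)) ^ 5 + (f p - 1) * rt (1 / (p : ℝ)) ^ 4)
  else 2 * F / (1 - rt (1 / (p : ℝ)))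

lemma rt_half_lt : rt (1 / 2) < 1 := by
  have h := rt_pow (1 / 2) (by norm_num)
  by_contra hneg
  push Not at hneg
  have : (1 : ℝ) ≤ rt (1 / 2) ^ 4 := one_le_pow₀ hneg
  linarith

lemma rt_prime_le (p : ℕ) (hp : p.Prime) : rt (1 / (p : ℝ)) ≤ rt (1 / 2) := by
  apply rt_mono
  have : (2 : ℝ) ≤ p := by exact_mod_cast hp.two_le
  apply one_div_le_one_div_of_le <;> linarith

lemma Bp_LB (F : ℝ) (hF : 1 ≤ F) (f : ℕ → ℝ) (p : ℕ) (hp : p.Prime) (h1 : 1 ≤ f p)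
    (h2 : f p ≤ F) : LB (rt (1 / (p : ℝ))) (f p) (Bp F f p) := by
  intro N x y hx hy hxs hys s hs k1 k2 k3
  have hp0 : (0 : ℝ) < p := by exact_mod_cast hp.pos
  have hθ : 0 < rt (1 / (p : ℝ)) := rt_pos (by positivity)
  rw [Bp]
  split_ifs with hsmall
  · exact local_lemma F hF _ (f p) hθ hsmall h1 h2 N x y hx hy hxs hys s hs k1 k2 k3
  · exact local_crude F hF _ (f p) hθ ((rt_prime_le p hp).trans_lt rt_half_lt) h1 h2 N x y hx hy
      hxs hys s hs k1

lemma Bp_ge (F : ℝ) (hF : 1 ≤ F) (f : ℕ → ℝ) (p : ℕ) (hp : p.Prime) (h1 : 1 ≤ f p) :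
    1 ≤ Bp F f p := by
  have hp0 : (0 : ℝ) < p := by exact_mod_cast hp.pos
  have hθ : 0 < rt (1 / (p : ℝ)) := rt_pos (by positivity)
  have hθ1 := (rt_prime_le p hp).trans_lt rt_half_lt
  rw [Bp]
  have h3 : 0 ≤ f p - 1 := by linarith
  split_ifs
  · have : 0 ≤ 10 ^ 12 * F ^ 7 * (rt (1 / (p : ℝ)) ^ 5 + (f p - 1) * rt (1 / (p : ℝ)) ^ 4) := by
      positivity
    linarith
  · rw [le_div_iff₀ (by linarith)]
    nlinarith

lemma claim_all (F : ℝ) (hF : 1 ≤ F) (f : ℕ → ℝ) (Q : Finset ℕ) (hQ : ∀ q ∈ Q, q.Prime)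
    (h1 : ∀ q, 1 ≤ f q) (h2 : ∀ q, f q ≤ F) : Claim f Q (2 * ∏ q ∈ Q, Bp F f q) := by
  induction Q using Finset.induction_on with
  | empty => simpa using claim_base f
  | insert p Q hpQ ih =>
    have hQ' : ∀ q ∈ Q, q.Prime := fun q hq => hQ q (mem_insert_of_mem hq)
    have hp : p.Prime := hQ p (mem_insert_self _ _)
    have hC : 0 < 2 * ∏ q ∈ Q, Bp F f q := by
      have : 0 < ∏ q ∈ Q, Bp F f q :=
        prod_pos fun q hq => lt_of_lt_of_le one_pos (Bp_ge F hF f q (hQ' q hq) (h1 q))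
      linarith
    have h3 := claim_step f Q hQ' p hp hpQ _ hC (fun q _ => zero_le_one.trans (h1 q))
      (Bp F f p) (zero_le_one.trans (Bp_ge F hF f p hp (h1 p)))
      (Bp_LB F hF f p hp (h1 p) (h2 p)) (ih hQ')
    rw [prod_insert hpQ]
    convert h3 using 1
    ring

/-- the weight function -/
noncomputable def fw (B : ℝ) (t : ℕ) (p : ℕ) : ℝ := if t < p then Real.exp (B * t / p) else 1

lemma fw_ge (B : ℝ) (hB : 0 ≤ B) (t p : ℕ) : 1 ≤ fw B t p := by
  rw [fw]; split_ifs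
  · exact Real.one_le_exp (by positivity)
  · exact le_rfl

lemma fw_le (B : ℝ) (hB : 0 ≤ B) (t p : ℕ) : fw B t p ≤ Real.exp B := by
  rw [fw]; split_ifs with h
  · apply Real.exp_le_exp.2
    have h1 : (t : ℝ) ≤ p := by exact_mod_cast h.le
    have h2 : (0 : ℝ) < p := by
      have : 0 < p := by omega
      exact_mod_cast this
    rw [div_le_iff₀ h2]
    exact mul_le_mul_of_nonneg_left h1 hB
  · exact Real.one_le_exp hB

lemma fw_sub (B : ℝ) (hB : 0 ≤ B) (t p : ℕ) :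
    fw B t p - 1 ≤ if t < p then Real.exp B * (B * t / p) else 0 := by
  rw [fw]; split_ifs with h
  · have h1 : (t : ℝ) ≤ p := by exact_mod_cast h.le
    have h2 : (0 : ℝ) < p := by
      have : 0 < p := by omega
      exact_mod_cast this
    set u := B * t / p with hu
    have hu0 : 0 ≤ u := by positivity
    have huB : u ≤ B := by
      rw [hu, div_le_iff₀ h2]; exact mul_le_mul_of_nonneg_left h1 hB
    have h3 : Real.exp u - 1 ≤ u * Real.exp u := by
      have := Real.add_one_le_exp (-u)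
      have h4 : Real.exp (-u) * Real.exp u = 1 := by rw [← Real.exp_add]; simp
      nlinarith [Real.exp_pos u]
    have h5 : Real.exp u ≤ Real.exp B := Real.exp_le_exp.2 huB
    nlinarith
  · simp

lemma sum_theta5 (Q : Finset ℕ) : ∑ p ∈ Q, rt (1 / (p : ℝ)) ^ 5 ≤
    ∑' n : ℕ, 1 / (n : ℝ) ^ (5 / 4 : ℝ) := by
  have hs : Summable (fun n : ℕ => 1 / (n : ℝ) ^ (5 / 4 : ℝ)) :=
    Real.summable_one_div_nat_rpow.2 (by norm_num)
  have he : ∀ n : ℕ, rt (1 / (n : ℝ)) ^ 5 = 1 / (n : ℝ) ^ (5 / 4 : ℝ) := by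
    intro n
    have h0 : (0 : ℝ) ≤ 1 / (n : ℝ) := by positivity
    rw [rt, Real.sqrt_eq_rpow, Real.sqrt_eq_rpow, ← Real.rpow_mul h0, ← Real.rpow_natCast,
      ← Real.rpow_mul h0, Real.div_rpow (by norm_num) (Nat.cast_nonneg n), Real.one_rpow]
    norm_num
  rw [sum_congr rfl fun p _ => he p]
  exact hs.sum_le_tsum Q fun n _ => by positivity

lemma sum_weight (B : ℝ) (hB : 0 ≤ B) (t : ℕ) (ht : 1 ≤ t) (Q : Finset ℕ) :
    ∑ p ∈ Q, (fw B t p - 1) * rt (1 / (p : ℝ)) ^ 4 ≤ Real.exp B * B := by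
  have h1 : ∀ p ∈ Q, (fw B t p - 1) * rt (1 / (p : ℝ)) ^ 4 ≤
      if t < p then Real.exp B * B * t * ((p : ℝ) ^ 2)⁻¹ else 0 := by
    intro p _
    rw [rt_pow _ (by positivity)]
    have h2 := fw_sub B hB t p
    split_ifs at h2 ⊢ with h
    · have h3 : (0 : ℝ) < p := by
        have : 0 < p := by omega
        exact_mod_cast this
      calc (fw B t p - 1) * (1 / (p : ℝ)) ≤ Real.exp B * (B * t / p) * (1 / (p : ℝ)) := by gcongr
        _ = _ := by field_simp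
    · have h3 : 0 ≤ 1 / (p : ℝ) := by positivity
      nlinarith
  refine (sum_le_sum h1).trans ?_
  rw [← sum_filter]
  set M := max (Q.sup id) (t + 1) with hM
  have hsub : Q.filter (fun p => t < p) ⊆ Ioc t M := by
    intro p hp
    rw [mem_filter] at hp
    exact mem_Ioc.2 ⟨hp.2, le_max_of_le_left (le_sup (f := id) hp.1)⟩
  have ht0 : (0 : ℝ) < t := by exact_mod_cast ht
  calc ∑ p ∈ Q.filter (fun p => t < p), Real.exp B * B * t * ((p : ℝ) ^ 2)⁻¹
      ≤ ∑ p ∈ Ioc t M, Real.exp B * B * t * ((p : ℝ) ^ 2)⁻¹ :=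
        sum_le_sum_of_subset_of_nonneg hsub fun _ _ _ => by positivity
    _ = Real.exp B * B * t * ∑ p ∈ Ioc t M, ((p : ℝ) ^ 2)⁻¹ := by rw [mul_sum]
    _ ≤ Real.exp B * B * t * ((t : ℝ)⁻¹ - (M : ℝ)⁻¹) := by
        have := sum_Ioc_inv_sq_le_sub (α := ℝ) (show t ≠ 0 by omega) (show t ≤ M by omega)
        gcongr
    _ ≤ Real.exp B * B * t * (t : ℝ)⁻¹ := by
        have : (0 : ℝ) ≤ (M : ℝ)⁻¹ := by positivity
        gcongr
        linarith
    _ = Real.exp B * B := by field_simp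

lemma prod_Bp_le (B : ℝ) (hB : 0 ≤ B) : ∃ C : ℝ, 0 < C ∧ ∀ t : ℕ, 1 ≤ t → ∀ Q : Finset ℕ,
    (∀ q ∈ Q, q.Prime) → ∏ q ∈ Q, Bp (Real.exp B) (fw B t) q ≤ C := by
  set F := Real.exp B with hF
  have hF1 : 1 ≤ F := Real.one_le_exp hB
  set P0 : ℕ := ⌈(10 ^ 5 * F ^ 3) ^ 4⌉₊ + 1 with hP0
  set M : ℝ := 2 * F / (1 - rt (1 / 2)) with hM
  have hden : 0 < 1 - rt (1 / 2) := by have := rt_half_lt; linarith
  have hM1 : 1 ≤ M := by
    rw [hM, le_div_iff₀ hden]
    have := rt_nonneg (1 / 2)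
    nlinarith
  set K := 10 ^ 12 * F ^ 7 with hK
  have hK0 : 0 < K := by positivity
  set S1 := ∑' n : ℕ, 1 / (n : ℝ) ^ (5 / 4 : ℝ) with hS1
  refine ⟨M ^ P0 * Real.exp (K * (S1 + F * B)), by positivity, fun t ht Q hQ => ?_⟩
  have h1 : ∀ q ∈ Q, Bp F (fw B t) q ≤ (if q < P0 then M else 1) *
      Real.exp (K * (rt (1 / (q : ℝ)) ^ 5 + (fw B t q - 1) * rt (1 / (q : ℝ)) ^ 4)) := by
    intro q hq
    have hqp := hQ q hq
    have hq0 : (0 : ℝ) < q := by exact_mod_cast hqp.pos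
    have hθ : 0 < rt (1 / (q : ℝ)) := rt_pos (by positivity)
    have hf := fw_ge B hB t q
    have hf0 : 0 ≤ fw B t q - 1 := by linarith
    have hexp : 1 ≤ Real.exp (K * (rt (1 / (q : ℝ)) ^ 5 + (fw B t q - 1) * rt (1 / (q : ℝ)) ^ 4)) :=
      Real.one_le_exp (by positivity)
    rw [Bp]
    split_ifs with hs hP hP
    · have h2 := Real.add_one_le_exp
        (K * (rt (1 / (q : ℝ)) ^ 5 + (fw B t q - 1) * rt (1 / (q : ℝ)) ^ 4))
      nlinarith
    · have h2 := Real.add_one_le_exp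
        (K * (rt (1 / (q : ℝ)) ^ 5 + (fw B t q - 1) * rt (1 / (q : ℝ)) ^ 4))
      linarith
    · have h3 : 2 * F / (1 - rt (1 / (q : ℝ))) ≤ M := by
        rw [hM]
        have := rt_prime_le q hqp
        gcongr
      nlinarith
    · exfalso
      push Not at hs hP
      have h4 : (q : ℝ) < (10 ^ 5 * F ^ 3) ^ 4 := by
        have h5 : 1 < (rt (1 / (q : ℝ)) * (10 ^ 5 * F ^ 3)) ^ 4 := one_lt_pow₀ hs (by norm_num)
        rw [mul_pow, rt_pow _ (by positivity)] at h5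
        rw [one_div, inv_mul_eq_div, lt_div_iff₀ hq0, one_mul] at h5
        exact h5
      have h6 : (P0 : ℝ) ≤ q := by exact_mod_cast hP
      have h7 : (10 ^ 5 * F ^ 3) ^ 4 ≤ (⌈(10 ^ 5 * F ^ 3) ^ 4⌉₊ : ℝ) := Nat.le_ceil _
      have h8 : (P0 : ℝ) = (⌈(10 ^ 5 * F ^ 3) ^ 4⌉₊ : ℝ) + 1 := by rw [hP0]; push_cast; ring
      linarith
  calc ∏ q ∈ Q, Bp F (fw B t) q
      ≤ ∏ q ∈ Q, ((if q < P0 then M else 1) *
      Real.exp (K * (rt (1 / (q : ℝ)) ^ 5 + (fw B t q - 1) * rt (1 / (q : ℝ)) ^ 4))) := by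
        refine prod_le_prod (fun q hq => ?_) h1
        exact zero_le_one.trans (Bp_ge F hF1 _ q (hQ q hq) (fw_ge B hB t q))
    _ = (∏ q ∈ Q, (if q < P0 then M else 1)) *
        Real.exp (K * (∑ q ∈ Q, rt (1 / (q : ℝ)) ^ 5 +
          ∑ q ∈ Q, (fw B t q - 1) * rt (1 / (q : ℝ)) ^ 4)) := by
        rw [prod_mul_distrib, ← Real.exp_sum, ← mul_sum, sum_add_distrib]
    _ ≤ M ^ P0 * Real.exp (K * (S1 + F * B)) := by
        have h2 := sum_theta5 Q
        have h3 := sum_weight B hB t ht Q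
        have h4 : ∏ q ∈ Q, (if q < P0 then M else 1) ≤ M ^ P0 := by
          rw [prod_ite]
          simp only [prod_const, one_pow, mul_one]
          apply pow_le_pow_right₀ hM1
          calc (Q.filter (fun q => q < P0)).card ≤ (range P0).card := by
                apply card_le_card
                intro q hq
                exact mem_range.2 (mem_filter.1 hq).2
            _ = P0 := card_range _
        have h5 : 0 ≤ ∏ q ∈ Q, (if q < P0 then M else (1 : ℝ)) := by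
          refine prod_nonneg fun q _ => ?_
          split_ifs <;> linarith
        gcongr

/-- the sum of `1/p` over the primes `p > t` at which `v` and `w` have different valuations -/
noncomputable def Lt (t v w : ℕ) : ℝ :=
  ∑ p ∈ (v * w).primeFactors.filter (fun p => t < p ∧ v.factorization p ≠ w.factorization p),
    1 / (p : ℝ)

/-- **The weighted bilinear bound.** -/
theorem thmK (B : ℝ) (hB : 0 ≤ B) : ∃ C : ℝ, 0 < C ∧ ∀ t : ℕ, 1 ≤ t →
    ∀ (V W : Finset ℕ) (E : Finset (ℕ × ℕ)), E ⊆ V ×ˢ W → (∀ v ∈ V, 0 < v) → (∀ w ∈ W, 0 < w) →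
    ∀ x y : ℕ → ℝ, (∀ v, 0 ≤ x v) → (∀ w, 0 ≤ y w) →
    (∀ e ∈ E, (e.2 : ℝ) * x e.1 ≤ Nat.gcd e.1 e.2 ∧ (e.1 : ℝ) * y e.2 ≤ Nat.gcd e.1 e.2) →
    ∑ e ∈ E, ((Nat.totient e.1 : ℝ) / e.1 * x e.1) * ((Nat.totient e.2 : ℝ) / e.2 * y e.2) *
      Real.exp (B * t * Lt t e.1 e.2) ≤
    C * (rt (∑ v ∈ V, (Nat.totient v : ℝ) / v * x v) *
      rt (∑ w ∈ W, (Nat.totient w : ℝ) / w * y w)) ^ 3 := by
  obtain ⟨C, hC, hprod⟩ := prod_Bp_le B hB
  refine ⟨2 * C, by positivity, fun t ht V W E hE hV hW x y hx hy hcond => ?_⟩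
  set F := Real.exp B with hF
  have hF1 : 1 ≤ F := Real.one_le_exp hB
  set Q : Finset ℕ := V.biUnion Nat.primeFactors ∪ W.biUnion Nat.primeFactors with hQdef
  have hQ : ∀ q ∈ Q, q.Prime := by
    intro q hq
    rcases mem_union.1 hq with h | h <;>
    · obtain ⟨v, _, h2⟩ := mem_biUnion.1 h
      exact Nat.prime_of_mem_primeFactors h2
  have hcl := claim_all F hF1 (fw B t) Q hQ (fw_ge B hB t) (fw_le B hB t)
  have hkap : ∀ v : ℕ, 0 < v → v.primeFactors ⊆ Q → kap Q v = (Nat.totient v : ℝ) / v := by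
    intro v hv hsub
    have hv0 : (v : ℝ) ≠ 0 := by exact_mod_cast hv.ne'
    have h1 : (Nat.totient v : ℝ) = v * ∏ p ∈ v.primeFactors, (1 - (p : ℝ)⁻¹) := by
      have := Nat.totient_eq_mul_prod_factors v
      have h2 := congrArg (fun q : ℚ => (q : ℝ)) this
      push_cast at h2
      exact h2
    rw [h1, mul_div_cancel_left₀ _ hv0, kap, ← prod_filter]
    have h2 : Q.filter (fun p => p ∣ v) = v.primeFactors := by
      ext p
      rw [mem_filter, Nat.mem_primeFactors]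
      constructor
      · rintro ⟨h3, h4⟩; exact ⟨hQ p h3, h4, hv.ne'⟩
      · rintro ⟨h3, h4, h5⟩
        exact ⟨hsub (Nat.mem_primeFactors.2 ⟨h3, h4, h5⟩), h4⟩
    rw [h2]
    refine prod_congr rfl fun p _ => by rw [one_div]
  have hVQ : ∀ v ∈ V, v.primeFactors ⊆ Q := fun v hv =>
    (subset_biUnion_of_mem Nat.primeFactors hv).trans subset_union_left
  have hWQ : ∀ v ∈ W, v.primeFactors ⊆ Q := fun v hv =>
    (subset_biUnion_of_mem Nat.primeFactors hv).trans subset_union_right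
  have hgcd : ∀ e ∈ E, gQ Q e.1 e.2 = Nat.gcd e.1 e.2 := by
    intro e he
    have h1 := mem_product.1 (hE he)
    have hv := hV e.1 h1.1
    have hw := hW e.2 h1.2
    have hg : Nat.gcd e.1 e.2 ≠ 0 := (Nat.gcd_pos_of_pos_left _ hv).ne'
    rw [← Nat.prod_factorization_pow_eq_self hg, gQ]
    rw [Finsupp.prod_of_support_subset (s := Q)]
    · refine prod_congr rfl fun p _ => ?_
      rw [Nat.factorization_gcd hv.ne' hw.ne']
      rfl
    · intro p hp
      rw [Nat.support_factorization] at hp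
      exact hVQ e.1 h1.1 (Nat.primeFactors_mono (Nat.gcd_dvd_left _ _) hv.ne' hp)
    · intro i _; simp
  have hFQ : ∀ e ∈ E, FQ (fw B t) Q e.1 e.2 = Real.exp (B * t * Lt t e.1 e.2) := by
    intro e he
    have h1 := mem_product.1 (hE he)
    have hv := hV e.1 h1.1
    have hw := hW e.2 h1.2
    rw [Lt, mul_sum, Real.exp_sum, FQ]
    have h2 : ∀ p ∈ Q, (if e.1.factorization p = e.2.factorization p then (1 : ℝ) else fw B t p) =
        if (t < p ∧ e.1.factorization p ≠ e.2.factorization p) then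
          Real.exp (B * t * (1 / (p : ℝ))) else 1 := by
      intro p _
      rw [fw]
      by_cases c1 : e.1.factorization p = e.2.factorization p
      · simp [c1]
      · by_cases c2 : t < p
        · simp only [c1, c2, if_false, if_true, ne_eq, not_false_eq_true, and_self]
          congr 1; ring
        · simp [c1, c2]
    rw [prod_congr rfl h2, ← prod_filter]
    refine prod_congr ?_ fun _ _ => rfl
    ext p
    simp only [mem_filter, Nat.mem_primeFactors]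
    constructor
    · rintro ⟨h3, h4, h5⟩
      refine ⟨⟨hQ p h3, ?_, by positivity⟩, h4, h5⟩
      by_contra hnd
      apply h5
      rw [Nat.factorization_eq_zero_of_not_dvd fun h => hnd (h.mul_right _),
        Nat.factorization_eq_zero_of_not_dvd fun h => hnd (h.mul_left _)]
    · rintro ⟨⟨h3, h4, h5⟩, h6, h7⟩
      refine ⟨?_, h6, h7⟩
      rcases (h3.dvd_mul).1 h4 with h | h
      · exact hVQ e.1 h1.1 (Nat.mem_primeFactors.2 ⟨h3, h, hv.ne'⟩)
      · exact hWQ e.2 h1.2 (Nat.mem_primeFactors.2 ⟨h3, h, hw.ne'⟩)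
  have key := hcl 1 1 1 one_pos one_pos one_pos
    (fun q hq h => (hQ q hq).one_lt.ne' (Nat.dvd_one.1 h))
    (fun q hq h => (hQ q hq).one_lt.ne' (Nat.dvd_one.1 h)) V W E hE
    (fun v hv => ⟨hV v hv, one_dvd _⟩) (fun v hv => ⟨hW v hv, one_dvd _⟩) x y hx hy
    (fun e he => by
      rw [hgcd e he, one_mul]; exact hcond e he)
  have e1 : ∑ e ∈ E, kap Q e.1 * kap Q e.2 * x e.1 * y e.2 * FQ (fw B t) Q e.1 e.2 =
      ∑ e ∈ E, ((Nat.totient e.1 : ℝ) / e.1 * x e.1) * ((Nat.totient e.2 : ℝ) / e.2 * y e.2) *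
      Real.exp (B * t * Lt t e.1 e.2) := by
    refine sum_congr rfl fun e he => ?_
    have h1 := mem_product.1 (hE he)
    rw [hFQ e he, hkap e.1 (hV _ h1.1) (hVQ _ h1.1), hkap e.2 (hW _ h1.2) (hWQ _ h1.2)]
    ring
  have e2 : ∑ v ∈ V, kap Q v * x v = ∑ v ∈ V, (Nat.totient v : ℝ) / v * x v :=
    sum_congr rfl fun v hv => by rw [hkap v (hV v hv) (hVQ v hv)]
  have e3 : ∑ v ∈ W, kap Q v * y v = ∑ v ∈ W, (Nat.totient v : ℝ) / v * y v :=
    sum_congr rfl fun v hv => by rw [hkap v (hW v hv) (hWQ v hv)]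
  have e4 : rt ((1 : ℝ) ^ 2 / ((1 : ℕ) * (1 : ℕ))) = 1 := by
    have : ((1 : ℝ) ^ 2 / ((1 : ℕ) * (1 : ℕ))) = 1 ^ 4 := by norm_num
    rw [this, rt_of_pow 1 (by norm_num)]
  rw [e1, e2, e3, e4] at key
  refine key.trans ?_
  have h3 := hprod t ht Q hQ
  have h4 : 0 ≤ (rt (∑ v ∈ V, (Nat.totient v : ℝ) / v * x v) *
      rt (∑ w ∈ W, (Nat.totient w : ℝ) / w * y w)) ^ 3 := by
    have := rt_nonneg (∑ v ∈ V, (Nat.totient v : ℝ) / v * x v)
    have := rt_nonneg (∑ w ∈ W, (Nat.totient w : ℝ) / w * y w)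
    positivity
  calc 2 * (∏ q ∈ Q, Bp F (fw B t) q) * 1 * _ ≤ 2 * C * 1 * _ := by gcongr
    _ = _ := by ring

end Pool.Agent.K7.H64.DS
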