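import Mathlib
import Pool.Agent.K7.H64.DS.Sol
import Pool.Agent.K7.H64.DS.ThmK

set_option autoImplicit false
set_option maxHeartbeats 1000000

/-!
# Summing the counts over an interval of differences
-/

namespace Pool.Agent.K7.H64.DS

open Finset

lemma one_le_prod_real (s : Finset ℕ) (f : ℕ → ℝ) (hf : ∀ i ∈ s, 1 ≤ f i) : 1 ≤ ∏ i ∈ s, f i := by
  calc (1 : ℝ) = ∏ i ∈ s, (1 : ℝ) := prod_const_one.symm
    _ ≤ ∏ i ∈ s, f i := prod_le_prod (fun _ _ => zero_le_one) hf

lemma prod_subset_real (s t : Finset ℕ) (h : s ⊆ t) (f : ℕ → ℝ) (hf : ∀ i ∈ t, 1 ≤ f i) :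
    ∏ i ∈ s, f i ≤ ∏ i ∈ t, f i := by
  rw [← prod_sdiff h]
  refine le_mul_of_one_le_left (prod_nonneg fun i hi => zero_le_one.trans (hf i (h hi))) ?_
  exact one_le_prod_real _ f fun i hi => hf i (mem_sdiff.1 hi).1

lemma inv_le_exp (u : ℝ) (h0 : 0 ≤ u) (h1 : u ≤ 1 / 2) : (1 - u)⁻¹ ≤ Real.exp (2 * u) := by
  have h2 : 0 < 1 - u := by linarith
  rw [inv_le_iff_one_le_mul₀ h2]
  have h3 := Real.add_one_le_exp (2 * u)
  nlinarith

/-- valuations differ iff the prime divides one of the cofactors -/
lemma val_ne_iff (m n : ℕ) (hm : 0 < m) (hn : 0 < n) (p : ℕ) (hp : p.Prime) :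
    m.factorization p ≠ n.factorization p ↔ (p ∣ m / Nat.gcd m n ∨ p ∣ n / Nat.gcd m n) := by
  set g := Nat.gcd m n with hg
  have hg0 : 0 < g := Nat.gcd_pos_of_pos_left _ hm
  set m1 := m / g with hm1
  set n1 := n / g with hn1
  have hmg : m = g * m1 := (Nat.mul_div_cancel' (Nat.gcd_dvd_left m n)).symm
  have hng : n = g * n1 := (Nat.mul_div_cancel' (Nat.gcd_dvd_right m n)).symm
  have hcop : Nat.Coprime m1 n1 := Nat.coprime_div_gcd_div_gcd hg0
  have hm10 : m1 ≠ 0 := fun h => by rw [h] at hmg; omega
  have hn10 : n1 ≠ 0 := fun h => by rw [h] at hng; omega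
  have e1 : m.factorization p = g.factorization p + m1.factorization p := by
    conv_lhs => rw [hmg]
    rw [Nat.factorization_mul hg0.ne' hm10]; rfl
  have e2 : n.factorization p = g.factorization p + n1.factorization p := by
    conv_lhs => rw [hng]
    rw [Nat.factorization_mul hg0.ne' hn10]; rfl
  rw [e1, e2]
  constructor
  · intro h
    by_contra hcon
    push Not at hcon
    apply h
    rw [Nat.factorization_eq_zero_of_not_dvd hcon.1, Nat.factorization_eq_zero_of_not_dvd hcon.2]
  · rintro (h | h)
    · have hpn : ¬ p ∣ n1 := fun h' => by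
        have := Nat.dvd_gcd h h'
        rw [hcop] at this
        exact hp.one_lt.ne' (Nat.dvd_one.1 this)
      rw [Nat.factorization_eq_zero_of_not_dvd hpn]
      have := (hp.dvd_iff_one_le_factorization hm10).1 h
      omega
    · have hpn : ¬ p ∣ m1 := fun h' => by
        have := Nat.dvd_gcd h' h
        rw [hcop] at this
        exact hp.one_lt.ne' (Nat.dvd_one.1 this)
      rw [Nat.factorization_eq_zero_of_not_dvd hpn]
      have := (hp.dvd_iff_one_le_factorization hn10).1 h
      omega

/-- mean local density -/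
noncomputable def mean (g p : ℕ) : ℝ := if p ∣ g then (1 - 1 / (p : ℝ)) ^ 2 else 1 - 1 / (p : ℝ)

lemma totient_div (n : ℕ) (hn : 0 < n) :
    (Nat.totient n : ℝ) / n = ∏ p ∈ n.primeFactors, (1 - 1 / (p : ℝ)) := by
  have hv0 : (n : ℝ) ≠ 0 := by exact_mod_cast hn.ne'
  have h1 : (Nat.totient n : ℝ) = n * ∏ p ∈ n.primeFactors, (1 - (p : ℝ)⁻¹) := by
    have := Nat.totient_eq_mul_prod_factors n
    have h2 := congrArg (fun q : ℚ => (q : ℝ)) this
    push_cast at h2
    exact h2
  rw [h1, mul_div_cancel_left₀ _ hv0]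
  refine prod_congr rfl fun p _ => by rw [one_div]

lemma prod_mean (m n : ℕ) (hm : 0 < m) (hn : 0 < n) :
    (Nat.totient m : ℝ) / m * ((Nat.totient n : ℝ) / n) =
      ∏ p ∈ (m * n).primeFactors, mean (Nat.gcd m n) p := by
  rw [totient_div m hm, totient_div n hn, Nat.primeFactors_mul hm.ne' hn.ne']
  have e1 : ∏ p ∈ m.primeFactors, (1 - 1 / (p : ℝ)) =
      ∏ p ∈ m.primeFactors ∪ n.primeFactors, (if p ∣ m then 1 - 1 / (p : ℝ) else 1) := by
    rw [← prod_filter]
    refine prod_congr ?_ fun _ _ => rfl
    ext p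
    simp only [mem_filter, mem_union, Nat.mem_primeFactors]
    have := hm.ne'
    tauto
  have e2 : ∏ p ∈ n.primeFactors, (1 - 1 / (p : ℝ)) =
      ∏ p ∈ m.primeFactors ∪ n.primeFactors, (if p ∣ n then 1 - 1 / (p : ℝ) else 1) := by
    rw [← prod_filter]
    refine prod_congr ?_ fun _ _ => rfl
    ext p
    simp only [mem_filter, mem_union, Nat.mem_primeFactors]
    have := hn.ne'
    tauto
  rw [e1, e2, ← prod_mul_distrib]
  refine prod_congr rfl fun p hp => ?_
  rw [mean]
  by_cases h1 : p ∣ m
  · by_cases h2 : p ∣ n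
    · rw [if_pos h1, if_pos h2, if_pos (Nat.dvd_gcd h1 h2)]; ring
    · rw [if_pos h1, if_neg h2, if_neg (fun h => h2 (h.trans (Nat.gcd_dvd_right _ _))), mul_one]
  · by_cases h2 : p ∣ n
    · rw [if_neg h1, if_pos h2, if_neg (fun h => h1 (h.trans (Nat.gcd_dvd_left _ _))), one_mul]
    · exfalso
      rcases mem_union.1 hp with h | h
      · exact h1 (Nat.dvd_of_mem_primeFactors h)
      · exact h2 (Nat.dvd_of_mem_primeFactors h)

theorem sol_sum (m n : ℕ) (hm : 0 < m) (hn : 0 < n) (z : ℕ) (a : ℤ) (l : ℕ) (E : ℝ)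
    (I : Finset ℤ) (hI : ∀ k ∈ I, a ≤ k ∧ k < a + l)
    (hE : ∀ k ∈ I, ∏ p ∈ k.natAbs.primeFactors.filter (fun p => z < p), (1 - 1 / (p : ℝ))⁻¹ ≤ E)
    (hI0 : ∀ k ∈ I, k ≠ 0) (hE0 : 0 ≤ E) :
    ∑ k ∈ I, ((Sol m n k).card : ℝ) ≤ ((l : ℝ) + primorial z) * Nat.gcd m n * E *
      ((Nat.totient m : ℝ) / m * ((Nat.totient n : ℝ) / n)) * Real.exp (2 * Lt z m n) := by
  classical
  set g := Nat.gcd m n with hg
  have hg0 : 0 < g := Nat.gcd_pos_of_pos_left _ hm
  set m1 := m / g with hm1
  set n1 := n / g with hn1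
  set U := (m * n).primeFactors with hU
  have hUp : ∀ p ∈ U, p.Prime := fun p hp => Nat.prime_of_mem_primeFactors hp
  have hu : ∀ p : ℕ, p.Prime → 0 ≤ 1 / (p : ℝ) ∧ 1 / (p : ℝ) ≤ 1 / 2 := by
    intro p hp
    have : (2 : ℝ) ≤ p := by exact_mod_cast hp.two_le
    exact ⟨by positivity, one_div_le_one_div_of_le (by norm_num) this⟩
  have hgU : g.primeFactors ⊆ U := by
    apply Nat.primeFactors_mono
    · exact (Nat.gcd_dvd_left m n).mul_right n
    · positivity
  set T := U.filter (fun p => p ≤ z) with hT
  have hTp : ∀ p ∈ T, p.Prime := fun p hp => hUp p (mem_filter.1 hp).1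
  -- local function for small primes
  set h : (p : ℕ) → ZMod p → ℝ := fun p x =>
    if p ∣ m1 ∨ p ∣ n1 then (if x = 0 then 0 else (if p ∣ g then 1 - 1 / (p : ℝ) else 1))
    else (if x = 0 then 1 - 1 / (p : ℝ) else 1 - 2 / (p : ℝ)) with hh
  have hh0 : ∀ p, p.Prime → ∀ x, 0 ≤ h p x := by
    intro p hp x
    obtain ⟨h1, h2⟩ := hu p hp
    have h3 : 2 / (p : ℝ) = 2 * (1 / (p : ℝ)) := by ring
    simp only [hh]
    split_ifs <;> linarith
  -- density for large primes
  set rh : ℕ → ℝ := fun p => if p ∣ m1 ∨ p ∣ n1 then 1 - 1 / (p : ℝ) else (1 - 1 / (p : ℝ)) ^ 2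
    with hrh
  have hrh0 : ∀ p, p.Prime → 0 ≤ rh p := by
    intro p hp
    obtain ⟨h1, h2⟩ := hu p hp
    simp only [hrh]
    split_ifs
    · linarith
    · positivity
  set R := ∏ p ∈ g.primeFactors.filter (fun p => z < p), rh p with hR
  have hR0 : 0 ≤ R := prod_nonneg fun p hp =>
    hrh0 p (Nat.prime_of_mem_primeFactors (mem_filter.1 hp).1)
  -- pointwise bound
  have hpt : ∀ k ∈ I, ((Sol m n k).card : ℝ) ≤ (g * R * E) * ∏ p ∈ T, h p (k : ZMod p) := by
    intro k hk
    have hprod0 : 0 ≤ ∏ p ∈ T, h p (k : ZMod p) := prod_nonneg fun p hp => hh0 p (hTp p hp) _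
    by_cases hex : ∃ p : ℕ, p.Prime ∧ (p : ℤ) ∣ k ∧ (p ∣ m1 ∨ p ∣ n1)
    · obtain ⟨p, hp, hpk, hc⟩ := hex
      rw [sol_empty m n k p hp hpk hc hm, card_empty, Nat.cast_zero]
      positivity
    push Not at hex
    refine (sol_card m n hm hn k).trans ?_
    rw [← hg, ← hm1, ← hn1]
    rw [mul_assoc, mul_assoc]
    refine mul_le_mul_of_nonneg_left ?_ (Nat.cast_nonneg g)
    have hsplit : ∏ p ∈ g.primeFactors, rho m1 n1 p k =
        (∏ p ∈ g.primeFactors.filter (fun p => z < p), rho m1 n1 p k) *
        ∏ p ∈ g.primeFactors.filter (fun p => ¬ z < p), rho m1 n1 p k :=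
      (prod_filter_mul_prod_filter_not _ _ _).symm
    rw [hsplit]
    have hsmall : ∏ p ∈ g.primeFactors.filter (fun p => ¬ z < p), rho m1 n1 p k =
        ∏ p ∈ T, h p (k : ZMod p) := by
      have hsub : g.primeFactors.filter (fun p => ¬ z < p) ⊆ T := by
        intro p hp
        rw [mem_filter] at hp ⊢
        exact ⟨hgU hp.1, by omega⟩
      rw [← prod_subset_one_on_sdiff hsub (g := fun p => h p (k : ZMod p))
        (f := fun p => rho m1 n1 p k)]
      · intro p hp
        rw [mem_sdiff] at hp
        have hpT := mem_filter.1 hp.1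
        have hpp := hUp p hpT.1
        have hpg : ¬ p ∣ g := by
          intro hd
          exact hp.2 (mem_filter.2 ⟨Nat.mem_primeFactors.2 ⟨hpp, hd, hg0.ne'⟩, by
            have := hpT.2; omega⟩)
        have hcase : p ∣ m1 ∨ p ∣ n1 := by
          have h1 : p ∣ m * n := Nat.dvd_of_mem_primeFactors hpT.1
          have hmg : m = g * m1 := (Nat.mul_div_cancel' (Nat.gcd_dvd_left m n)).symm
          have hng : n = g * n1 := (Nat.mul_div_cancel' (Nat.gcd_dvd_right m n)).symm
          rcases hpp.dvd_mul.1 h1 with h2 | h2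
          · rw [hmg] at h2
            exact Or.inl ((hpp.dvd_mul.1 h2).resolve_left hpg)
          · rw [hng] at h2
            exact Or.inr ((hpp.dvd_mul.1 h2).resolve_left hpg)
        simp only [hh]
        rw [if_pos hcase, if_neg, if_neg hpg]
        intro h0
        exact (hex p hpp ((ZMod.intCast_zmod_eq_zero_iff_dvd _ _).1 h0)).1 |> fun h' =>
          (hex p hpp ((ZMod.intCast_zmod_eq_zero_iff_dvd _ _).1 h0)).2 |> fun h'' =>
            hcase.elim h' h''
      · intro p hp
        rw [mem_filter] at hp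
        have hpp := Nat.prime_of_mem_primeFactors hp.1
        have hpg : p ∣ g := Nat.dvd_of_mem_primeFactors hp.1
        simp only [hh, rho]
        by_cases hcase : p ∣ m1 ∨ p ∣ n1
        · have hpk : ¬ (p : ℤ) ∣ k := fun hd => by
            have := hex p hpp hd
            tauto
          rw [if_pos (Or.inl hcase), if_pos hcase, if_neg, if_pos hpg]
          intro h0
          exact hpk ((ZMod.intCast_zmod_eq_zero_iff_dvd _ _).1 h0)
        · by_cases hpk : (p : ℤ) ∣ k
          · rw [if_pos (Or.inr hpk), if_neg hcase, if_pos]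
            exact (ZMod.intCast_zmod_eq_zero_iff_dvd _ _).2 hpk
          · rw [if_neg (by tauto), if_neg hcase, if_neg]
            intro h0
            exact hpk ((ZMod.intCast_zmod_eq_zero_iff_dvd _ _).1 h0)
    rw [hsmall]
    have hlarge : ∏ p ∈ g.primeFactors.filter (fun p => z < p), rho m1 n1 p k ≤ R * E := by
      calc ∏ p ∈ g.primeFactors.filter (fun p => z < p), rho m1 n1 p k
          ≤ ∏ p ∈ g.primeFactors.filter (fun p => z < p),
            (rh p * (if (p : ℤ) ∣ k then (1 - 1 / (p : ℝ))⁻¹ else 1)) := by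
            refine prod_le_prod (fun p hp => ?_) fun p hp => ?_
            · have hpp := Nat.prime_of_mem_primeFactors (mem_filter.1 hp).1
              obtain ⟨h1, h2⟩ := hu p hpp
              have h3 : 2 / (p : ℝ) = 2 * (1 / (p : ℝ)) := by ring
              rw [rho]; split_ifs <;> linarith
            · have hpp := Nat.prime_of_mem_primeFactors (mem_filter.1 hp).1
              obtain ⟨h1, h2⟩ := hu p hpp
              have h3 : 2 / (p : ℝ) = 2 * (1 / (p : ℝ)) := by ring
              have h4 : 0 < 1 - 1 / (p : ℝ) := by linarith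
              simp only [rho, hrh]
              by_cases hcase : p ∣ m1 ∨ p ∣ n1
              · have hpk : ¬ (p : ℤ) ∣ k := fun hd => by
                  have := hex p hpp hd
                  tauto
                rw [if_pos (Or.inl hcase), if_pos hcase, if_neg hpk, mul_one]
              · by_cases hpk : (p : ℤ) ∣ k
                · rw [if_pos (Or.inr hpk), if_neg hcase, if_pos hpk]
                  rw [pow_two, mul_assoc, mul_inv_cancel₀ h4.ne', mul_one]
                · rw [if_neg (by tauto), if_neg hcase, if_neg hpk, mul_one, h3]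
                  nlinarith
        _ = R * ∏ p ∈ g.primeFactors.filter (fun p => z < p),
              (if (p : ℤ) ∣ k then (1 - 1 / (p : ℝ))⁻¹ else 1) := by rw [prod_mul_distrib]
        _ ≤ R * E := by
            refine mul_le_mul_of_nonneg_left ?_ hR0
            refine le_trans ?_ (hE k hk)
            rw [← prod_filter]
            refine prod_subset_real _ _ ?_ _ ?_
            · intro p hp
              rw [mem_filter, mem_filter] at hp
              refine mem_filter.2 ⟨Nat.mem_primeFactors.2 ⟨Nat.prime_of_mem_primeFactors hp.1.1,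
                Int.natCast_dvd.1 hp.2, ?_⟩, hp.1.2⟩
              exact Int.natAbs_ne_zero.2 (hI0 k hk)
            · intro p hp
              have hpp := Nat.prime_of_mem_primeFactors (mem_filter.1 hp).1
              obtain ⟨h1, h2⟩ := hu p hpp
              rw [one_le_inv₀ (by linarith)]
              linarith
    calc _ ≤ (R * E) * ∏ p ∈ T, h p (k : ZMod p) :=
          mul_le_mul_of_nonneg_right hlarge hprod0
      _ = _ := by ring
  -- sum over the interval
  set P := ∏ p ∈ T, p with hP
  have hP0 : 0 < P := prod_pos fun p hp => (hTp p hp).pos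
  set N := l / P + 1 with hN
  have hNP : l ≤ P * N := by
    have h1 := Nat.div_add_mod l P
    have h2 := Nat.mod_lt l hP0
    rw [hN, Nat.mul_add, Nat.mul_one]
    omega
  have hPz : P ≤ primorial z := by
    rw [hP, primorial]
    refine prod_le_prod_of_subset_of_one_le' ?_ ?_
    · intro p hp
      have := mem_filter.1 hp
      exact mem_filter.2 ⟨mem_range.2 (by omega), hUp p this.1⟩
    · intro p hp _
      exact (mem_filter.1 hp).2.one_lt.le
  have hsumh : ∑ k ∈ I, ∏ p ∈ T, h p (k : ZMod p) ≤ ((l : ℝ) + primorial z) * ∏ p ∈ T, mean g p := by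
    have hinj : Set.InjOn (fun j : ℕ => a + (j : ℤ)) (range (P * N) : Set ℕ) := by
      intro i _ j _ hij; simpa using hij
    have hsub : I ⊆ (range (P * N)).image (fun j : ℕ => a + (j : ℤ)) := by
      intro k hk
      obtain ⟨h1, h2⟩ := hI k hk
      refine mem_image.2 ⟨(k - a).toNat, mem_range.2 ?_, ?_⟩
      · omega
      · omega
    calc ∑ k ∈ I, ∏ p ∈ T, h p (k : ZMod p)
        ≤ ∑ k ∈ (range (P * N)).image (fun j : ℕ => a + (j : ℤ)), ∏ p ∈ T, h p (k : ZMod p) :=
          sum_le_sum_of_subset_of_nonneg hsub fun k _ _ => prod_nonneg fun p hp => hh0 p (hTp p hp) _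
      _ = ∑ j ∈ range (P * N), ∏ p ∈ T, h p ((a + (j : ℤ) : ℤ) : ZMod p) := sum_image hinj
      _ = N * ∏ p ∈ T, ∑ r ∈ range p, h p (r : ZMod p) := crt_avg T hTp h N a
      _ = N * ∏ p ∈ T, ((p : ℝ) * mean g p) := by
          congr 1
          refine prod_congr rfl fun p hp => ?_
          have hpp := hTp p hp
          have hpos : 0 < p := hpp.pos
          have hp0 : (p : ℝ) ≠ 0 := by exact_mod_cast hpp.ne_zero
          have hgen : ∀ A B : ℝ, ∑ r ∈ range p, (if ((r : ℕ) : ZMod p) = 0 then A else B) =
              A + (p - 1) * B := by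
            intro A B
            have e1 : ∀ r ∈ range p, (if ((r : ℕ) : ZMod p) = 0 then A else B) =
                B + (if r = 0 then A - B else 0) := by
              intro r hr
              have hr' := mem_range.1 hr
              by_cases hr0 : r = 0
              · rw [if_pos hr0, if_pos (by rw [hr0]; simp)]; ring
              · rw [if_neg hr0, if_neg, add_zero]
                intro h0
                have := (ZMod.natCast_eq_zero_iff _ _).1 h0
                exact hr0 (Nat.eq_zero_of_dvd_of_lt this hr')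
            rw [sum_congr rfl e1, sum_add_distrib, sum_ite_eq' (range p) 0,
              if_pos (mem_range.2 hpos)]
            simp; ring
          simp only [hh]
          by_cases hcase : p ∣ m1 ∨ p ∣ n1
          · have e2 : ∀ r : ℕ, (if p ∣ m1 ∨ p ∣ n1 then
                (if ((r : ℕ) : ZMod p) = 0 then (0 : ℝ) else (if p ∣ g then 1 - 1 / (p : ℝ) else 1))
                else (if ((r : ℕ) : ZMod p) = 0 then 1 - 1 / (p : ℝ) else 1 - 2 / (p : ℝ))) =
                (if ((r : ℕ) : ZMod p) = 0 then (0 : ℝ) else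
                  (if p ∣ g then 1 - 1 / (p : ℝ) else 1)) := by
              intro r; rw [if_pos hcase]
            rw [sum_congr rfl fun r _ => e2 r, hgen, mean]
            split_ifs
            · field_simp; ring
            · field_simp; ring
          · have e2 : ∀ r : ℕ, (if p ∣ m1 ∨ p ∣ n1 then
                (if ((r : ℕ) : ZMod p) = 0 then (0 : ℝ) else (if p ∣ g then 1 - 1 / (p : ℝ) else 1))
                else (if ((r : ℕ) : ZMod p) = 0 then 1 - 1 / (p : ℝ) else 1 - 2 / (p : ℝ))) =
                (if ((r : ℕ) : ZMod p) = 0 then 1 - 1 / (p : ℝ) else 1 - 2 / (p : ℝ)) := by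
              intro r; rw [if_neg hcase]
            have hpg : p ∣ g := by
              have h1 : p ∣ m * n := Nat.dvd_of_mem_primeFactors (mem_filter.1 hp).1
              have hmg : m = g * m1 := (Nat.mul_div_cancel' (Nat.gcd_dvd_left m n)).symm
              have hng : n = g * n1 := (Nat.mul_div_cancel' (Nat.gcd_dvd_right m n)).symm
              push Not at hcase
              rcases hpp.dvd_mul.1 h1 with h2 | h2
              · rw [hmg] at h2
                exact (hpp.dvd_mul.1 h2).resolve_right hcase.1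
              · rw [hng] at h2
                exact (hpp.dvd_mul.1 h2).resolve_right hcase.2
            rw [sum_congr rfl fun r _ => e2 r, hgen, mean, if_pos hpg]
            field_simp; ring
      _ = ((P * N : ℕ) : ℝ) * ∏ p ∈ T, mean g p := by
          rw [prod_mul_distrib, hP]; push_cast; ring
      _ ≤ ((l : ℝ) + primorial z) * ∏ p ∈ T, mean g p := by
          refine mul_le_mul_of_nonneg_right ?_ ?_
          · have h1 : P * N ≤ l + primorial z := by
              have h2 : P * (l / P) ≤ l := Nat.mul_div_le l P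
              rw [hN, Nat.mul_add, Nat.mul_one]
              omega
            exact_mod_cast h1
          · refine prod_nonneg fun p hp => ?_
            obtain ⟨h1, h2⟩ := hu p (hTp p hp)
            rw [mean]; split_ifs
            · positivity
            · linarith
  -- comparison of the products
  have hcomp : (∏ p ∈ T, mean g p) * R ≤
      ((Nat.totient m : ℝ) / m * ((Nat.totient n : ℝ) / n)) * Real.exp (2 * Lt z m n) := by
    rw [prod_mean m n hm hn, ← hg, ← hU, Lt, mul_sum, Real.exp_sum]
    have e1 : R = ∏ p ∈ U.filter (fun p => ¬ p ≤ z), (if p ∣ g then rh p else 1) := by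
      rw [← prod_filter, hR]
      refine prod_congr ?_ fun _ _ => rfl
      ext p
      simp only [mem_filter]
      constructor
      · rintro ⟨h1, h2⟩
        exact ⟨⟨hgU h1, by omega⟩, Nat.dvd_of_mem_primeFactors h1⟩
      · rintro ⟨⟨h1, h2⟩, h3⟩
        exact ⟨Nat.mem_primeFactors.2 ⟨hUp p h1, h3, hg0.ne'⟩, by omega⟩
    have e2 : (∏ p ∈ T, mean g p) * R = ∏ p ∈ U, (if p ≤ z then mean g p else
        (if p ∣ g then rh p else 1)) := by
      rw [e1, hT]
      exact (prod_ite (fun p => mean g p) (fun p => if p ∣ g then rh p else 1)).symm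
    rw [e2, ← hU, prod_filter, ← prod_mul_distrib]
    refine prod_le_prod (fun p hp => ?_) fun p hp => ?_
    · have hpp := hUp p hp
      obtain ⟨h1, h2⟩ := hu p hpp
      have := hrh0 p hpp
      rw [mean]
      split_ifs
      · positivity
      · linarith
      · exact this
      · exact zero_le_one
    · have hpp := hUp p hp
      obtain ⟨h1, h2⟩ := hu p hpp
      have h3 : 0 < 1 - 1 / (p : ℝ) := by linarith
      have h4 := inv_le_exp (1 / (p : ℝ)) h1 h2
      rw [inv_le_iff_one_le_mul₀ h3] at h4
      by_cases hpz : p ≤ z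
      · rw [if_pos hpz, if_neg (by omega), mul_one]
      · rw [if_neg hpz]
        by_cases hcase : p ∣ m1 ∨ p ∣ n1
        · have hne := (val_ne_iff m n hm hn p hpp).2 hcase
          have hcond : z < p ∧ m.factorization p ≠ n.factorization p := ⟨by omega, hne⟩
          rw [if_pos hcond]
          simp only [hrh, mean]
          rw [if_pos hcase]
          by_cases hpg : p ∣ g
          · rw [if_pos hpg, if_pos hpg]
            nlinarith
          · rw [if_neg hpg, if_neg hpg]
            linarith
        · have hne : ¬ (z < p ∧ m.factorization p ≠ n.factorization p) := fun h' =>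
            hcase ((val_ne_iff m n hm hn p hpp).1 h'.2)
          rw [if_neg hne, mul_one]
          have hpg : p ∣ g := by
            have h1 : p ∣ m * n := Nat.dvd_of_mem_primeFactors hp
            have hmg : m = g * m1 := (Nat.mul_div_cancel' (Nat.gcd_dvd_left m n)).symm
            have hng : n = g * n1 := (Nat.mul_div_cancel' (Nat.gcd_dvd_right m n)).symm
            push Not at hcase
            rcases hpp.dvd_mul.1 h1 with h2 | h2
            · rw [hmg] at h2
              exact (hpp.dvd_mul.1 h2).resolve_right hcase.1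
            · rw [hng] at h2
              exact (hpp.dvd_mul.1 h2).resolve_right hcase.2
          simp only [hrh, mean]
          rw [if_pos hpg, if_neg hcase, if_pos hpg]
  calc ∑ k ∈ I, ((Sol m n k).card : ℝ) ≤ ∑ k ∈ I, (g * R * E) * ∏ p ∈ T, h p (k : ZMod p) :=
        sum_le_sum hpt
    _ = (g * R * E) * ∑ k ∈ I, ∏ p ∈ T, h p (k : ZMod p) := by rw [mul_sum]
    _ ≤ (g * R * E) * (((l : ℝ) + primorial z) * ∏ p ∈ T, mean g p) := by gcongr
    _ = (((l : ℝ) + primorial z) * g * E) * ((∏ p ∈ T, mean g p) * R) := by ring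
    _ ≤ (((l : ℝ) + primorial z) * g * E) * (((Nat.totient m : ℝ) / m * ((Nat.totient n : ℝ) / n)) *
          Real.exp (2 * Lt z m n)) := by gcongr
    _ = _ := by ring

end Pool.Agent.K7.H64.DS
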