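import Mathlib
import Pool.Agent.K7.H64.DS.SolSum

set_option autoImplicit false
set_option maxHeartbeats 1000000

/-!
# Pair overlaps on the circle
-/

namespace Pool.Agent.K7.H64.DS

open Finset MeasureTheory

/-- the point `a/n` on the circle -/
noncomputable def cpt (a n : ℕ) : UnitAddCircle := (((a : ℝ) / n : ℝ) : UnitAddCircle)

/-- indicator of an open ball -/
noncomputable def bi (c : UnitAddCircle) (r : ℝ) (x : UnitAddCircle) : ℝ :=
  (Metric.ball c r).indicator (fun _ => (1 : ℝ)) x

/-- the sum of the indicators of the balls of radius `r` about reduced fractions -/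
noncomputable def fn (n : ℕ) (r : ℝ) (x : UnitAddCircle) : ℝ := ∑ a ∈ red n, bi (cpt a n) r x

lemma bi_nonneg (c : UnitAddCircle) (r : ℝ) (x : UnitAddCircle) : 0 ≤ bi c r x :=
  Set.indicator_nonneg (fun _ _ => zero_le_one) x

lemma bi_le_one (c : UnitAddCircle) (r : ℝ) (x : UnitAddCircle) : bi c r x ≤ 1 := by
  unfold bi
  by_cases h : x ∈ Metric.ball c r
  · rw [Set.indicator_of_mem h]
  · rw [Set.indicator_of_notMem h]; norm_num

lemma fn_nonneg (n : ℕ) (r : ℝ) (x : UnitAddCircle) : 0 ≤ fn n r x :=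
  sum_nonneg fun _ _ => bi_nonneg _ _ _

lemma bi_integrable (c : UnitAddCircle) (r : ℝ) : Integrable (bi c r) :=
  (integrable_const (1 : ℝ)).indicator Metric.isOpen_ball.measurableSet

lemma fn_integrable (n : ℕ) (r : ℝ) : Integrable (fn n r) := by
  unfold fn
  exact integrable_finsetSum _ fun a _ => bi_integrable _ _

lemma bi_mul_integrable (c c' : UnitAddCircle) (r r' : ℝ) :
    Integrable (fun x => bi c r x * bi c' r' x) := by
  have h : (fun x => bi c r x * bi c' r' x) =
      (Metric.ball c r ∩ Metric.ball c' r').indicator (fun _ => (1 : ℝ)) := by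
    funext x
    unfold bi
    by_cases h1 : x ∈ Metric.ball c r <;> by_cases h2 : x ∈ Metric.ball c' r' <;>
      simp [Set.indicator, h1, h2]
  rw [h]
  exact (integrable_const (1 : ℝ)).indicator
    (Metric.isOpen_ball.inter Metric.isOpen_ball).measurableSet

lemma fn_mul_integrable (m n : ℕ) (s r : ℝ) : Integrable (fun x => fn m s x * fn n r x) := by
  have h : (fun x => fn m s x * fn n r x) = fun x => ∑ a ∈ red m, ∑ b ∈ red n,
      bi (cpt a m) s x * bi (cpt b n) r x := by
    funext x
    unfold fn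
    rw [sum_mul_sum]
  rw [h]
  exact integrable_finsetSum _ fun a _ => integrable_finsetSum _ fun b _ =>
    bi_mul_integrable _ _ _ _

lemma vol_ball (c : UnitAddCircle) (r : ℝ) (_h0 : 0 ≤ r) (h1 : r ≤ 1 / 2) :
    volume (Metric.ball c r) = ENNReal.ofReal (2 * r) := by
  rw [← measure_congr (AddCircle.closedBall_ae_eq_ball (T := 1) (x := c) (ε := r))]
  rw [AddCircle.volume_closedBall, min_eq_right (by linarith)]

lemma bi_integral (c : UnitAddCircle) (r : ℝ) (h0 : 0 ≤ r) (h1 : r ≤ 1 / 2) :
    ∫ x, bi c r x = 2 * r := by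
  unfold bi
  rw [integral_indicator Metric.isOpen_ball.measurableSet]
  simp only [integral_const, smul_eq_mul, mul_one, measureReal_restrict_apply MeasurableSet.univ,
    Set.univ_inter]
  rw [measureReal_def, vol_ball c r h0 h1, ENNReal.toReal_ofReal (by linarith)]

lemma fn_integral (n : ℕ) (r : ℝ) (h0 : 0 ≤ r) (h1 : r ≤ 1 / 2) :
    ∫ x, fn n r x = 2 * r * Nat.totient n := by
  unfold fn
  rw [integral_finsetSum _ fun a _ => bi_integrable _ _]
  rw [sum_congr rfl fun a _ => bi_integral (cpt a n) r h0 h1, sum_const, card_red, nsmul_eq_mul]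
  ring

/-- the overlap is at most `2r` times the maximal number of coincidences -/
lemma overlap_le (m n : ℕ) (s r K : ℝ) (h0 : 0 ≤ r) (h1 : r ≤ 1 / 2)
    (hK : ∀ v : UnitAddCircle, ‖v‖ < r →
      ∑ a ∈ red m, ∑ b ∈ red n, bi (cpt a m) s (v + cpt b n) ≤ K) :
    ∫ x, fn m s x * fn n r x ≤ 2 * r * K := by
  have h : (fun x => fn m s x * fn n r x) = fun x => ∑ a ∈ red m, ∑ b ∈ red n,
      bi (cpt a m) s x * bi (cpt b n) r x := by
    funext x
    unfold fn
    rw [sum_mul_sum]
  rw [h, integral_finsetSum _ fun a _ => integrable_finsetSum _ fun b _ =>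
    bi_mul_integrable _ _ _ _]
  have h2 : ∀ a ∈ red m, ∫ x, ∑ b ∈ red n, bi (cpt a m) s x * bi (cpt b n) r x =
      ∑ b ∈ red n, ∫ v, bi (cpt a m) s (v + cpt b n) * bi 0 r v := by
    intro a _
    rw [integral_finsetSum _ fun b _ => bi_mul_integrable _ _ _ _]
    refine sum_congr rfl fun b _ => ?_
    rw [← integral_add_right_eq_self (fun x => bi (cpt a m) s x * bi (cpt b n) r x) (cpt b n)]
    refine integral_congr_ae (Filter.Eventually.of_forall fun v => ?_)
    have h3 : bi (cpt b n) r (v + cpt b n) = bi 0 r v := by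
      unfold bi
      by_cases h : v ∈ Metric.ball (0 : UnitAddCircle) r
      · rw [Set.indicator_of_mem h, Set.indicator_of_mem]
        rw [Metric.mem_ball, dist_eq_norm] at h ⊢
        rwa [add_sub_cancel_right, ← sub_zero v]
      · rw [Set.indicator_of_notMem h, Set.indicator_of_notMem]
        rw [Metric.mem_ball, dist_eq_norm] at h ⊢
        rwa [add_sub_cancel_right, ← sub_zero v]
    simp only [h3]
  rw [sum_congr rfl h2]
  have hint : ∀ a b : ℕ, Integrable (fun v : UnitAddCircle =>
      bi (cpt a m) s (v + cpt b n) * bi 0 r v) := by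
    intro a b
    have h4 : (fun v : UnitAddCircle => bi (cpt a m) s (v + cpt b n) * bi 0 r v) =
        fun v => bi (cpt a m - cpt b n) s v * bi 0 r v := by
      funext v
      congr 1
      unfold bi
      by_cases h : v ∈ Metric.ball (cpt a m - cpt b n) s
      · rw [Set.indicator_of_mem h, Set.indicator_of_mem]
        rw [Metric.mem_ball, dist_eq_norm] at h ⊢
        convert h using 2
        abel
      · rw [Set.indicator_of_notMem h, Set.indicator_of_notMem]
        rw [Metric.mem_ball, dist_eq_norm] at h ⊢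
        convert h using 3
        abel
    rw [h4]
    exact bi_mul_integrable _ _ _ _
  have h5 : ∑ a ∈ red m, ∑ b ∈ red n, ∫ v, bi (cpt a m) s (v + cpt b n) * bi 0 r v =
      ∫ v, ∑ a ∈ red m, ∑ b ∈ red n, bi (cpt a m) s (v + cpt b n) * bi 0 r v := by
    rw [integral_finsetSum _ fun a _ => integrable_finsetSum _ fun b _ => hint a b]
    refine sum_congr rfl fun a _ => ?_
    rw [integral_finsetSum _ fun b _ => hint a b]
  rw [h5]
  have h6 : ∫ v, ∑ a ∈ red m, ∑ b ∈ red n, bi (cpt a m) s (v + cpt b n) * bi 0 r v ≤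
      ∫ v, K * bi 0 r v := by
    refine integral_mono (integrable_finsetSum _ fun a _ => integrable_finsetSum _ fun b _ =>
      hint a b) ((bi_integrable _ _).const_mul K) fun v => ?_
    show ∑ a ∈ red m, ∑ b ∈ red n, bi (cpt a m) s (v + cpt b n) * bi 0 r v ≤ K * bi 0 r v
    have h7 : ∑ a ∈ red m, ∑ b ∈ red n, bi (cpt a m) s (v + cpt b n) * bi 0 r v =
        (∑ a ∈ red m, ∑ b ∈ red n, bi (cpt a m) s (v + cpt b n)) * bi 0 r v := by
      rw [sum_mul]
      exact sum_congr rfl fun a _ => (sum_mul _ _ _).symm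
    rw [h7]
    by_cases h : v ∈ Metric.ball (0 : UnitAddCircle) r
    · have h8 : ‖v‖ < r := by rwa [Metric.mem_ball, dist_zero_right] at h
      exact mul_le_mul_of_nonneg_right (hK v h8) (bi_nonneg _ _ _)
    · have h8 : bi 0 r v = 0 := by unfold bi; rw [Set.indicator_of_notMem h]
      rw [h8, mul_zero, mul_zero]
  refine h6.trans ?_
  rw [integral_const_mul, bi_integral 0 r h0 h1]
  linarith

end Pool.Agent.K7.H64.DS
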