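import Mathlib
import Pool.Agent.K7.H64.DS.Circle

set_option autoImplicit false
set_option maxHeartbeats 1000000

/-!
# Counting coincidences of balls
-/

namespace Pool.Agent.K7.H64.DS

open Finset MeasureTheory

/-- the least common multiple -/
def lc (m n : ℕ) : ℕ := m * (n / Nat.gcd m n)

lemma lc_pos (m n : ℕ) (hm : 0 < m) (hn : 0 < n) : 0 < lc m n := by
  unfold lc
  refine Nat.mul_pos hm (Nat.div_pos (Nat.le_of_dvd hn (Nat.gcd_dvd_right _ _))
    (Nat.gcd_pos_of_pos_left _ hm))

lemma lc_mul (m n : ℕ) : lc m n * Nat.gcd m n = m * n := by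
  unfold lc
  rw [mul_assoc, Nat.div_mul_cancel (Nat.gcd_dvd_right m n)]

lemma count_le (m n : ℕ) (hm : 0 < m) (hn : 0 < n) (s : ℝ) (y : ℝ) (I : Finset ℤ)
    (hI : ∀ k : ℤ, |(k : ℝ) - lc m n * y| < lc m n * s → k ∈ I) :
    ∑ a ∈ red m, ∑ b ∈ red n, bi (cpt a m) s ((y : UnitAddCircle) + cpt b n) ≤
      ∑ k ∈ I, ((Sol m n k).card : ℝ) := by
  classical
  have hL0 : (0 : ℝ) < lc m n := by exact_mod_cast lc_pos m n hm hn
  set g := Nat.gcd m n with hg
  have hg0 : 0 < g := Nat.gcd_pos_of_pos_left _ hm
  have hm0 : (0 : ℝ) < m := by exact_mod_cast hm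
  have hn0 : (0 : ℝ) < n := by exact_mod_cast hn
  have hg0r : (0 : ℝ) < g := by exact_mod_cast hg0
  have hng : ((n / g : ℕ) : ℝ) = n / g := by
    rw [Nat.cast_div (Nat.gcd_dvd_right m n) hg0r.ne']
  have hmg : ((m / g : ℕ) : ℝ) = m / g := by
    rw [Nat.cast_div (Nat.gcd_dvd_left m n) hg0r.ne']
  have hL : (lc m n : ℝ) = m * n / g := by
    unfold lc
    push_cast
    rw [← hg, hng]; ring
  have hkey : ∀ a ∈ red m, ∀ b ∈ red n, bi (cpt a m) s ((y : UnitAddCircle) + cpt b n) ≤
      ∑ k ∈ I, if (a, b) ∈ Sol m n k then (1 : ℝ) else 0 := by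
    intro a ha b hb
    by_cases h : (y : UnitAddCircle) + cpt b n ∈ Metric.ball (cpt a m) s
    · refine (bi_le_one _ _ _).trans ?_
      rw [Metric.mem_ball, dist_eq_norm] at h
      have h1 : (y : UnitAddCircle) + cpt b n - cpt a m =
          ((y + (b : ℝ) / n - (a : ℝ) / m : ℝ) : UnitAddCircle) := by
        unfold cpt
        rfl
      rw [h1, UnitAddCircle.norm_eq] at h
      set j : ℤ := round (y + (b : ℝ) / n - (a : ℝ) / m) with hj
      set k : ℤ := (a : ℤ) * (n / g : ℕ) - (b : ℤ) * (m / g : ℕ) + j * (lc m n : ℤ) with hk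
      have hkr : (k : ℝ) - lc m n * y = -(lc m n * (y + (b : ℝ) / n - (a : ℝ) / m - j)) := by
        rw [hk]
        simp only [Int.cast_add, Int.cast_sub, Int.cast_mul, Int.cast_natCast]
        rw [hng, hmg, hL]
        field_simp
        ring
      have hkI : k ∈ I := by
        refine hI k ?_
        rw [hkr, abs_neg, abs_mul, abs_of_pos hL0]
        exact mul_lt_mul_of_pos_left h hL0
      have hsol : (a, b) ∈ Sol m n k := by
        unfold Sol
        refine mem_filter.2 ⟨mem_product.2 ⟨ha, hb⟩, ?_⟩
        refine ⟨-j, ?_⟩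
        rw [hk]
        show (a : ℤ) * (n / g : ℕ) - (b : ℤ) * (m / g : ℕ) -
          ((a : ℤ) * (n / g : ℕ) - (b : ℤ) * (m / g : ℕ) + j * (lc m n : ℤ)) = (lc m n : ℤ) * -j
        ring
      refine le_trans ?_ (single_le_sum (f := fun k => if (a, b) ∈ Sol m n k then (1 : ℝ) else 0)
        (fun k _ => ?_) hkI)
      · simp only [hsol, if_true]; exact le_refl 1
      · split_ifs <;> norm_num
    · unfold bi
      rw [Set.indicator_of_notMem h]
      refine sum_nonneg fun k _ => ?_
      split_ifs <;> norm_num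
  refine (sum_le_sum fun a ha => sum_le_sum fun b hb => hkey a ha b hb).trans ?_
  rw [← sum_product' (red m) (red n) (fun a b => ∑ k ∈ I, if (a, b) ∈ Sol m n k then (1 : ℝ) else 0)]
  rw [sum_comm]
  refine sum_le_sum fun k _ => ?_
  rw [← sum_filter, sum_const, nsmul_eq_mul, mul_one]
  norm_cast
  refine card_le_card fun ab hab => ?_
  exact (mem_filter.1 hab).2

/-- an interval of integers -/
lemma mem_Ico_of_abs_lt (c D : ℝ) (k : ℤ) (h : |(k : ℝ) - c| < D) :
    ⌊c - D⌋ + 1 ≤ k ∧ k < ⌊c - D⌋ + 1 + (⌈2 * D⌉₊ : ℕ) := by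
  rw [abs_lt] at h
  have h1 := Int.floor_le (c - D)
  have h2 := Int.lt_floor_add_one (c - D)
  have h3 := Nat.le_ceil (2 * D)
  constructor
  · have : (⌊c - D⌋ : ℝ) < k := by linarith
    exact_mod_cast this
  · have : (k : ℝ) < ⌊c - D⌋ + 1 + (⌈2 * D⌉₊ : ℕ) := by linarith
    exact_mod_cast this

/-- the main pair bound -/
theorem pair_bound (m n : ℕ) (hm : 0 < m) (hn : 0 < n) (s r : ℝ) (h0 : 0 < r) (hrs : r ≤ s)
    (hs : s ≤ 1 / 2) (z : ℕ) (E : ℝ) (hE0 : 0 ≤ E)
    (hE : ∀ k : ℤ, k ≠ 0 → |(k : ℝ)| < 2 * (lc m n * s) →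
      ∏ p ∈ k.natAbs.primeFactors.filter (fun p => z < p), (1 - 1 / (p : ℝ))⁻¹ ≤ E) :
    ∫ x, fn m s x * fn n r x ≤ (if m = n then 2 * r * Nat.totient n else 0) +
      (if 1 < 2 * (lc m n * s) then (2 * s * Nat.totient m) * (2 * r * Nat.totient n) *
        (1 + (1 + primorial z) / (2 * (lc m n * s))) * E * Real.exp (2 * Lt z m n) else 0) := by
  classical
  set D : ℝ := lc m n * s with hD
  have hL0 : (0 : ℝ) < lc m n := by exact_mod_cast lc_pos m n hm hn
  have hs0 : 0 < s := h0.trans_le hrs
  have hD0 : 0 < D := mul_pos hL0 hs0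
  have hm0 : (0 : ℝ) < m := by exact_mod_cast hm
  have hn0 : (0 : ℝ) < n := by exact_mod_cast hn
  set g := Nat.gcd m n with hg
  have hg0 : 0 < g := Nat.gcd_pos_of_pos_left _ hm
  have hg0r : (0 : ℝ) < g := by exact_mod_cast hg0
  have hLg : (lc m n : ℝ) * g = m * n := by exact_mod_cast lc_mul m n
  set K1 : ℝ := if m = n then (Nat.totient n : ℝ) else 0 with hK1
  set K2 : ℝ := if 1 < 2 * D then ((2 * D + 1) + primorial z) * g * E *
      ((Nat.totient m : ℝ) / m * ((Nat.totient n : ℝ) / n)) * Real.exp (2 * Lt z m n) else 0 with hK2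
  have hmain : ∫ x, fn m s x * fn n r x ≤ 2 * r * (K1 + K2) := by
    refine overlap_le m n s r _ h0.le (hrs.trans hs) fun v hv => ?_
    -- representative
    obtain ⟨y, rfl, hy⟩ : ∃ y : ℝ, (y : UnitAddCircle) = v ∧ |y| < r := by
      induction v using QuotientAddGroup.induction_on with
      | H y0 =>
        refine ⟨y0 - round y0, ?_, ?_⟩
        · have : ((round y0 : ℤ) : ℝ) = (round y0 : ℤ) • (1 : ℝ) := by simp
          rw [AddCircle.coe_sub, this, AddCircle.coe_zsmul]
          simp [AddCircle.coe_period]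
        · have h2 : ‖((y0 : ℝ) : UnitAddCircle)‖ < r := hv
          rwa [UnitAddCircle.norm_eq] at h2
    -- index set
    set c : ℝ := lc m n * y with hc
    set a0 : ℤ := ⌊c - D⌋ + 1 with ha0
    set l : ℕ := ⌈2 * D⌉₊ with hl
    set I := (Finset.Ico a0 (a0 + l)).filter (fun k : ℤ => |(k : ℝ) - c| < D) with hI
    have hmemI : ∀ k : ℤ, |(k : ℝ) - c| < D → k ∈ I := by
      intro k hk
      obtain ⟨h1, h2⟩ := mem_Ico_of_abs_lt c D k hk
      exact mem_filter.2 ⟨Finset.mem_Ico.2 ⟨h1, h2⟩, hk⟩
    refine (count_le m n hm hn s y I hmemI).trans ?_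
    have hIlt : ∀ k ∈ I, |(k : ℝ)| < 2 * D := by
      intro k hk
      have h1 := (mem_filter.1 hk).2
      have h2 : |c| ≤ D := by
        rw [hc, abs_mul, abs_of_pos hL0, hD]
        exact mul_le_mul_of_nonneg_left (hy.le.trans hrs) hL0.le
      calc |(k : ℝ)| = |((k : ℝ) - c) + c| := by rw [sub_add_cancel]
        _ ≤ |(k : ℝ) - c| + |c| := abs_add_le _ _
        _ < D + D := by linarith
        _ = 2 * D := by ring
    rw [← sum_filter_add_sum_filter_not I (fun k => k = 0)]
    refine add_le_add ?_ ?_
    · -- k = 0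
      have h1 : ∑ k ∈ I with k = 0, ((Sol m n k).card : ℝ) ≤ (Sol m n 0).card := by
        have h2 : I.filter (fun k => k = 0) ⊆ {0} := by
          intro k hk
          exact Finset.mem_singleton.2 (mem_filter.1 hk).2
        refine (sum_le_sum_of_subset_of_nonneg h2 fun _ _ _ => Nat.cast_nonneg _).trans ?_
        rw [sum_singleton]
      refine h1.trans ?_
      rw [hK1]
      split_ifs with hmn
      · subst hmn
        -- injection into red m
        have h3 : (Sol m m 0).card ≤ (red m).card := by
          refine card_le_card_of_injOn Prod.fst ?_ ?_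
          · intro ab hab
            have := (mem_filter.1 (mem_coe.1 hab)).1
            exact mem_coe.2 (mem_product.1 this).1
          · intro ab hab ab' hab' heq
            have h4 := mem_filter.1 (mem_coe.1 hab)
            have h5 := mem_filter.1 (mem_coe.1 hab')
            have h6 : ∀ xy : ℕ × ℕ, xy ∈ red m ×ˢ red m → ((m * (m / Nat.gcd m m) : ℕ) : ℤ) ∣
                ((xy.1 : ℤ) * (m / Nat.gcd m m : ℕ) - (xy.2 : ℤ) * (m / Nat.gcd m m : ℕ) - 0) →
                xy.1 = xy.2 := by
              intro xy hxy hdvd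
              rw [Nat.gcd_self, Nat.div_self hm] at hdvd
              have hx := mem_range.1 (mem_filter.1 (mem_product.1 hxy).1).1
              have hy := mem_range.1 (mem_filter.1 (mem_product.1 hxy).2).1
              obtain ⟨c, hc⟩ := hdvd
              push_cast at hc
              have hc' : (xy.1 : ℤ) - xy.2 = m * c := by linarith
              have h7 : |(m : ℤ) * c| < m := by
                rw [← hc', abs_lt]; constructor <;> omega
              rw [abs_mul, Nat.abs_cast] at h7
              have h8 : |c| < 1 := by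
                by_contra hcon
                push Not at hcon
                have : (m : ℤ) * 1 ≤ m * |c| := mul_le_mul_of_nonneg_left hcon (by positivity)
                linarith
              have h9 : c = 0 := Int.abs_lt_one_iff.1 h8
              rw [h9, mul_zero] at hc'
              omega
            have e1 := h6 ab h4.1 h4.2
            have e2 := h6 ab' h5.1 h5.2
            refine Prod.ext heq ?_
            rw [← e1, ← e2]
            exact heq
        rw [card_red] at h3
        exact_mod_cast h3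
      · -- some prime divides m/g or n/g
        have h3 : ∃ p : ℕ, p.Prime ∧ (p ∣ m / g ∨ p ∣ n / g) := by
          by_contra hcon
          push Not at hcon
          have h4 : m / g = 1 := by
            by_contra h5
            obtain ⟨p, hp, hpd⟩ := Nat.exists_prime_and_dvd h5
            exact (hcon p hp).1 hpd
          have h6 : n / g = 1 := by
            by_contra h5
            obtain ⟨p, hp, hpd⟩ := Nat.exists_prime_and_dvd h5
            exact (hcon p hp).2 hpd
          apply hmn
          have h7 := Nat.div_mul_cancel (Nat.gcd_dvd_left m n)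
          have h8 := Nat.div_mul_cancel (Nat.gcd_dvd_right m n)
          rw [← hg, h4] at h7
          rw [← hg, h6] at h8
          omega
        obtain ⟨p, hp, hpd⟩ := h3
        rw [sol_empty m n 0 p hp (dvd_zero _) hpd hm]
        simp
    · -- k ≠ 0
      rw [hK2]
      split_ifs with h1D
      · refine (sol_sum m n hm hn z a0 l E (I.filter fun k => ¬ k = 0) ?_ ?_ ?_ hE0).trans ?_
        · intro k hk
          exact Finset.mem_Ico.1 (mem_filter.1 (mem_filter.1 hk).1).1
        · intro k hk
          have h2 := mem_filter.1 hk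
          exact hE k h2.2 (hIlt k h2.1)
        · intro k hk
          exact (mem_filter.1 hk).2
        · have hl' : (l : ℝ) ≤ 2 * D + 1 := by
            rw [hl]
            exact (Nat.ceil_lt_add_one (by positivity)).le
          gcongr
      · -- empty
        have h2 : I.filter (fun k => ¬ k = 0) = ∅ := by
          rw [filter_eq_empty_iff]
          intro k hk
          push Not
          by_contra hk0
          have h3 := hIlt k hk
          have h4 : (1 : ℝ) ≤ |(k : ℝ)| := by
            have := Int.one_le_abs hk0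
            exact_mod_cast this
          linarith
        rw [h2, sum_empty]
  refine hmain.trans ?_
  rw [mul_add]
  refine add_le_add ?_ ?_
  · rw [hK1]
    split_ifs <;> simp
  · rw [hK2]
    split_ifs
    · refine le_of_eq ?_
      have h1 : (g : ℝ) = m * n / lc m n := by
        rw [eq_div_iff hL0.ne']; linarith
      rw [h1, hD]
      field_simp
      ring
    · simp

end Pool.Agent.K7.H64.DS
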