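import Mathlib
import Pool.Agent.K7.H64.DS.Count

set_option autoImplicit false
set_option maxHeartbeats 1000000

/-!
# Pair bounds in terms of the measures
-/

namespace Pool.Agent.K7.H64.DS

open Finset MeasureTheory

/-- radius with total measure `θ n` -/
noncomputable def rad (θ : ℕ → ℝ) (n : ℕ) : ℝ := θ n / (2 * Nat.totient n)

/-- the size parameter of a pair -/
noncomputable def Dm (θ : ℕ → ℝ) (m n : ℕ) : ℝ := lc m n * max (rad θ m) (rad θ n)

/-- the pair correlation -/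
noncomputable def Ip (θ : ℕ → ℝ) (m n : ℕ) : ℝ :=
  ∫ x, fn m (rad θ m) x * fn n (rad θ n) x

lemma lc_comm (m n : ℕ) (hm : 0 < m) : lc m n = lc n m := by
  have h1 := lc_mul m n
  have h2 := lc_mul n m
  have h3 : Nat.gcd n m = Nat.gcd m n := Nat.gcd_comm n m
  rw [h3] at h2
  have hg : 0 < Nat.gcd m n := Nat.gcd_pos_of_pos_left _ hm
  have h4 : lc m n * Nat.gcd m n = lc n m * Nat.gcd m n := by rw [h1, h2]; ring
  exact Nat.eq_of_mul_eq_mul_right hg h4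

lemma Dm_comm (θ : ℕ → ℝ) (m n : ℕ) (hm : 0 < m) : Dm θ m n = Dm θ n m := by
  unfold Dm
  rw [lc_comm m n hm, max_comm]

lemma Lt_comm (t m n : ℕ) : Lt t m n = Lt t n m := by
  unfold Lt
  rw [mul_comm m n]
  refine sum_congr ?_ fun _ _ => rfl
  refine filter_congr fun p _ => ?_
  rw [ne_comm]

lemma Ip_comm (θ : ℕ → ℝ) (m n : ℕ) : Ip θ m n = Ip θ n m := by
  unfold Ip
  simp_rw [mul_comm]

lemma Ip_nonneg (θ : ℕ → ℝ) (m n : ℕ) : 0 ≤ Ip θ m n :=
  integral_nonneg fun _ => mul_nonneg (fn_nonneg _ _ _) (fn_nonneg _ _ _)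

lemma rad_pos (θ : ℕ → ℝ) (n : ℕ) (hn : 0 < n) (h : 0 < θ n) : 0 < rad θ n := by
  unfold rad
  have : 0 < Nat.totient n := Nat.totient_pos.2 hn
  positivity

lemma rad_le (θ : ℕ → ℝ) (n : ℕ) (hn : 0 < n) (h1 : θ n ≤ 1) : rad θ n ≤ 1 / 2 := by
  unfold rad
  have h2 : (1 : ℝ) ≤ Nat.totient n := by exact_mod_cast Nat.totient_pos.2 hn
  rw [div_le_div_iff₀ (by linarith) (by norm_num)]
  linarith

lemma rad_mul (θ : ℕ → ℝ) (n : ℕ) (hn : 0 < n) : 2 * rad θ n * Nat.totient n = θ n := by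
  unfold rad
  have h2 : (0 : ℝ) < Nat.totient n := by exact_mod_cast Nat.totient_pos.2 hn
  field_simp

lemma pair_le_aux (θ : ℕ → ℝ) (m n : ℕ) (hm : 0 < m) (hn : 0 < n)
    (hm1 : θ m ≤ 1) (hn0 : 0 < θ n) (hr : rad θ n ≤ rad θ m)
    (z : ℕ) (E : ℝ) (hE0 : 0 ≤ E)
    (hE : ∀ k : ℤ, k ≠ 0 → |(k : ℝ)| < 2 * Dm θ m n →
      ∏ p ∈ k.natAbs.primeFactors.filter (fun p => z < p), (1 - 1 / (p : ℝ))⁻¹ ≤ E) :
    Ip θ m n ≤ (if m = n then θ n else 0) +
      (if 1 < 2 * Dm θ m n then θ m * θ n * (1 + (1 + primorial z) / (2 * Dm θ m n)) * E *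
        Real.exp (2 * Lt z m n) else 0) := by
  have hD : Dm θ m n = lc m n * rad θ m := by unfold Dm; rw [max_eq_left hr]
  rw [hD] at hE ⊢
  have h := pair_bound m n hm hn (rad θ m) (rad θ n) (rad_pos θ n hn hn0) hr (rad_le θ m hm hm1)
    z E hE0 hE
  rw [rad_mul θ m hm, rad_mul θ n hn] at h
  exact h

lemma pair_le (θ : ℕ → ℝ) (m n : ℕ) (hm : 0 < m) (hn : 0 < n)
    (hm0 : 0 < θ m) (hm1 : θ m ≤ 1) (hn0 : 0 < θ n) (hn1 : θ n ≤ 1)
    (z : ℕ) (E : ℝ) (hE0 : 0 ≤ E)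
    (hE : ∀ k : ℤ, k ≠ 0 → |(k : ℝ)| < 2 * Dm θ m n →
      ∏ p ∈ k.natAbs.primeFactors.filter (fun p => z < p), (1 - 1 / (p : ℝ))⁻¹ ≤ E) :
    Ip θ m n ≤ (if m = n then θ n else 0) +
      (if 1 < 2 * Dm θ m n then θ m * θ n * (1 + (1 + primorial z) / (2 * Dm θ m n)) * E *
        Real.exp (2 * Lt z m n) else 0) := by
  rcases le_total (rad θ n) (rad θ m) with hr | hr
  · exact pair_le_aux θ m n hm hn hm1 hn0 hr z E hE0 hE
  · rw [Dm_comm θ m n hm] at hE ⊢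
    have h := pair_le_aux θ n m hn hm hn1 hm0 hr z E hE0 hE
    rw [Ip_comm, Lt_comm z m n]
    refine h.trans (le_of_eq ?_)
    congr 1
    · by_cases hmn : m = n
      · subst hmn; rfl
      · rw [if_neg hmn, if_neg (Ne.symm hmn)]
    · rw [mul_comm (θ m) (θ n)]

lemma one_le_inv_sub (p : ℕ) (hp : p.Prime) : 1 ≤ (1 - 1 / (p : ℝ))⁻¹ := by
  have h2 : (2 : ℝ) ≤ p := by exact_mod_cast hp.two_le
  have h3 : 1 / (p : ℝ) ≤ 1 / 2 := one_div_le_one_div_of_le (by norm_num) h2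
  have h4 : 0 < 1 / (p : ℝ) := by positivity
  rw [one_le_inv₀ (by linarith)]
  linarith

lemma prod_filter_le (z k : ℕ) (hk : k ≠ 0) :
    ∏ p ∈ k.primeFactors.filter (fun p => z < p), (1 - 1 / (p : ℝ))⁻¹ ≤ k := by
  refine (prod_subset_real _ k.primeFactors (filter_subset _ _) _ fun p hp =>
    one_le_inv_sub p (Nat.prime_of_mem_primeFactors hp)).trans ?_
  have h1 : ∏ p ∈ k.primeFactors, (1 - 1 / (p : ℝ))⁻¹ ≤ ∏ p ∈ k.primeFactors, (p : ℝ) := by
    refine prod_le_prod (fun p hp => ?_) fun p hp => ?_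
    · exact zero_le_one.trans (one_le_inv_sub p (Nat.prime_of_mem_primeFactors hp))
    · have h2 : (2 : ℝ) ≤ p := by exact_mod_cast (Nat.prime_of_mem_primeFactors hp).two_le
      rw [show (1 - 1 / (p : ℝ)) = ((p : ℝ) - 1) / p by field_simp, inv_div,
        div_le_iff₀ (by linarith)]
      nlinarith
  refine h1.trans ?_
  have h3 : ∏ p ∈ k.primeFactors, p ≤ k :=
    Nat.le_of_dvd (Nat.pos_of_ne_zero hk) (Nat.prod_primeFactors_dvd k)
  rw [← Nat.cast_prod]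
  exact_mod_cast h3

lemma prod_filter_le' (z k : ℕ) (hz : 2 ≤ z) (hk : k ≠ 0) :
    ∏ p ∈ k.primeFactors.filter (fun p => z < p), (1 - 1 / (p : ℝ))⁻¹ ≤
      Real.exp (2 * Real.log k / (z * Real.log z)) := by
  set T := k.primeFactors.filter (fun p => z < p) with hT
  have hTp : ∀ p ∈ T, p.Prime ∧ z < p := fun p hp =>
    ⟨Nat.prime_of_mem_primeFactors (mem_filter.1 hp).1, (mem_filter.1 hp).2⟩
  have hz0 : (0 : ℝ) < z := by exact_mod_cast (by omega : 0 < z)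
  have hlz : 0 < Real.log z := Real.log_pos (by exact_mod_cast (by omega : 1 < z))
  have h1 : ∏ p ∈ T, (1 - 1 / (p : ℝ))⁻¹ ≤ ∏ p ∈ T, Real.exp (2 * (1 / (z : ℝ))) := by
    refine prod_le_prod (fun p hp => ?_) fun p hp => ?_
    · exact zero_le_one.trans (one_le_inv_sub p (hTp p hp).1)
    · have h2 : (2 : ℝ) ≤ p := by exact_mod_cast (hTp p hp).1.two_le
      have h3 : 1 / (p : ℝ) ≤ 1 / 2 := one_div_le_one_div_of_le (by norm_num) h2
      refine (inv_le_exp (1 / (p : ℝ)) (by positivity) h3).trans (Real.exp_le_exp.2 ?_)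
      have h4 : (z : ℝ) ≤ p := by exact_mod_cast (hTp p hp).2.le
      have := one_div_le_one_div_of_le hz0 h4
      linarith
  refine h1.trans ?_
  rw [prod_const, ← Real.exp_nat_mul]
  apply Real.exp_le_exp.2
  have h5 : (z : ℝ) ^ T.card ≤ k := by
    have h6 : ∏ p ∈ T, (z : ℕ) ≤ ∏ p ∈ T, p := prod_le_prod' fun p hp => (hTp p hp).2.le
    have h7 : ∏ p ∈ T, p ≤ ∏ p ∈ k.primeFactors, p :=
      prod_le_prod_of_subset_of_one_le' (filter_subset _ _) fun p hp _ =>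
        (Nat.prime_of_mem_primeFactors hp).one_lt.le
    have h8 : ∏ p ∈ k.primeFactors, p ≤ k :=
      Nat.le_of_dvd (Nat.pos_of_ne_zero hk) (Nat.prod_primeFactors_dvd k)
    rw [prod_const] at h6
    exact_mod_cast h6.trans (h7.trans h8)
  have h9 : (T.card : ℝ) * Real.log z ≤ Real.log k := by
    rw [← Real.log_pow]
    exact Real.log_le_log (by positivity) h5
  have h10 : (T.card : ℝ) * (2 * (1 / (z : ℝ))) = 2 * ((T.card : ℝ) * Real.log z) /
      (z * Real.log z) := by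
    field_simp
  rw [h10]
  gcongr

/-- crude bound -/
lemma pair_crude (θ : ℕ → ℝ) (m n : ℕ) (hm : 0 < m) (hn : 0 < n) (hmn : m ≠ n)
    (hm0 : 0 < θ m) (hm1 : θ m ≤ 1) (hn0 : 0 < θ n) (hn1 : θ n ≤ 1) (A : ℝ) (hA : Dm θ m n ≤ A)
    (hA0 : 0 ≤ A) :
    Ip θ m n ≤ θ m * θ n * (2 * A + 2) * Real.exp (2 * Lt 1 m n) := by
  have hD0 : 0 ≤ Dm θ m n := by
    unfold Dm
    exact mul_nonneg (Nat.cast_nonneg _) (le_max_of_le_left (rad_pos θ m hm hm0).le)
  have h := pair_le θ m n hm hn hm0 hm1 hn0 hn1 1 (2 * Dm θ m n) (by positivity) ?_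
  · rw [if_neg hmn, zero_add] at h
    refine h.trans ?_
    split_ifs with h1
    · have h2 : (primorial 1 : ℝ) = 1 := by
        have : primorial 1 = 1 := by decide
        rw [this]; norm_num
      rw [h2]
      have h3 : θ m * θ n * (1 + (1 + 1) / (2 * Dm θ m n)) * (2 * Dm θ m n) =
          θ m * θ n * (2 * Dm θ m n + 2) := by
        have h4 : 2 * Dm θ m n ≠ 0 := by linarith
        have h5 : (1 + 1) / (2 * Dm θ m n) * (2 * Dm θ m n) = 2 := by
          rw [div_mul_cancel₀ _ h4]; norm_num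
        linear_combination (θ m * θ n) * h5
      rw [h3]
      gcongr
    · positivity
  · intro k hk hkD
    refine (prod_filter_le 1 k.natAbs (by simpa using hk)).trans ?_
    rw [Nat.cast_natAbs]
    push_cast
    exact hkD.le

lemma scale_bounds (D : ℝ) (hD : 1 ≤ D) :
    (16 : ℝ) ^ (Nat.log 16 ⌊D⌋₊) ≤ D ∧ D < (16 : ℝ) ^ (Nat.log 16 ⌊D⌋₊ + 1) := by
  have h0 : ⌊D⌋₊ ≠ 0 := by
    have : 1 ≤ ⌊D⌋₊ := (Nat.le_floor_iff (by linarith)).2 (by simpa using hD)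
    omega
  have h1 := Nat.pow_log_le_self 16 h0
  have h2 := Nat.lt_pow_succ_log_self (b := 16) (by norm_num) ⌊D⌋₊
  constructor
  · have h3 : ((16 ^ (Nat.log 16 ⌊D⌋₊) : ℕ) : ℝ) ≤ ⌊D⌋₊ := by exact_mod_cast h1
    push_cast at h3
    exact h3.trans (Nat.floor_le (by linarith))
  · have h3 : ⌊D⌋₊ + 1 ≤ 16 ^ (Nat.log 16 ⌊D⌋₊ + 1) := h2
    have h4 : ((⌊D⌋₊ + 1 : ℕ) : ℝ) ≤ ((16 ^ (Nat.log 16 ⌊D⌋₊ + 1) : ℕ) : ℝ) := by exact_mod_cast h3
    push_cast at h4
    exact (Nat.lt_floor_add_one D).trans_le h4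

/-- refined bound at scale `z` -/
lemma pair_fine (θ : ℕ → ℝ) (m n : ℕ) (hm : 0 < m) (hn : 0 < n)
    (hm0 : 0 < θ m) (hm1 : θ m ≤ 1) (hn0 : 0 < θ n) (hn1 : θ n ≤ 1) (z : ℕ) (hz : 2 ≤ z)
    (h16 : (16 : ℝ) ^ z ≤ Dm θ m n) (h16' : Dm θ m n < (16 : ℝ) ^ (z + 1)) :
    Ip θ m n ≤ (if m = n then θ n else 0) + θ m * θ n * (1 + (1 / 4) ^ z) *
      Real.exp (13 / Real.log z) * Real.exp (2 * Lt z m n) := by
  have hz0 : (2 : ℝ) ≤ z := by exact_mod_cast hz
  have hlz : 0 < Real.log z := Real.log_pos (by linarith)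
  have hD0 : 0 < Dm θ m n := lt_of_lt_of_le (by positivity) h16
  have h := pair_le θ m n hm hn hm0 hm1 hn0 hn1 z (Real.exp (13 / Real.log z)) (Real.exp_pos _).le ?_
  · refine h.trans (add_le_add le_rfl ?_)
    split_ifs with h1
    · have h2 : (1 + (primorial z : ℝ)) / (2 * Dm θ m n) ≤ (1 / 4) ^ z := by
        rw [div_le_iff₀ (by positivity)]
        have h3 : (primorial z : ℝ) ≤ 4 ^ z := by exact_mod_cast primorial_le_four_pow z
        have h4 : (1 / 4 : ℝ) ^ z * (2 * (16 : ℝ) ^ z) ≤ (1 / 4) ^ z * (2 * Dm θ m n) := by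
          gcongr
        have h5 : (1 / 4 : ℝ) ^ z * (2 * (16 : ℝ) ^ z) = 2 * 4 ^ z := by
          rw [show (16 : ℝ) = 4 * 4 by norm_num, mul_pow, div_pow, one_pow]
          field_simp
        have h6 : (1 : ℝ) ≤ 4 ^ z := one_le_pow₀ (by norm_num)
        linarith
      gcongr
    · positivity
  · intro k hk hkD
    have hk' : k.natAbs ≠ 0 := by simpa using hk
    refine (prod_filter_le' z k.natAbs hz hk').trans (Real.exp_le_exp.2 ?_)
    have h1 : Real.log k.natAbs ≤ 9 * z * Real.log 2 := by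
      have h2 : (k.natAbs : ℝ) ≤ 2 ^ (9 * z) := by
        have h3 : (k.natAbs : ℝ) = |(k : ℝ)| := by
          rw [Nat.cast_natAbs]; push_cast; rfl
        rw [h3]
        have h4 : 2 * Dm θ m n ≤ 2 * 16 ^ (z + 1) := by linarith
        have h5 : (2 : ℝ) * 16 ^ (z + 1) = 2 ^ (4 * z + 5) := by
          rw [show (16 : ℝ) = 2 ^ 4 by norm_num, ← pow_mul, ← pow_succ']
          congr 1
        have h6 : (2 : ℝ) ^ (4 * z + 5) ≤ 2 ^ (9 * z) := pow_le_pow_right₀ (by norm_num) (by omega)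
        linarith
      have h7 := Real.log_le_log (by exact_mod_cast Nat.pos_of_ne_zero hk') h2
      rw [Real.log_pow] at h7
      push_cast at h7
      exact h7
    have hl2 : Real.log 2 < 0.6931471808 := Real.log_two_lt_d9
    rw [div_le_div_iff₀ (by positivity) hlz]
    have h8 : 2 * Real.log k.natAbs ≤ 13 * z := by
      have : 9 * (z : ℝ) * Real.log 2 ≤ 9 * z * 0.7 := by gcongr; linarith
      linarith
    calc 2 * Real.log k.natAbs * Real.log z ≤ 13 * z * Real.log z := by gcongr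
      _ = 13 * (z * Real.log z) := by ring

end Pool.Agent.K7.H64.DS
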