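import Mathlib
import Pool.Agent.K7.H64.DS.Pairs

set_option autoImplicit false
set_option maxHeartbeats 1000000

/-!
# Assembling the second moment
-/

namespace Pool.Agent.K7.H64.DS

open Finset MeasureTheory

/-- The bilinear bound in terms of the measures. -/
theorem bil (B : ℝ) (hB : 0 ≤ B) : ∃ C : ℝ, 0 < C ∧ ∀ t : ℕ, 1 ≤ t → ∀ d : ℕ, 1 ≤ d →
    ∀ S : Finset ℕ, (∀ n ∈ S, 0 < n) → ∀ θ : ℕ → ℝ, (∀ n, 0 ≤ θ n) → (∀ n, θ n ≤ 1) →
    ∀ A : ℝ, 0 < A → ∀ E : Finset (ℕ × ℕ), E ⊆ S ×ˢ S → (∀ e ∈ E, Dm θ e.1 e.2 ≤ A) →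
    ∑ e ∈ E, θ e.1 ^ d * θ e.2 ^ d * Real.exp (B * t * Lt t e.1 e.2) ≤
      C * Real.sqrt (2 * A) * Real.sqrt (∑ n ∈ S, θ n ^ d) ^ 3 := by
  obtain ⟨C, hC0, hC⟩ := thmK B hB
  refine ⟨C, hC0, fun t ht d hd S hS θ hθ0 hθ1 A hA E hE hEA => ?_⟩
  set x : ℕ → ℝ := fun n => n * θ n ^ d / (2 * A * Nat.totient n) with hx
  have hx0 : ∀ n, 0 ≤ x n := fun n => by
    have := hθ0 n
    simp only [hx]; positivity
  have hpow : ∀ n, θ n ^ d ≤ θ n := fun n => by
    calc θ n ^ d ≤ θ n ^ 1 := pow_le_pow_of_le_one (hθ0 n) (hθ1 n) hd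
      _ = θ n := pow_one _
  have hφx : ∀ n ∈ S, (Nat.totient n : ℝ) / n * x n = θ n ^ d / (2 * A) := by
    intro n hn
    have h1 : (0 : ℝ) < n := by exact_mod_cast hS n hn
    have h2 : (0 : ℝ) < Nat.totient n := by exact_mod_cast Nat.totient_pos.2 (hS n hn)
    simp only [hx]
    field_simp
  have hcond : ∀ e ∈ E, (e.2 : ℝ) * x e.1 ≤ Nat.gcd e.1 e.2 ∧
      (e.1 : ℝ) * x e.2 ≤ Nat.gcd e.1 e.2 := by
    intro e he
    have h1 := mem_product.1 (hE he)
    have hm := hS e.1 h1.1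
    have hn := hS e.2 h1.2
    have hD := hEA e he
    unfold Dm at hD
    have hL0 : (0 : ℝ) < lc e.1 e.2 := by exact_mod_cast lc_pos e.1 e.2 hm hn
    have hm0 : (0 : ℝ) < e.1 := by exact_mod_cast hm
    have hn0 : (0 : ℝ) < e.2 := by exact_mod_cast hn
    have hφm : (0 : ℝ) < Nat.totient e.1 := by exact_mod_cast Nat.totient_pos.2 hm
    have hφn : (0 : ℝ) < Nat.totient e.2 := by exact_mod_cast Nat.totient_pos.2 hn
    have hg0 : (0 : ℝ) < Nat.gcd e.1 e.2 := by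
      exact_mod_cast Nat.gcd_pos_of_pos_left _ hm
    have hLg : (lc e.1 e.2 : ℝ) * Nat.gcd e.1 e.2 = e.1 * e.2 := by exact_mod_cast lc_mul e.1 e.2
    have h2 : (lc e.1 e.2 : ℝ) * rad θ e.1 ≤ A :=
      (mul_le_mul_of_nonneg_left (le_max_left _ _) hL0.le).trans hD
    have h3 : (lc e.1 e.2 : ℝ) * rad θ e.2 ≤ A :=
      (mul_le_mul_of_nonneg_left (le_max_right _ _) hL0.le).trans hD
    unfold rad at h2 h3
    constructor
    · calc (e.2 : ℝ) * x e.1 = e.1 * e.2 * θ e.1 ^ d / (2 * A * Nat.totient e.1) := by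
            simp only [hx]; ring
        _ ≤ e.1 * e.2 * θ e.1 / (2 * A * Nat.totient e.1) := by
            gcongr
            exact hpow _
        _ = Nat.gcd e.1 e.2 * (lc e.1 e.2 * (θ e.1 / (2 * Nat.totient e.1))) / A := by
            rw [← hLg]; field_simp
        _ ≤ Nat.gcd e.1 e.2 * A / A := by gcongr
        _ = Nat.gcd e.1 e.2 := by field_simp
    · calc (e.1 : ℝ) * x e.2 = e.1 * e.2 * θ e.2 ^ d / (2 * A * Nat.totient e.2) := by
            simp only [hx]; ring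
        _ ≤ e.1 * e.2 * θ e.2 / (2 * A * Nat.totient e.2) := by
            gcongr
            exact hpow _
        _ = Nat.gcd e.1 e.2 * (lc e.1 e.2 * (θ e.2 / (2 * Nat.totient e.2))) / A := by
            rw [← hLg]; field_simp
        _ ≤ Nat.gcd e.1 e.2 * A / A := by gcongr
        _ = Nat.gcd e.1 e.2 := by field_simp
  have h := hC t ht S S E hE hS hS x x hx0 hx0 hcond
  have h4 : ∑ v ∈ S, (Nat.totient v : ℝ) / v * x v = (∑ n ∈ S, θ n ^ d) / (2 * A) := by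
    rw [sum_congr rfl hφx, sum_div]
  rw [h4] at h
  have h5 : ∑ e ∈ E, ((Nat.totient e.1 : ℝ) / e.1 * x e.1) * ((Nat.totient e.2 : ℝ) / e.2 * x e.2) *
      Real.exp (B * t * Lt t e.1 e.2) =
      (∑ e ∈ E, θ e.1 ^ d * θ e.2 ^ d * Real.exp (B * t * Lt t e.1 e.2)) / (2 * A) ^ 2 := by
    rw [sum_div]
    refine sum_congr rfl fun e he => ?_
    have h1 := mem_product.1 (hE he)
    rw [hφx e.1 h1.1, hφx e.2 h1.2]
    field_simp
  rw [h5, div_le_iff₀ (by positivity)] at h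
  refine h.trans (le_of_eq ?_)
  set P : ℝ := ∑ n ∈ S, θ n ^ d with hP
  have hP0 : 0 ≤ P := sum_nonneg fun n _ => pow_nonneg (hθ0 n) d
  have h6 : rt (P / (2 * A)) * rt (P / (2 * A)) = Real.sqrt (P / (2 * A)) := by
    unfold rt
    rw [← sq, Real.sq_sqrt (Real.sqrt_nonneg _)]
  rw [h6, Real.sqrt_div hP0]
  set u := Real.sqrt (2 * A) with hu
  have hu2 : u ^ 2 = 2 * A := Real.sq_sqrt (by positivity)
  have hu0 : 0 < u := Real.sqrt_pos.2 (by positivity)
  rw [← hu2]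
  field_simp

/-- the total second moment -/
theorem second_moment (d : ℕ) (hd : 1 ≤ d) (ε : ℝ) (hε : 0 < ε) : ∃ C : ℝ, 0 < C ∧
    ∀ S : Finset ℕ, (∀ n ∈ S, 0 < n) → ∀ θ : ℕ → ℝ, (∀ n, 0 ≤ θ n) → (∀ n, θ n ≤ 1) →
    (∀ n ∈ S, 0 < θ n) →
    ∑ e ∈ S ×ˢ S, Ip θ e.1 e.2 ^ d ≤ (1 + ε) * (∑ n ∈ S, θ n ^ d) ^ 2 +
      C * (Real.sqrt (∑ n ∈ S, θ n ^ d) ^ 3 + ∑ n ∈ S, θ n ^ d) := by
  classical
  -- parameters
  have htend : Filter.Tendsto (fun z : ℕ => (1 + (1 / 4 : ℝ) ^ z) ^ d *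
      Real.exp (d * (13 / Real.log z))) Filter.atTop (nhds ((1 + 0) ^ d * Real.exp (d * 0))) := by
    refine Filter.Tendsto.mul (Filter.Tendsto.pow (Filter.Tendsto.add tendsto_const_nhds
      (tendsto_pow_atTop_nhds_zero_of_lt_one (by norm_num) (by norm_num))) d) ?_
    refine (Real.continuous_exp.tendsto _).comp (Filter.Tendsto.mul tendsto_const_nhds ?_)
    exact (Real.tendsto_log_atTop.comp tendsto_natCast_atTop_atTop).const_div_atTop 13
  rw [mul_zero, Real.exp_zero, add_zero, one_pow, mul_one] at htend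
  -- choose ε₂
  obtain ⟨ε₂, hε₂0, hε₂⟩ : ∃ ε₂ : ℝ, 0 < ε₂ ∧ (1 + ε / 2) * Real.exp (2 * d * ε₂) ≤ 1 + ε := by
    have h1 : 0 < Real.log ((1 + ε) / (1 + ε / 2)) := by
      apply Real.log_pos
      rw [lt_div_iff₀ (by linarith)]
      linarith
    have hd0 : (0 : ℝ) < d := by exact_mod_cast hd
    refine ⟨Real.log ((1 + ε) / (1 + ε / 2)) / (2 * d), by positivity, ?_⟩
    rw [mul_div_cancel₀ _ (by positivity), Real.exp_log (by positivity)]
    rw [mul_div_cancel₀ _ (by positivity)]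
  obtain ⟨z1, hz1⟩ := (htend.eventually (gt_mem_nhds (show (1 : ℝ) < 1 + ε / 2 by linarith))).exists_forall_of_atTop
  set z0 : ℕ := max z1 2 with hz0
  have hz02 : 2 ≤ z0 := le_max_right _ _
  have hz0' : ∀ z, z0 ≤ z → (1 + (1 / 4 : ℝ) ^ z) ^ d * Real.exp (d * (13 / Real.log z)) ≤ 1 + ε / 2 :=
    fun z hz => (hz1 z ((le_max_left _ _).trans hz)).le
  have hd0 : (0 : ℝ) < d := by exact_mod_cast hd
  set B : ℝ := 2 * d + 3 / ε₂ with hB
  have hB0 : 0 ≤ B := by positivity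
  obtain ⟨C1, hC10, hC1⟩ := bil (2 * d) (by positivity)
  obtain ⟨C2, hC20, hC2⟩ := bil B hB0
  set A0 : ℝ := 16 ^ z0 with hA0
  have hA0pos : 0 < A0 := by positivity
  set K : ℝ := 2 * Real.exp (13 / Real.log 2) with hK
  have hK1 : 1 ≤ K := by
    have : 1 ≤ Real.exp (13 / Real.log 2) := Real.one_le_exp (by positivity)
    linarith
  have hK0 : 0 < K := by linarith
  -- constants
  set Ksm : ℝ := (2 * A0 + 2) ^ d * (C1 * Real.sqrt (2 * A0)) with hKsm
  set Kla : ℝ := K ^ d * (C2 * Real.sqrt 32) * 2 with hKla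
  set Kdi : ℝ := 2 ^ d * (1 + (max (2 * A0 + 2) K) ^ d) with hKdi
  have hKsm0 : 0 < Ksm := by positivity
  have hKla0 : 0 < Kla := by positivity
  have hKdi0 : 0 < Kdi := by
    have : 0 ≤ (max (2 * A0 + 2) K) ^ d := pow_nonneg (le_max_of_le_right hK0.le) d
    positivity
  refine ⟨Ksm + Kla + Kdi, by positivity, fun S hS θ hθ0 hθ1 hθS => ?_⟩
  set Ψ : ℝ := ∑ n ∈ S, θ n ^ d with hΨ
  have hΨ0 : 0 ≤ Ψ := sum_nonneg fun n _ => pow_nonneg (hθ0 n) d
  -- scale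
  set sc : ℕ × ℕ → ℕ := fun e => Nat.log 16 ⌊Dm θ e.1 e.2⌋₊ with hsc
  set P := S ×ˢ S with hP
  -- pieces
  set Edi := P.filter (fun e => e.1 = e.2) with hEdi
  set Eof := P.filter (fun e => ¬ e.1 = e.2) with hEof
  set Esm := Eof.filter (fun e => Dm θ e.1 e.2 ≤ A0) with hEsm
  set Ela := Eof.filter (fun e => ¬ Dm θ e.1 e.2 ≤ A0) with hEla
  set Ego := Ela.filter (fun e => Lt (sc e) e.1 e.2 ≤ ε₂) with hEgo
  set Eba := Ela.filter (fun e => ¬ Lt (sc e) e.1 e.2 ≤ ε₂) with hEba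
  have hPmem : ∀ e ∈ P, (0 < e.1 ∧ 0 < θ e.1 ∧ θ e.1 ≤ 1) ∧ (0 < e.2 ∧ 0 < θ e.2 ∧ θ e.2 ≤ 1) := by
    intro e he
    have h1 := mem_product.1 he
    exact ⟨⟨hS _ h1.1, hθS _ h1.1, hθ1 _⟩, ⟨hS _ h1.2, hθS _ h1.2, hθ1 _⟩⟩
  have hEofP : ∀ e ∈ Eof, e ∈ P ∧ e.1 ≠ e.2 := fun e he =>
    ⟨(mem_filter.1 he).1, (mem_filter.1 he).2⟩
  have hLt0 : ∀ t m n, 0 ≤ Lt t m n := fun t m n => sum_nonneg fun p _ => by positivity
  -- large scale facts
  have hscale : ∀ e : ℕ × ℕ, A0 < Dm θ e.1 e.2 → z0 ≤ sc e ∧ (16 : ℝ) ^ sc e ≤ Dm θ e.1 e.2 ∧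
      Dm θ e.1 e.2 < (16 : ℝ) ^ (sc e + 1) := by
    intro e he
    have h1 : 1 ≤ Dm θ e.1 e.2 := by
      have : (1 : ℝ) ≤ 16 ^ z0 := one_le_pow₀ (by norm_num)
      linarith
    obtain ⟨h2, h3⟩ := scale_bounds _ h1
    refine ⟨?_, h2, h3⟩
    by_contra hcon
    push Not at hcon
    have h4 : (16 : ℝ) ^ (sc e + 1) ≤ 16 ^ z0 := pow_le_pow_right₀ (by norm_num) hcon
    linarith
  have hla : ∀ e ∈ Ela, e ∈ P ∧ e.1 ≠ e.2 ∧ A0 < Dm θ e.1 e.2 := fun e he => by
    have h1 := mem_filter.1 he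
    have h2 := hEofP e h1.1
    exact ⟨h2.1, h2.2, not_le.1 h1.2⟩
  -- diagonal
  have hdiag : ∑ e ∈ Edi, Ip θ e.1 e.2 ^ d ≤ Kdi * Ψ := by
    have h1 : ∑ e ∈ Edi, Ip θ e.1 e.2 ^ d = ∑ n ∈ S, Ip θ n n ^ d := by
      refine sum_bij' (fun e _ => e.1) (fun n _ => (n, n)) ?_ ?_ ?_ ?_ ?_
      · intro e he; exact (mem_product.1 (mem_filter.1 he).1).1
      · intro n hn; exact mem_filter.2 ⟨mem_product.2 ⟨hn, hn⟩, rfl⟩
      · intro e he; exact Prod.ext rfl (mem_filter.1 he).2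
      · intro n hn; rfl
      · intro e he
        have := (mem_filter.1 he).2
        rw [← this]
    rw [h1, hΨ, mul_sum]
    refine sum_le_sum fun n hn => ?_
    have hn0 := hS n hn
    have hLnn : ∀ z, Lt z n n = 0 := by
      intro z
      unfold Lt
      rw [filter_false_of_mem, sum_empty]
      intro p _ h
      exact h.2 rfl
    set Kd := max (2 * A0 + 2) K with hKd
    have hKd1 : 1 ≤ Kd := le_max_of_le_right hK1
    have hbound : Ip θ n n ≤ θ n + Kd * θ n := by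
      have hθθ : θ n * θ n ≤ θ n := by
        calc θ n * θ n ≤ θ n * 1 := mul_le_mul_of_nonneg_left (hθ1 n) (hθ0 n)
          _ = θ n := mul_one _
      by_cases hcase : Dm θ n n ≤ A0
      · have hD0 : 0 ≤ Dm θ n n := by
          unfold Dm
          exact mul_nonneg (Nat.cast_nonneg _) (le_max_of_le_left (rad_pos θ n hn0 (hθS n hn)).le)
        have h := pair_le θ n n hn0 hn0 (hθS n hn) (hθ1 n) (hθS n hn) (hθ1 n) 1 (2 * Dm θ n n)
          (by positivity) ?_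
        · rw [if_pos rfl, hLnn, mul_zero, Real.exp_zero, mul_one] at h
          refine h.trans (add_le_add le_rfl ?_)
          split_ifs with h1
          · have h2 : (primorial 1 : ℝ) = 1 := by
              have : primorial 1 = 1 := by decide
              rw [this]; norm_num
            rw [h2]
            have h3 : θ n * θ n * (1 + (1 + 1) / (2 * Dm θ n n)) * (2 * Dm θ n n) =
                θ n * θ n * (2 * Dm θ n n + 2) := by
              have h4 : 2 * Dm θ n n ≠ 0 := by linarith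
              have h5 : (1 + 1) / (2 * Dm θ n n) * (2 * Dm θ n n) = 2 := by
                rw [div_mul_cancel₀ _ h4]; norm_num
              linear_combination (θ n * θ n) * h5
            rw [h3]
            calc θ n * θ n * (2 * Dm θ n n + 2) ≤ θ n * (2 * A0 + 2) := by
                  gcongr
                  exact hθ0 n
              _ ≤ θ n * Kd := mul_le_mul_of_nonneg_left (le_max_left _ _) (hθ0 n)
              _ = Kd * θ n := mul_comm _ _
          · exact mul_nonneg (by linarith) (hθ0 n)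
        · intro k hk hkD
          refine (prod_filter_le 1 k.natAbs (by simpa using hk)).trans ?_
          rw [Nat.cast_natAbs]
          push_cast
          exact hkD.le
      · push Not at hcase
        obtain ⟨h2, h3, h4⟩ := hscale (n, n) hcase
        have h := pair_fine θ n n hn0 hn0 (hθS n hn) (hθ1 n) (hθS n hn) (hθ1 n) (sc (n, n))
          (hz02.trans h2) h3 h4
        rw [if_pos rfl, hLnn, mul_zero, Real.exp_zero, mul_one] at h
        refine h.trans (add_le_add le_rfl ?_)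
        have h5 : (1 + (1 / 4 : ℝ) ^ sc (n, n)) ≤ 2 := by
          have : (1 / 4 : ℝ) ^ sc (n, n) ≤ 1 := pow_le_one₀ (by norm_num) (by norm_num)
          linarith
        have h6 : Real.exp (13 / Real.log (sc (n, n))) ≤ Real.exp (13 / Real.log 2) := by
          apply Real.exp_le_exp.2
          have h7 : (2 : ℝ) ≤ sc (n, n) := by exact_mod_cast hz02.trans h2
          have h8 : Real.log 2 ≤ Real.log (sc (n, n)) := Real.log_le_log (by norm_num) h7
          have h9 : 0 < Real.log 2 := Real.log_pos (by norm_num)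
          gcongr
        calc θ n * θ n * (1 + (1 / 4) ^ sc (n, n)) * Real.exp (13 / Real.log (sc (n, n))) ≤
              θ n * 2 * Real.exp (13 / Real.log 2) := by
              have := hθ0 n
              gcongr
          _ = θ n * K := by rw [hK]; ring
          _ ≤ θ n * Kd := mul_le_mul_of_nonneg_left (le_max_right _ _) (hθ0 n)
          _ = Kd * θ n := mul_comm _ _
    calc Ip θ n n ^ d ≤ (θ n + Kd * θ n) ^ d := pow_le_pow_left₀ (Ip_nonneg _ _ _) hbound d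
      _ = (1 + Kd) ^ d * θ n ^ d := by rw [← mul_pow]; ring
      _ ≤ (2 ^ d * (1 + Kd ^ d)) * θ n ^ d := by
          refine mul_le_mul_of_nonneg_right ?_ (pow_nonneg (hθ0 n) d)
          calc (1 + Kd) ^ d ≤ (2 * Kd) ^ d := pow_le_pow_left₀ (by linarith) (by linarith) d
            _ = 2 ^ d * Kd ^ d := mul_pow _ _ _
            _ ≤ 2 ^ d * (1 + Kd ^ d) := by
              refine mul_le_mul_of_nonneg_left (by linarith) (by positivity)
      _ = Kdi * θ n ^ d := by rw [hKdi]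
  -- small
  have hsmall : ∑ e ∈ Esm, Ip θ e.1 e.2 ^ d ≤ Ksm * Real.sqrt Ψ ^ 3 := by
    have h1 : ∀ e ∈ Esm, Ip θ e.1 e.2 ^ d ≤ (2 * A0 + 2) ^ d *
        (θ e.1 ^ d * θ e.2 ^ d * Real.exp (2 * d * (1 : ℕ) * Lt 1 e.1 e.2)) := by
      intro e he
      have h2 := mem_filter.1 he
      obtain ⟨h3, h4⟩ := hEofP e h2.1
      obtain ⟨⟨a1, a2, a3⟩, ⟨b1, b2, b3⟩⟩ := hPmem e h3
      have h5 := pair_crude θ e.1 e.2 a1 b1 h4 a2 a3 b2 b3 A0 h2.2 hA0pos.le
      calc Ip θ e.1 e.2 ^ d ≤ (θ e.1 * θ e.2 * (2 * A0 + 2) * Real.exp (2 * Lt 1 e.1 e.2)) ^ d :=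
            pow_le_pow_left₀ (Ip_nonneg _ _ _) h5 d
        _ = (2 * A0 + 2) ^ d * (θ e.1 ^ d * θ e.2 ^ d * Real.exp (2 * d * (1 : ℕ) * Lt 1 e.1 e.2)) := by
            rw [mul_pow, mul_pow, mul_pow, ← Real.exp_nat_mul]
            rw [show (d : ℝ) * (2 * Lt 1 e.1 e.2) = 2 * d * (1 : ℕ) * Lt 1 e.1 e.2 by
              push_cast; ring]
            ring
    refine (sum_le_sum h1).trans ?_
    rw [← mul_sum]
    have h2 := hC1 1 le_rfl d hd S hS θ hθ0 hθ1 A0 hA0pos Esm (fun e he => (hEofP e (mem_filter.1 he).1).1)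
      (fun e he => (mem_filter.1 he).2)
    rw [hKsm]
    calc (2 * A0 + 2) ^ d * ∑ e ∈ Esm, θ e.1 ^ d * θ e.2 ^ d *
          Real.exp (2 * d * (1 : ℕ) * Lt 1 e.1 e.2) ≤
          (2 * A0 + 2) ^ d * (C1 * Real.sqrt (2 * A0) * Real.sqrt Ψ ^ 3) := by gcongr
      _ = _ := by ring
  -- good
  have hgood : ∑ e ∈ Ego, Ip θ e.1 e.2 ^ d ≤ (1 + ε) * Ψ ^ 2 := by
    have h1 : ∀ e ∈ Ego, Ip θ e.1 e.2 ^ d ≤ (1 + ε) * (θ e.1 ^ d * θ e.2 ^ d) := by
      intro e he
      have h2 := mem_filter.1 he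
      obtain ⟨h3, h4, h5⟩ := hla e h2.1
      obtain ⟨⟨a1, a2, a3⟩, ⟨b1, b2, b3⟩⟩ := hPmem e h3
      obtain ⟨h6, h7, h8⟩ := hscale e h5
      have h9 := pair_fine θ e.1 e.2 a1 b1 a2 a3 b2 b3 (sc e) (hz02.trans h6) h7 h8
      rw [if_neg h4, zero_add] at h9
      calc Ip θ e.1 e.2 ^ d ≤ (θ e.1 * θ e.2 * (1 + (1 / 4) ^ sc e) *
            Real.exp (13 / Real.log (sc e)) * Real.exp (2 * Lt (sc e) e.1 e.2)) ^ d :=
            pow_le_pow_left₀ (Ip_nonneg _ _ _) h9 d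
        _ = (θ e.1 ^ d * θ e.2 ^ d) * (((1 + (1 / 4) ^ sc e) ^ d *
            Real.exp (d * (13 / Real.log (sc e)))) * Real.exp (d * (2 * Lt (sc e) e.1 e.2))) := by
            rw [mul_pow, mul_pow, mul_pow, mul_pow, ← Real.exp_nat_mul, ← Real.exp_nat_mul]
            ring
        _ ≤ (θ e.1 ^ d * θ e.2 ^ d) * ((1 + ε / 2) * Real.exp (2 * d * ε₂)) := by
            refine mul_le_mul_of_nonneg_left ?_ (mul_nonneg (pow_nonneg a2.le d) (pow_nonneg b2.le d))
            refine mul_le_mul (hz0' _ h6) (Real.exp_le_exp.2 ?_) (Real.exp_pos _).le (by linarith)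
            calc (d : ℝ) * (2 * Lt (sc e) e.1 e.2) ≤ d * (2 * ε₂) := by
                  gcongr
                  exact h2.2
              _ = 2 * d * ε₂ := by ring
        _ ≤ (θ e.1 ^ d * θ e.2 ^ d) * (1 + ε) :=
            mul_le_mul_of_nonneg_left hε₂ (mul_nonneg (pow_nonneg a2.le d) (pow_nonneg b2.le d))
        _ = (1 + ε) * (θ e.1 ^ d * θ e.2 ^ d) := mul_comm _ _
    refine (sum_le_sum h1).trans ?_
    rw [← mul_sum]
    refine mul_le_mul_of_nonneg_left ?_ (by linarith)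
    calc ∑ e ∈ Ego, θ e.1 ^ d * θ e.2 ^ d ≤ ∑ e ∈ P, θ e.1 ^ d * θ e.2 ^ d := by
          refine sum_le_sum_of_subset_of_nonneg (fun e he => (hla e (mem_filter.1 he).1).1) ?_
          intro e _ _
          exact mul_nonneg (pow_nonneg (hθ0 _) d) (pow_nonneg (hθ0 _) d)
      _ = Ψ ^ 2 := by
          rw [hP, sum_product, sq, hΨ, sum_mul_sum]
  -- bad
  have hbad : ∑ e ∈ Eba, Ip θ e.1 e.2 ^ d ≤ Kla * Real.sqrt Ψ ^ 3 := by
    set N : ℕ := Eba.sup sc + 1 with hN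
    have hmaps : ∀ e ∈ Eba, sc e ∈ range N := fun e he =>
      mem_range.2 (Nat.lt_succ_of_le (le_sup (f := sc) he))
    rw [← sum_fiberwise_of_maps_to hmaps]
    have hz : ∀ z ∈ range N, ∑ e ∈ Eba with sc e = z, Ip θ e.1 e.2 ^ d ≤
        (K ^ d * (C2 * Real.sqrt 32) * Real.sqrt Ψ ^ 3) * (1 / 2) ^ z := by
      intro z _
      have h1 : ∀ e ∈ Eba.filter (fun e => sc e = z), Ip θ e.1 e.2 ^ d ≤
          (K ^ d * Real.exp (-(3 * z))) * (θ e.1 ^ d * θ e.2 ^ d * Real.exp (B * z * Lt z e.1 e.2)) := by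
        intro e he
        have h0 := mem_filter.1 he
        have h2 := mem_filter.1 h0.1
        have hez := h0.2
        obtain ⟨h3, h4, h5⟩ := hla e h2.1
        obtain ⟨⟨a1, a2, a3⟩, ⟨b1, b2, b3⟩⟩ := hPmem e h3
        obtain ⟨h6, h7, h8⟩ := hscale e h5
        have h9 := pair_fine θ e.1 e.2 a1 b1 a2 a3 b2 b3 (sc e) (hz02.trans h6) h7 h8
        rw [if_neg h4, zero_add] at h9
        have hL : ε₂ < Lt (sc e) e.1 e.2 := not_le.1 h2.2
        rw [hez] at h6 h9 hL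
        have hz2 : 2 ≤ z := hz02.trans h6
        have hz2r : (2 : ℝ) ≤ z := by exact_mod_cast hz2
        have h10 : (1 + (1 / 4 : ℝ) ^ z) ≤ 2 := by
          have : (1 / 4 : ℝ) ^ z ≤ 1 := pow_le_one₀ (by norm_num) (by norm_num)
          linarith
        have h11 : Real.exp (13 / Real.log z) ≤ Real.exp (13 / Real.log 2) := by
          apply Real.exp_le_exp.2
          have h8 : Real.log 2 ≤ Real.log z := Real.log_le_log (by norm_num) hz2r
          have h9 : 0 < Real.log 2 := Real.log_pos (by norm_num)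
          gcongr
        calc Ip θ e.1 e.2 ^ d ≤ (θ e.1 * θ e.2 * (1 + (1 / 4) ^ z) *
              Real.exp (13 / Real.log z) * Real.exp (2 * Lt z e.1 e.2)) ^ d :=
              pow_le_pow_left₀ (Ip_nonneg _ _ _) h9 d
          _ ≤ (θ e.1 * θ e.2 * 2 * Real.exp (13 / Real.log 2) * Real.exp (2 * Lt z e.1 e.2)) ^ d := by
              gcongr
          _ = (θ e.1 ^ d * θ e.2 ^ d) * (K ^ d * Real.exp (2 * d * Lt z e.1 e.2)) := by
              rw [hK, mul_pow, mul_pow, mul_pow, mul_pow, mul_pow, ← Real.exp_nat_mul (2 * Lt z e.1 e.2)]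
              rw [show (d : ℝ) * (2 * Lt z e.1 e.2) = 2 * d * Lt z e.1 e.2 by ring]
              ring
          _ ≤ (θ e.1 ^ d * θ e.2 ^ d) * (K ^ d * Real.exp (-(3 * z) + B * z * Lt z e.1 e.2)) := by
              refine mul_le_mul_of_nonneg_left (mul_le_mul_of_nonneg_left (Real.exp_le_exp.2 ?_)
                (pow_nonneg hK0.le d)) (mul_nonneg (pow_nonneg a2.le d) (pow_nonneg b2.le d))
              have h12 : 2 * (d : ℝ) * Lt z e.1 e.2 ≤ 2 * d * z * Lt z e.1 e.2 := by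
                have h13 : 0 ≤ 2 * (d : ℝ) * Lt z e.1 e.2 := by
                  have := hLt0 z e.1 e.2; positivity
                nlinarith
              have h14 : 3 * (z : ℝ) ≤ 3 / ε₂ * z * Lt z e.1 e.2 := by
                have h15 : 1 ≤ 1 / ε₂ * Lt z e.1 e.2 := by
                  rw [div_mul_eq_mul_div, one_mul, le_div_iff₀ hε₂0]; linarith
                calc 3 * (z : ℝ) = 3 * z * 1 := by ring
                  _ ≤ 3 * z * (1 / ε₂ * Lt z e.1 e.2) := by gcongr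
                  _ = 3 / ε₂ * z * Lt z e.1 e.2 := by ring
              rw [hB]
              linarith
          _ = (K ^ d * Real.exp (-(3 * z))) * (θ e.1 ^ d * θ e.2 ^ d * Real.exp (B * z * Lt z e.1 e.2)) := by
              rw [Real.exp_add]; ring
      refine (sum_le_sum h1).trans ?_
      rw [← mul_sum]
      rcases (Eba.filter (fun e => sc e = z)).eq_empty_or_nonempty with hemp | ⟨e0, he0⟩
      · rw [hemp, sum_empty, mul_zero]; positivity
      have hz2 : 2 ≤ z := by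
        have h0 := mem_filter.1 he0
        obtain ⟨h3, h4, h5⟩ := hla e0 (mem_filter.1 h0.1).1
        have := (hscale e0 h5).1
        rw [h0.2] at this
        exact hz02.trans this
      have h2 := hC2 z (by omega) d hd S hS θ hθ0 hθ1 (16 ^ (z + 1)) (by positivity)
        (Eba.filter (fun e => sc e = z))
        (fun e he => (hla e (mem_filter.1 (mem_filter.1 he).1).1).1)
        (fun e he => by
          have h0 := mem_filter.1 he
          obtain ⟨h3, h4, h5⟩ := hla e (mem_filter.1 h0.1).1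
          have := (hscale e h5).2.2
          rw [h0.2] at this
          exact this.le)
      have h3 : Real.sqrt (2 * 16 ^ (z + 1)) = Real.sqrt 32 * 4 ^ z := by
        rw [show (2 : ℝ) * 16 ^ (z + 1) = 32 * (4 ^ z) ^ 2 by
          rw [pow_succ, show (16 : ℝ) = 4 ^ 2 by norm_num, ← pow_mul, ← pow_mul, mul_comm 2 z]; ring]
        rw [Real.sqrt_mul (by norm_num), Real.sqrt_sq (by positivity)]
      rw [h3] at h2
      have h4 : Real.exp (-(3 * z)) * 4 ^ z ≤ (1 / 2) ^ z := by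
        have h5 : Real.exp (-(3 * (z : ℝ))) = (Real.exp (-3)) ^ z := by
          rw [← Real.exp_nat_mul]; congr 1; ring
        rw [h5, ← mul_pow]
        refine pow_le_pow_left₀ (by positivity) ?_ z
        have h6 : Real.exp (-3) ≤ 1 / 8 := by
          rw [Real.exp_neg, inv_eq_one_div]
          apply one_div_le_one_div_of_le (by norm_num)
          have h7 : Real.exp 3 = Real.exp 1 ^ 3 := by rw [← Real.exp_nat_mul]; norm_num
          rw [h7]
          have h8 : (2 : ℝ) ≤ Real.exp 1 := by linarith [Real.exp_one_gt_d9]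
          calc (8 : ℝ) = 2 ^ 3 := by norm_num
            _ ≤ Real.exp 1 ^ 3 := pow_le_pow_left₀ (by norm_num) h8 3
        linarith
      calc (K ^ d * Real.exp (-(3 * z))) * ∑ e ∈ Eba with sc e = z,
            θ e.1 ^ d * θ e.2 ^ d * Real.exp (B * z * Lt z e.1 e.2) ≤
            (K ^ d * Real.exp (-(3 * z))) * (C2 * (Real.sqrt 32 * 4 ^ z) * Real.sqrt Ψ ^ 3) := by
            gcongr
        _ = (K ^ d * (C2 * Real.sqrt 32) * Real.sqrt Ψ ^ 3) * (Real.exp (-(3 * z)) * 4 ^ z) := by ring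
        _ ≤ (K ^ d * (C2 * Real.sqrt 32) * Real.sqrt Ψ ^ 3) * (1 / 2) ^ z := by gcongr
    refine (sum_le_sum hz).trans ?_
    rw [← mul_sum, hKla]
    have hgeo : ∑ z ∈ range N, (1 / 2 : ℝ) ^ z ≤ 2 := by
      exact sum_geometric_two_le N
    calc (K ^ d * (C2 * Real.sqrt 32) * Real.sqrt Ψ ^ 3) * ∑ z ∈ range N, (1 / 2 : ℝ) ^ z ≤
          (K ^ d * (C2 * Real.sqrt 32) * Real.sqrt Ψ ^ 3) * 2 := by gcongr
      _ = _ := by ring
  -- total
  have hsplit : ∑ e ∈ P, Ip θ e.1 e.2 ^ d = ∑ e ∈ Edi, Ip θ e.1 e.2 ^ d +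
      (∑ e ∈ Esm, Ip θ e.1 e.2 ^ d + (∑ e ∈ Ego, Ip θ e.1 e.2 ^ d + ∑ e ∈ Eba, Ip θ e.1 e.2 ^ d)) := by
    rw [hEgo, hEba, sum_filter_add_sum_filter_not, hEsm, hEla, sum_filter_add_sum_filter_not,
      hEdi, hEof, sum_filter_add_sum_filter_not]
  rw [hsplit]
  have hs3 : 0 ≤ Real.sqrt Ψ ^ 3 := by positivity
  calc ∑ e ∈ Edi, Ip θ e.1 e.2 ^ d +
      (∑ e ∈ Esm, Ip θ e.1 e.2 ^ d + (∑ e ∈ Ego, Ip θ e.1 e.2 ^ d + ∑ e ∈ Eba, Ip θ e.1 e.2 ^ d)) ≤
      Kdi * Ψ + (Ksm * Real.sqrt Ψ ^ 3 + ((1 + ε) * Ψ ^ 2 + Kla * Real.sqrt Ψ ^ 3)) := by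
        linarith
    _ ≤ (1 + ε) * Ψ ^ 2 + (Ksm + Kla + Kdi) * (Real.sqrt Ψ ^ 3 + Ψ) := by
        have e1 : 0 ≤ Ksm * Ψ := by positivity
        have e2 : 0 ≤ Kla * Ψ := by positivity
        have e3 : 0 ≤ Kdi * Real.sqrt Ψ ^ 3 := by positivity
        nlinarith

end Pool.Agent.K7.H64.DS
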