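import Mathlib
import Pool.Agent.K7.H64.DS.Assemble

set_option autoImplicit false
set_option maxHeartbeats 1000000

/-!
# The union on the torus
-/

namespace Pool.Agent.K7.H64.DS

open Finset MeasureTheory

/-- the union of balls about reduced fractions -/
def Un (θ : ℕ → ℝ) (n : ℕ) : Set UnitAddCircle := {x | ∃ a ∈ red n, x ∈ Metric.ball (cpt a n) (rad θ n)}

lemma Un_open (θ : ℕ → ℝ) (n : ℕ) : IsOpen (Un θ n) := by
  have h : Un θ n = ⋃ a ∈ red n, Metric.ball (cpt a n) (rad θ n) := by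
    ext x
    simp [Un]
  rw [h]
  exact isOpen_biUnion fun _ _ => Metric.isOpen_ball

lemma fn_eq_zero (θ : ℕ → ℝ) (n : ℕ) (x : UnitAddCircle) (hx : x ∉ Un θ n) :
    fn n (rad θ n) x = 0 := by
  unfold fn
  refine sum_eq_zero fun a ha => ?_
  unfold bi
  rw [Set.indicator_of_notMem]
  exact fun h => hx ⟨a, ha, h⟩

/-- the union on the torus -/
def UU (d : ℕ) (θ : ℕ → ℝ) (S : Finset ℕ) : Set (Fin d → UnitAddCircle) :=
  {x | ∃ n ∈ S, ∀ i, x i ∈ Un θ n}

lemma UU_meas (d : ℕ) (θ : ℕ → ℝ) (S : Finset ℕ) : MeasurableSet (UU d θ S) := by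
  have h : UU d θ S = ⋃ n ∈ S, ⋂ i, (fun x : Fin d → UnitAddCircle => x i) ⁻¹' (Un θ n) := by
    ext x
    simp [UU]
  rw [h]
  refine Finset.measurableSet_biUnion _ fun n _ => MeasurableSet.iInter fun i => ?_
  exact (measurable_pi_apply i) (Un_open θ n).measurableSet

instance : IsProbabilityMeasure (volume : Measure UnitAddCircle) :=
  ⟨by rw [AddCircle.measure_univ]; simp⟩

theorem torus_bound (d : ℕ) (hd : 1 ≤ d) (γ : ℝ) (hγ0 : 0 < γ) (hγ1 : γ < 1) :
    ∃ M : ℝ, 0 < M ∧ ∀ S : Finset ℕ, (∀ n ∈ S, 0 < n) → ∀ θ : ℕ → ℝ, (∀ n, 0 ≤ θ n) →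
    (∀ n, θ n ≤ 1) → (∀ n ∈ S, 0 < θ n) → M ≤ ∑ n ∈ S, θ n ^ d →
    ENNReal.ofReal γ ≤ volume (UU d θ S) := by
  classical
  set ε : ℝ := (1 / γ - 1) / 2 with hε
  have hγinv : 1 < 1 / γ := by rw [lt_div_iff₀ hγ0]; linarith
  have hε0 : 0 < ε := by rw [hε]; linarith
  obtain ⟨C, hC0, hC⟩ := second_moment d hd ε hε0
  -- M with C (sqrt^3 + Ψ) ≤ ε Ψ^2
  refine ⟨(1 + 2 * C / ε) ^ 2, by positivity, fun S hS θ hθ0 hθ1 hθS hM => ?_⟩
  set Ψ : ℝ := ∑ n ∈ S, θ n ^ d with hΨ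
  set u : ℝ := Real.sqrt Ψ with hu
  have hΨ0 : 0 ≤ Ψ := sum_nonneg fun n _ => pow_nonneg (hθ0 n) d
  have hu2 : u ^ 2 = Ψ := Real.sq_sqrt hΨ0
  have hu0 : 0 ≤ u := Real.sqrt_nonneg _
  have hu1 : 1 + 2 * C / ε ≤ u := by
    have h1 : 1 + 2 * C / ε = Real.sqrt ((1 + 2 * C / ε) ^ 2) := by
      rw [Real.sqrt_sq]; positivity
    rw [h1]
    exact Real.sqrt_le_sqrt hM
  have h2mom := hC S hS θ hθ0 hθ1 hθS
  have hCε : 0 < 2 * C / ε := by positivity
  have hone : 1 ≤ u := by linarith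
  have hsm : C * (u ^ 3 + Ψ) ≤ ε * Ψ ^ 2 := by
    rw [← hu2]
    have h1 : 2 * C ≤ ε * u := by
      have : 2 * C / ε ≤ u := by linarith
      rw [div_le_iff₀ hε0] at this
      linarith
    have h2 : u ^ 2 ≤ u ^ 3 := pow_le_pow_right₀ hone (by norm_num)
    have h3 : 0 ≤ u ^ 3 := by positivity
    calc C * (u ^ 3 + u ^ 2) ≤ C * (2 * u ^ 3) := by gcongr; linarith
      _ = (2 * C) * u ^ 3 := by ring
      _ ≤ (ε * u) * u ^ 3 := by gcongr
      _ = ε * (u ^ 2) ^ 2 := by ring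
  have hsecond : ∑ e ∈ S ×ˢ S, Ip θ e.1 e.2 ^ d ≤ (1 + 2 * ε) * Ψ ^ 2 := by
    have := h2mom
    rw [← hΨ, ← hu] at this
    linarith
  -- the counting function
  set N : (Fin d → UnitAddCircle) → ℝ := fun x => ∑ n ∈ S, ∏ i, fn n (rad θ n) (x i) with hN
  have hint1 : ∀ n, Integrable (fun x : Fin d → UnitAddCircle => ∏ i, fn n (rad θ n) (x i)) := by
    intro n
    exact Integrable.fintype_prod (f := fun _ => fn n (rad θ n)) fun i => fn_integrable n (rad θ n)
  have hint2 : ∀ m n, Integrable (fun x : Fin d → UnitAddCircle =>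
      ∏ i, (fn m (rad θ m) (x i) * fn n (rad θ n) (x i))) := by
    intro m n
    exact Integrable.fintype_prod (f := fun _ y => fn m (rad θ m) y * fn n (rad θ n) y)
      fun i => fn_mul_integrable m n (rad θ m) (rad θ n)
  have hNint : Integrable N := integrable_finsetSum _ fun n _ => hint1 n
  have hN2eq : ∀ x, N x ^ 2 = ∑ e ∈ S ×ˢ S, ∏ i, (fn e.1 (rad θ e.1) (x i) * fn e.2 (rad θ e.2) (x i)) := by
    intro x
    simp only [hN]
    rw [sq, sum_mul_sum, ← sum_product']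
    refine sum_congr rfl fun e _ => ?_
    rw [prod_mul_distrib]
  have hN2int : Integrable (fun x => N x ^ 2) := by
    simp_rw [hN2eq]
    exact integrable_finsetSum _ fun e _ => hint2 e.1 e.2
  have hNval : ∫ x, N x = Ψ := by
    simp only [hN]
    rw [integral_finsetSum _ fun n _ => hint1 n, hΨ]
    refine sum_congr rfl fun n hn => ?_
    rw [integral_fintype_prod_volume_eq_pow (fn n (rad θ n))]
    rw [fn_integral n (rad θ n) (rad_pos θ n (hS n hn) (hθS n hn)).le (rad_le θ n (hS n hn) (hθ1 n)),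
      rad_mul θ n (hS n hn), Fintype.card_fin]
  have hN2val : ∫ x, N x ^ 2 = ∑ e ∈ S ×ˢ S, Ip θ e.1 e.2 ^ d := by
    simp_rw [hN2eq]
    rw [integral_finsetSum _ fun e _ => hint2 e.1 e.2]
    refine sum_congr rfl fun e _ => ?_
    rw [integral_fintype_prod_volume_eq_pow (fun y => fn e.1 (rad θ e.1) y * fn e.2 (rad θ e.2) y)]
    rw [Fintype.card_fin]
    rfl
  -- Cauchy-Schwarz
  set U := UU d θ S with hU
  have hUm : MeasurableSet U := UU_meas d θ S
  set c : ℝ := (1 + 2 * ε) * Ψ with hc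
  have hNU : ∀ x, x ∉ U → N x = 0 := by
    intro x hx
    simp only [hN]
    refine sum_eq_zero fun n hn => ?_
    have : ∃ i, x i ∉ Un θ n := by
      by_contra hcon
      push Not at hcon
      exact hx ⟨n, hn, hcon⟩
    obtain ⟨i, hi⟩ := this
    exact prod_eq_zero (mem_univ i) (fn_eq_zero θ n (x i) hi)
  have hpt : ∀ x, 2 * c * N x - N x ^ 2 ≤ c ^ 2 * U.indicator (fun _ => (1 : ℝ)) x := by
    intro x
    by_cases hx : x ∈ U
    · rw [Set.indicator_of_mem hx]; nlinarith [sq_nonneg (N x - c)]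
    · rw [Set.indicator_of_notMem hx, hNU x hx]; simp
  have hindint : Integrable (U.indicator (fun _ => (1 : ℝ)) : (Fin d → UnitAddCircle) → ℝ) :=
    (integrable_const (1 : ℝ)).indicator hUm
  have hI : ∫ x, (2 * c * N x - N x ^ 2) ≤ ∫ x, c ^ 2 * U.indicator (fun _ => (1 : ℝ)) x :=
    integral_mono ((hNint.const_mul (2 * c)).sub hN2int) (hindint.const_mul (c ^ 2)) hpt
  rw [integral_sub (hNint.const_mul (2 * c)) hN2int, integral_const_mul, integral_const_mul, hNval,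
    hN2val, integral_indicator hUm] at hI
  simp only [integral_const, smul_eq_mul, mul_one, measureReal_restrict_apply MeasurableSet.univ,
    Set.univ_inter] at hI
  rw [measureReal_def] at hI
  have hΨpos : 0 < Ψ := by rw [← hu2]; positivity
  have hc0 : 0 < c := by rw [hc]; positivity
  have hfin : γ ≤ (volume U).toReal := by
    have h1 : (1 + 2 * ε) * Ψ ^ 2 ≤ c ^ 2 * (volume U).toReal := by
      have : 2 * c * Ψ = 2 * ((1 + 2 * ε) * Ψ ^ 2) := by rw [hc]; ring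
      linarith
    have h2 : 1 + 2 * ε = 1 / γ := by rw [hε]; ring
    rw [hc, h2] at h1
    have h3 : (1 / γ * Ψ) ^ 2 * (volume U).toReal = (1 / γ * Ψ ^ 2) * ((volume U).toReal / γ) := by
      field_simp
    rw [h3] at h1
    have h4 : 0 < 1 / γ * Ψ ^ 2 := by positivity
    have h5 : 1 ≤ (volume U).toReal / γ := by
      by_contra hcon
      push Not at hcon
      have := mul_lt_mul_of_pos_left hcon h4
      linarith
    rw [le_div_iff₀ hγ0] at h5
    linarith
  rw [ENNReal.ofReal_le_iff_le_toReal (measure_ne_top _ _)]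
  exact hfin

end Pool.Agent.K7.H64.DS
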