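import Mathlib
import Pool.Agent.K7.H64.DS.Torus

set_option autoImplicit false
set_option maxHeartbeats 1000000

/-!
# Transfer to the unit cube
-/

namespace Pool.Agent.K7.H64.DS

open Finset MeasureTheory

/-- the one-dimensional set -/
def e1 (ψ : ℕ → ℝ) (n : ℕ) : Set ℝ := {x | x ∈ Set.Icc (0 : ℝ) 1 ∧
  ∃ a : ℤ, Int.gcd a (n : ℤ) = 1 ∧ |x - (a : ℝ) / (n : ℝ)| < ψ n / (n : ℝ)}

/-- the measure parameter -/
noncomputable def th (ψ : ℕ → ℝ) (n : ℕ) : ℝ := min 1 (2 * ψ n * Nat.totient n / n)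

lemma th_nonneg (ψ : ℕ → ℝ) (hψ : ∀ n, 0 ≤ ψ n) (n : ℕ) : 0 ≤ th ψ n := by
  have := hψ n
  exact le_min zero_le_one (by positivity)

lemma th_le (ψ : ℕ → ℝ) (n : ℕ) : th ψ n ≤ 1 := min_le_left _ _

lemma rad_th_le (ψ : ℕ → ℝ) (n : ℕ) (hn : 0 < n) : rad (th ψ) n ≤ ψ n / n := by
  unfold rad
  have h1 : (0 : ℝ) < n := by exact_mod_cast hn
  have h2 : (0 : ℝ) < Nat.totient n := by exact_mod_cast Nat.totient_pos.2 hn
  rw [div_le_div_iff₀ (by positivity) h1]
  have h3 : th ψ n ≤ 2 * ψ n * Nat.totient n / n := min_le_right _ _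
  rw [le_div_iff₀ h1] at h3
  linarith

/-- reduce an integer numerator -/
lemma exists_red (n : ℕ) (hn : 0 < n) (a : ℤ) (ha : Int.gcd a (n : ℤ) = 1) :
    ∃ b ∈ red n, ((((a : ℝ) / n : ℝ)) : UnitAddCircle) = cpt b n := by
  have hnz : (0 : ℤ) < n := by exact_mod_cast hn
  have h0 : 0 ≤ a % n := Int.emod_nonneg _ hnz.ne'
  have h1 : a % n < n := Int.emod_lt_of_pos _ hnz
  obtain ⟨b, hb⟩ : ∃ b : ℕ, (b : ℤ) = a % n := ⟨(a % n).toNat, Int.toNat_of_nonneg h0⟩
  refine ⟨b, ?_, ?_⟩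
  · unfold red
    refine mem_filter.2 ⟨mem_range.2 (by omega), ?_⟩
    have h2 : Int.gcd (a % n) n = 1 := by
      rw [Int.gcd_emod]; exact ha
    rw [← hb] at h2
    exact_mod_cast h2
  · unfold cpt
    have h3 : (a : ℝ) / n = (b : ℝ) / n + (a / (n : ℤ) : ℤ) := by
      have h4 : (a : ℝ) = (n : ℝ) * (a / (n : ℤ) : ℤ) + b := by
        have := Int.mul_ediv_add_emod a n
        rw [← hb] at this
        exact_mod_cast this.symm
      have h5 : (n : ℝ) ≠ 0 := by positivity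
      rw [h4]
      field_simp
      ring
    rw [h3, AddCircle.coe_add]
    have h6 : (((a / (n : ℤ) : ℤ) : ℝ) : UnitAddCircle) = 0 := by
      have : ((a / (n : ℤ) : ℤ) : ℝ) = (a / (n : ℤ) : ℤ) • (1 : ℝ) := by simp
      rw [this, AddCircle.coe_zsmul]
      simp [AddCircle.coe_period]
    rw [h6, add_zero]

lemma e1_meas_le (ψ : ℕ → ℝ) (n : ℕ) (hn : 0 < n) :
    volume (e1 ψ n) ≤ ENNReal.ofReal (th ψ n) := by
  have hn0 : (0 : ℝ) < n := by exact_mod_cast hn
  have hle1 : volume (e1 ψ n) ≤ ENNReal.ofReal 1 := by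
    refine (measure_mono fun x hx => hx.1).trans ?_
    rw [Real.volume_Icc]; norm_num
  have hle2 : volume (e1 ψ n) ≤ ENNReal.ofReal (2 * ψ n * Nat.totient n / n) := by
    have h1 : volume (e1 ψ n) ≤ volume (e1 ψ n ∩ Set.Ioc (0 : ℝ) 1) := by
      have h2 : e1 ψ n ⊆ (e1 ψ n ∩ Set.Ioc (0 : ℝ) 1) ∪ {0} := by
        intro x hx
        rcases eq_or_lt_of_le hx.1.1 with h | h
        · exact Or.inr h.symm
        · exact Or.inl ⟨hx, h, hx.1.2⟩
      refine (measure_mono h2).trans ((measure_union_le _ _).trans ?_)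
      rw [Real.volume_singleton, add_zero]
    refine h1.trans ?_
    set V : Set UnitAddCircle := ⋃ a ∈ red n, Metric.closedBall (cpt a n) (ψ n / n) with hV
    have hVm : MeasurableSet V := by
      rw [hV]
      exact Finset.measurableSet_biUnion _ fun _ _ => Metric.isClosed_closedBall.measurableSet
    have h3 : e1 ψ n ∩ Set.Ioc (0 : ℝ) 1 ⊆
        ((fun x : ℝ => (x : UnitAddCircle)) ⁻¹' V) ∩ Set.Ioc (0 : ℝ) (0 + 1) := by
      intro x hx
      refine ⟨?_, by simpa using hx.2⟩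
      obtain ⟨-, a, ha, hxa⟩ := hx.1
      obtain ⟨b, hb, hab⟩ := exists_red n hn a ha
      refine Set.mem_iUnion₂.2 ⟨b, hb, ?_⟩
      rw [Metric.mem_closedBall, dist_eq_norm, ← hab]
      have h4 : ((x : ℝ) : UnitAddCircle) - (((a : ℝ) / n : ℝ) : UnitAddCircle) =
          ((x - (a : ℝ) / n : ℝ) : UnitAddCircle) := rfl
      rw [h4, UnitAddCircle.norm_eq]
      refine le_trans ?_ hxa.le
      have := round_le (x - (a : ℝ) / n) 0
      simpa using this
    refine (measure_mono h3).trans ?_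
    have h5 := AddCircle.add_projection_respects_measure (T := 1) 0 hVm
    have h6 : volume (((fun x : ℝ => (x : UnitAddCircle)) ⁻¹' V) ∩ Set.Ioc (0 : ℝ) (0 + 1)) =
        volume V := h5.symm
    rw [h6, hV]
    refine (measure_biUnion_finset_le _ _).trans ?_
    have h7 : ∀ a ∈ red n, volume (Metric.closedBall (cpt a n) (ψ n / n)) ≤
        ENNReal.ofReal (2 * (ψ n / n)) := by
      intro a _
      rw [AddCircle.volume_closedBall]
      exact ENNReal.ofReal_le_ofReal (min_le_right _ _)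
    refine (sum_le_sum h7).trans ?_
    rw [sum_const, card_red, nsmul_eq_mul, ← ENNReal.ofReal_natCast, ← ENNReal.ofReal_mul
      (Nat.cast_nonneg _)]
    apply ENNReal.ofReal_le_ofReal
    apply le_of_eq
    ring
  unfold th
  rcases le_total 1 (2 * ψ n * Nat.totient n / n) with h | h
  · rw [min_eq_left h]; exact hle1
  · rw [min_eq_right h]; exact hle2

/-- the `d`-dimensional set -/
def ed (d : ℕ) (ψ : ℕ → ℝ) (n : ℕ) : Set (Fin d → ℝ) := {x | ∀ i, x i ∈ e1 ψ n}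

lemma ed_meas_le (d : ℕ) (ψ : ℕ → ℝ) (hψ : ∀ n, 0 ≤ ψ n) (n : ℕ) (hn : 0 < n) :
    volume (ed d ψ n) ≤ ENNReal.ofReal (th ψ n ^ d) := by
  have h1 : ed d ψ n = Set.pi Set.univ (fun _ => e1 ψ n) := by
    ext x
    simp [ed, Set.mem_pi]
  rw [h1, volume_pi_pi, prod_const, card_univ, Fintype.card_fin,
    ENNReal.ofReal_pow (th_nonneg ψ hψ n)]
  exact pow_le_pow_left' (e1_meas_le ψ n hn) d

/-- lifting from the torus -/
lemma lift_le (d : ℕ) (ψ : ℕ → ℝ) (S : Finset ℕ) (hS : ∀ n ∈ S, 0 < n) (W : Set (Fin d → ℝ))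
    (hW : ∀ n ∈ S, ed d ψ n ⊆ W) : volume (UU d (th ψ) S) ≤ volume W := by
  have hmp : MeasurePreserving (fun (x : Fin d → ℝ) i => ((x i : ℝ) : UnitAddCircle))
      (Measure.pi fun _ : Fin d => (volume.restrict (Set.Ioc (0 : ℝ) (0 + 1)))) volume :=
    measurePreserving_pi _ _ fun _ => AddCircle.measurePreserving_mk 1 0
  rw [← hmp.measure_preimage (UU_meas d (th ψ) S).nullMeasurableSet]
  rw [← Measure.restrict_pi_pi]
  rw [Measure.restrict_apply (hmp.measurable (UU_meas d (th ψ) S))]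
  refine measure_mono fun x hx => ?_
  obtain ⟨⟨n, hn, hxn⟩, hx01⟩ := hx
  refine hW n hn ?_
  intro i
  have hn0 := hS n hn
  have hi : x i ∈ Set.Ioc (0 : ℝ) (0 + 1) := hx01 i (Set.mem_univ i)
  rw [zero_add] at hi
  refine ⟨⟨hi.1.le, hi.2⟩, ?_⟩
  obtain ⟨a, ha, hball⟩ := hxn i
  rw [Metric.mem_ball, dist_eq_norm] at hball
  unfold cpt at hball
  have h4 : ((x i : ℝ) : UnitAddCircle) - (((a : ℝ) / n : ℝ) : UnitAddCircle) =
      ((x i - (a : ℝ) / n : ℝ) : UnitAddCircle) := rfl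
  rw [h4, UnitAddCircle.norm_eq] at hball
  set j : ℤ := round (x i - (a : ℝ) / n) with hj
  refine ⟨a + j * n, ?_, ?_⟩
  · rw [Int.gcd_add_mul_right_left]
    exact_mod_cast (mem_filter.1 ha).2
  · have hn0r : (n : ℝ) ≠ 0 := by positivity
    have h5 : x i - ((a + j * n : ℤ) : ℝ) / n = x i - (a : ℝ) / n - j := by
      push_cast
      field_simp
      ring
    rw [h5]
    exact hball.trans_le (rad_th_le ψ n hn0)

end Pool.Agent.K7.H64.DS
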